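import Pool.Agent.U330.COV.Fin10

/-!
# MP_5e7226_co: convex bodies with a large central section near an ellipsoid

Let `K` be a convex body in `ℝ^d`, symmetric or not, `o` an interior point and `V` a linear subspace
of codimension at most `d / 10^N` such that the section of `K` by `o + V` lies between an ellipsoid
of `o + V` centred at `o` and its `κ`-fold, `64 κ² ≤ N`. Then

  `s(K, o) ≤ 1 + 6 · 2^d exp(-d / 10^N) d log(2d² + 2d + 1)`,

which is less than `2^d` for all `d ≥ d₀(κ)`. Outside of `o + V` nothing is assumed on `K`. The case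
`V = ℝ^d` is that of all convex bodies at distance at most `κ` from ellipsoids. More generally this
holds (with some `N = N(n, ρ, κ)`) if the ellipsoid is replaced by the unit ball of a norm on `V` such
that any `n` vectors of norm at most one have a signed sum of norm at most `ρ < n`; e.g. for the
bodies with sections at distance at most `κ` from the unit balls of subspaces or quotients of `L_p`,
`1 < p < ∞`.

Proof. Let `L` be the polar body of `K - o`; it suffices to cover `L` by translates of its interior (as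
in the starting result `AllConvexBodies`). The orthogonal projection of `L` to `V` is the polar body of
the section, so it is at distance `κ` from the dual unit ball. Let `A` be a finite subset of `L`,
`X, X_1, X_2, ...` independent random points of `A`, `l < 1` close to `1`, `Q = (1 + l) L`, `c = l / (1 + l)`,
`Y_0` a random point of `Q` and `Y_{j+1} = X_{j+1} + c Y_j`, a point of `Q`. Let `θ` be the largest share
of `A` in a translate of `l L` and `β = θ c^(-d)`. The function `z ↦ |A ∩ (z - l L)|` has the squared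
`L²` norm at most `θ |A|² |l L|`: the translates of `l L` enter, not those of `- l L`. So for all
`φ : Q → [0,1]` the mean of `y ↦ E φ(X + c y)` over `Q` is at most `(β · mean φ)^(1/2)`, and by iteration
`P(Y_N ∈ M) ≤ β (|M| / |Q|)^(2^(-N))`. If the Rademacher averages of `N` vectors of the dual norm are at
most `N / (8 κ)` then for fixed `x'_i ∈ A` the norm of the projection of `∑ (X_i - x'_i)` is at most `N / 2`
with probability at least `1/2`, and then the projection of `Y_N` is in a translate of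
`(1 + l - N c^(N-1) / 2) P_V L`, since all `X_i` have weights `≥ c^(N-1)` in `Y_N`. The part of `Q` over this
set has exponentially small volume, if the codimension of `V` is small (Rogers-Shephard). So
`β ≥ exp(d / 10^N) / 2`. The greedy covering procedure (starting file `H815R2.HadCover`) gives the
bound. Small Rademacher averages follow from the condition on signed sums by submultiplicativity
(Giesy, James, Pisier); this condition passes to the dual norm.
-/

set_option autoImplicit false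

noncomputable section

namespace Pool.Agent.Results.MP_5e7226_co.LargeSections

open scoped InnerProductSpace

/-- the space `ℝ^d` -/
abbrev E (d : ℕ) : Type := EuclideanSpace ℝ (Fin d)

/-- `s(K, o) ≤ b`: there are at most `b` hyperplanes `{x | ⟪h.1, x⟫ = h.2}` such that for every `u ≠ 0`
the face of `K` in direction `u` (the set of the points of `K` at which `⟪u, ·⟫` takes its maximum
`⟪u, x₀⟫`) is strictly separated from `o` by one of them -/
def SepLE {d : ℕ} (K : Set (E d)) (o : E d) (b : ℝ) : Prop :=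
  ∃ H : Finset (E d × ℝ), (H.card : ℝ) ≤ b ∧ (∀ h ∈ H, h.1 ≠ 0) ∧
    ∀ u x₀ : E d, u ≠ 0 → x₀ ∈ K → (∀ y ∈ K, ⟪u, y⟫_ℝ ≤ ⟪u, x₀⟫_ℝ) →
      ∃ h ∈ H, ⟪h.1, o⟫_ℝ < h.2 ∧ ∀ x ∈ K, ⟪u, x⟫_ℝ = ⟪u, x₀⟫_ℝ → h.2 < ⟪h.1, x⟫_ℝ

/-- `o + B ⊂ K ∩ (o + V) ⊂ o + κ B`, where `B = {v ∈ V | p v ≤ 1}` -/
def SectionNear {d : ℕ} (κ : ℝ) (V : Submodule ℝ (E d)) (p : Seminorm ℝ (E d)) (o : E d)
    (K : Set (E d)) : Prop :=
  (∀ v ∈ V, p v ≤ 1 → o + v ∈ K) ∧ ∀ v ∈ V, o + v ∈ K → p v ≤ κ

/-- `p` is a Euclidean norm, `p v = ‖A v‖` with `A` linear and invertible; its unit ball is an ellipsoid -/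
def Euclidean {d : ℕ} (p : Seminorm ℝ (E d)) : Prop :=
  ∃ A : E d ≃ₗ[ℝ] E d, ∀ v, p v = ‖A v‖

/-- any `n` vectors `y_i` of `V` with `p(y_i) ≤ 1` have a signed sum with `p(∑ ± y_i) ≤ ρ` -/
def SignedSums {d : ℕ} (n : ℕ) (ρ : ℝ) (V : Submodule ℝ (E d)) (p : Seminorm ℝ (E d)) : Prop :=
  ∀ y : Fin n → E d, (∀ i, y i ∈ V ∧ p (y i) ≤ 1) →
    ∃ s : Fin n → ℝ, (∀ i, s i = 1 ∨ s i = -1) ∧ p (∑ i, s i • y i) ≤ ρ

/-- the codimension of `V` -/
def codim {d : ℕ} (V : Submodule ℝ (E d)) : ℝ :=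
  d - Module.finrank ℝ V

/-- the bound -/
def bound (d N : ℕ) : ℝ :=
  1 + 6 * 2 ^ d * Real.exp (-(d / 10 ^ N)) * (d * Real.log (2 * d ^ 2 + 2 * d + 1))

/-- `s(K, o) ≤ b` for all convex bodies `K` and interior points `o` such that the section of `K` by
`o + V` is at distance at most `κ` from an ellipsoid -/
def EllipsoidCase {d : ℕ} (κ : ℝ) (V : Submodule ℝ (E d)) (b : ℝ) : Prop :=
  ∀ p : Seminorm ℝ (E d), Euclidean p → ∀ (K : Set (E d)) (o : E d), Convex ℝ K →
    IsCompact K → o ∈ interior K → SectionNear κ V p o K → SepLE K o b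

/-- `s(K, o) ≤ b` for all convex bodies `K` and interior points `o` such that the section of `K` by
`o + V` is at distance at most `κ` from the unit ball of a seminorm on `V` such that any `n` vectors
of seminorm at most `1` have a signed sum of seminorm at most `ρ` -/
def SignedCase {d : ℕ} (n : ℕ) (ρ κ : ℝ) (V : Submodule ℝ (E d)) (b : ℝ) : Prop :=
  ∀ p : Seminorm ℝ (E d), SignedSums n ρ V p → ∀ (K : Set (E d)) (o : E d), Convex ℝ K →
    IsCompact K → o ∈ interior K → SectionNear κ V p o K → SepLE K o b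

open Pool.Agent.U330.COV

lemma signed_of {d n : ℕ} {V : Submodule ℝ (E d)} {ρ : ℝ} {p : Seminorm ℝ (E d)}
    (h : SignedSums n ρ V p) : Signed (Fin n) ρ (p.comp V.subtype) := by
  classical
  intro y hy
  obtain ⟨s, hs, h1⟩ := h (fun i => (y i : E d)) (fun i => ⟨(y i).2, hy i⟩)
  refine ⟨fun i => decide (s i = 1), ?_⟩
  have e : ∀ i, sg (decide (s i = 1)) = s i := by
    intro i
    rcases hs i with h2 | h2
    · simp [sg, h2]
    · have : ¬ s i = 1 := by rw [h2]; norm_num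
      simp [sg, h2]
      norm_num
  simp_rw [e]
  have e2 : (p.comp V.subtype) (∑ i, s i • y i) = p (∑ i, s i • (y i : E d)) := by
    rw [Seminorm.comp_apply, map_sum]
    simp
  rw [e2]
  exact h1

/-- the restriction of an ellipsoidal norm to a subspace -/
lemma restrict {d : ℕ} (A : E d ≃ₗ[ℝ] E d) (V : Submodule ℝ (E d)) :
    ∃ A' : V ≃ₗ[ℝ] V, ∀ v : V, ‖A' v‖ = ‖A v‖ := by
  have h : Module.finrank ℝ (V.map (A : E d →ₗ[ℝ] E d)) = Module.finrank ℝ V :=
    (A.submoduleMap V).finrank_eq.symm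
  have g := (stdOrthonormalBasis ℝ (V.map (A : E d →ₗ[ℝ] E d))).equiv (stdOrthonormalBasis ℝ V)
    (finCongr h)
  refine ⟨(A.submoduleMap V).trans g.toLinearEquiv, fun v => ?_⟩
  rw [LinearEquiv.trans_apply]
  have : ‖g.toLinearEquiv (A.submoduleMap V v)‖ = ‖A.submoduleMap V v‖ := g.norm_map _
  rw [this]
  rfl

lemma nat_lt {d k : ℕ} {b : ℝ} (h : (k : ℝ) ≤ b) (hb : b < 2 ^ d) : (k : ℝ) ≤ 2 ^ d - 1 := by
  have h1 : (k : ℝ) < ((2 ^ d : ℕ) : ℝ) := by push_cast; linarith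
  have h2 : k + 1 ≤ 2 ^ d := by exact_mod_cast h1
  have h3 : ((k + 1 : ℕ) : ℝ) ≤ ((2 ^ d : ℕ) : ℝ) := by exact_mod_cast h2
  push_cast at h3
  linarith

lemma cod {d N : ℕ} {V : Submodule ℝ (E d)} (h : codim V ≤ d / 10 ^ N) :
    ((d : ℝ) - Module.finrank ℝ V) * 10 ^ N ≤ d := by
  rwa [le_div_iff₀ (by positivity), codim] at h

/-- the case of ellipsoids -/
lemma ell {d N : ℕ} {κ : ℝ} (hd : 2 ≤ d) (hN : 2 ≤ N) (hκ : 0 < κ) (hNκ : 64 * κ ^ 2 ≤ N)
    (V : Submodule ℝ (E d)) (hV : codim V ≤ d / 10 ^ N) : EllipsoidCase κ V (bnd10 d N) := by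
  intro p₀ hp₀ K o hc hK ho h
  obtain ⟨A₀, hA₀⟩ := hp₀
  obtain ⟨A, hA⟩ := restrict A₀ V
  obtain ⟨p, q, hp, hq, -, hR⟩ := ell_dual A hκ hNκ
  exact sep_section hd hc hK ho V hκ hq
    (fun v hv => h.1 v v.2 (by rw [hA₀, ← hA, ← hp]; exact hv))
    (fun v hv => by rw [hp, hA, ← hA₀]; exact h.2 v v.2 hv) hN hR (cod hV)

/-- the case of the B-convex norms -/
lemma bconv {n : ℕ} {ρ κ : ℝ} (hn : 2 ≤ n) (hρ : ρ < n) (hκ : 0 < κ) : ∃ N : ℕ,
    ∀ d : ℕ, 2 ≤ d → ∀ V : Submodule ℝ (E d), codim V ≤ d / 10 ^ N →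
      SignedCase n ρ κ V (bnd10 d N) := by
  have h2n : (2 : ℕ) ≤ 2 ^ n := by
    calc 2 = 2 ^ 1 := by norm_num
      _ ≤ 2 ^ n := Nat.pow_le_pow_right (by norm_num) (by omega)
  have hn0 : (0 : ℝ) < n := by exact_mod_cast (by omega : 0 < n)
  obtain ⟨N, h2, hN⟩ := exists_N (ι := Fin n → Bool) (ρ := 2 ^ n - (1 - ρ / n)) (κ := κ)
    (by simpa using h2n) (by
      have : ρ / n < 1 := by rw [div_lt_one hn0]; exact hρ
      simp only [Fintype.card_pi, Fintype.card_bool, Finset.prod_const, Finset.card_univ,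
        Fintype.card_fin]
      push_cast
      linarith) hκ
  refine ⟨N, fun d hd V hV p hp K o hc hK ho hnear => ?_⟩
  have hs := signed_of hp
  have hn1 : ∀ v : V, (p.comp V.subtype) v ≤ 1 → o + (v : E d) ∈ K :=
    fun v hv => hnear.1 v v.2 hv
  have hn2 : ∀ v : V, o + (v : E d) ∈ K → (p.comp V.subtype) v ≤ κ :=
    fun v hv => hnear.2 v v.2 hv
  obtain ⟨R, hR⟩ := ball_bdd' hK.isBounded hκ hn1
  obtain ⟨q, hq⟩ := exists_dual hR
  have hqs := dual_signed hκ (by simpa using hρ) hq hs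
  rw [Fintype.card_fin] at hqs
  exact sep_section hd hc hK ho V hκ hq hn1 hn2 h2 (hN V q hqs) (cod hV)

/-- **Convex bodies with a large central section near an ellipsoid or a B-convex unit ball.** -/
theorem result :
    -- 1. sections near ellipsoids, explicit bound
    (∀ (d N : ℕ) (κ : ℝ), 2 ≤ d → 2 ≤ N → 0 < κ → 64 * κ ^ 2 ≤ N → ∀ V : Submodule ℝ (E d),
      codim V ≤ d / 10 ^ N → EllipsoidCase κ V (bound d N)) ∧
    (∀ d N : ℕ, 3 ≤ d → 7 * (d * Real.log (2 * d ^ 2 + 2 * d + 1)) ≤ Real.exp (d / 10 ^ N) →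
      bound d N < 2 ^ d) ∧
    -- 2. sections near the unit balls of norms with small signed sums
    (∀ (n : ℕ) (ρ κ : ℝ), 2 ≤ n → ρ < n → 0 < κ → ∃ N : ℕ, ∀ d : ℕ, 2 ≤ d →
      ∀ V : Submodule ℝ (E d), codim V ≤ d / 10 ^ N → SignedCase n ρ κ V (bound d N)) ∧
    -- 3. the strict inequality in all large dimensions
    (∀ κ : ℝ, 0 < κ → ∃ (ε : ℝ) (d₀ : ℕ), 0 < ε ∧ ∀ d : ℕ, d₀ ≤ d → ∀ V : Submodule ℝ (E d),
      codim V ≤ ε * d → EllipsoidCase κ V (2 ^ d - 1)) ∧
    (∀ (n : ℕ) (ρ κ : ℝ), 2 ≤ n → ρ < n → 0 < κ → ∃ (ε : ℝ) (d₀ : ℕ), 0 < ε ∧ ∀ d : ℕ, d₀ ≤ d →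
      ∀ V : Submodule ℝ (E d), codim V ≤ ε * d → SignedCase n ρ κ V (2 ^ d - 1)) := by
  have conc : ∀ {d N : ℕ} {K : Set (E d)} {o : E d}, bnd10 d N < 2 ^ d →
      SepLE K o (bnd10 d N) → SepLE K o (2 ^ d - 1) := by
    rintro d N K o hlt ⟨H, h3, h4⟩
    exact ⟨H, nat_lt h3 hlt, h4⟩
  have hcod : ∀ {d N : ℕ} {k : ℝ}, k ≤ 1 / 10 ^ N * d → k ≤ d / 10 ^ N := by
    intro d N k h
    have e : 1 / 10 ^ N * (d : ℝ) = d / 10 ^ N := by ring
    rwa [e] at h
  refine ⟨fun d N κ hd hN hκ hNκ V hV => ell hd hN hκ hNκ V hV,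
    fun d N hd h => bnd10_lt hd h, fun n ρ κ hn hρ hκ => bconv hn hρ hκ, fun κ hκ => ?_,
    fun n ρ κ hn hρ hκ => ?_⟩
  · obtain ⟨N, hN⟩ : ∃ N : ℕ, 64 * κ ^ 2 + 2 ≤ N := exists_nat_ge _
    have hN2 : 2 ≤ N := by
      have : (2 : ℝ) ≤ N := by nlinarith [sq_nonneg κ]
      exact_mod_cast this
    obtain ⟨d₀, hd₀⟩ := large10 N
    refine ⟨1 / 10 ^ N, d₀, by positivity, fun d hd V hV p hp K o hc hK ho h => ?_⟩
    obtain ⟨h3, h7⟩ := hd₀ d hd
    exact conc (bnd10_lt h3 h7) (ell (by omega) hN2 hκ (by linarith) V (hcod hV) p hp K o hc hK ho h)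
  · obtain ⟨N, hN⟩ := bconv hn hρ hκ
    obtain ⟨d₀, hd₀⟩ := large10 N
    refine ⟨1 / 10 ^ N, d₀, by positivity, fun d hd V hV p hp K o hc hK ho h => ?_⟩
    obtain ⟨h3, h7⟩ := hd₀ d hd
    exact conc (bnd10_lt h3 h7) (hN d (by omega) V (hcod hV) p hp K o hc hK ho h)

end Pool.Agent.Results.MP_5e7226_co.LargeSections

end
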