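import Mathlib

/-!
# MP_5e7226_co: the unit balls of spaces of multilinear forms (injective tensor products)

Let `X_1, …, X_k` (`k ≥ 1`) be arbitrary finite-dimensional real normed spaces, `m_i = dim X_i`, and
`K` the unit ball of the space of the `k`-linear forms on `X_1 × … × X_k` with the usual norm
`‖T‖ = sup {|T(x)| : ‖x_i‖ ≤ 1}`, that is the unit ball of the injective tensor product of the dual
spaces; its polar is the unit ball of the projective tensor product of the `X_i`. The dimension of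
`K` is `d = ∏ m_i`.

1. For all positive `r_i` with `∑ r_i ≤ 1` there are `c > 0` and a set `A` of at most
   `2^(1-k) ∏ ((2/r_i + 1)^(m_i) - (2/r_i - 1)^(m_i))` tuples such that each convex subset of the
   boundary of `K`, in particular each face of `K`, is strictly separated from `0` by one of the
   hyperplanes `{T : T(a) = c}`, `a ∈ A`. So `s(K, 0)` grows at most exponentially in `∑ m_i`, while
   `d = ∏ m_i`.
2. If `X_i = ℓ_∞^(m_i)` for all `i`, then `s(K, 0) = 2^(m_1 + … + m_k - k + 1)`. So the form of the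
   bound in 1 is optimal up to the bases `(2/r_i + 1)`.
3. `s(K, 0) < 2^d`, that is the assertion of the problem, for all `k ≥ 2` and all normed spaces `X_i`
   of dimensions `m_i ≥ 2`, apart from finitely many tuples of dimensions: always if `k ≥ 5`; if
   `k = 4` and `∑ m_i ≥ 10`; if `k = 3` and `∑ m_i ≥ 12` or all `m_i ≥ 3`; if `k = 2` and
   `m_1 ≥ 4, m_2 ≥ 5` or `m_1 ≥ 3, m_2 ≥ 9` or `m_2 ≥ 17` (in some order).

The proof. All forms in a convex subset of the boundary attain the value `1` at a common tuple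
`(x_i)` of unit vectors: this is clear for finitely many forms (consider their mean) and follows in
general by compactness. A maximal `r_i`-separated system `±p` in the unit sphere of `X_i` has, by
volume, at most `(2/r_i + 1)^(m_i) - (2/r_i - 1)^(m_i)` elements. Replace the `x_i` by close elements
of these systems; a form `T` of norm one changes by less than `∑ r_i ≤ 1`. The signs can be collected
in one factor. For `ℓ_∞` the common tuple can be moved to sign vectors; two different tensors of sign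
vectors differ in a coordinate, whose form is, with opposite signs, in the two corresponding faces,
so that no hyperplane separates both from `0`.
-/

open Metric Module MeasureTheory Set
open scoped ENNReal


namespace Pool.Agent.Results.MP_5e7226_co.MultilinearForms

/-- Volume bound for separated subsets of the unit sphere. -/
theorem card_bound {E : Type} [NormedAddCommGroup E] [NormedSpace ℝ E] [FiniteDimensional ℝ E]
    {r : ℝ} (hr : 0 < r) (hr1 : r ≤ 1) (s : Finset E) (hs : ∀ c ∈ s, ‖c‖ = 1)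
    (h : ∀ c ∈ s, ∀ d ∈ s, c ≠ d → r ≤ ‖c - d‖) :
    (s.card : ℝ) ≤ (2 / r + 1) ^ finrank ℝ E - (2 / r - 1) ^ finrank ℝ E := by
  classical
  borelize E
  let μ : Measure E := Measure.addHaar
  have h0 : (0 : E) ∉ s := by
    intro h0
    have := hs 0 h0
    simp at this
  let ρ : E → ℝ := fun c => if c = 0 then 1 - r / 2 else r / 2
  have hρ : ∀ c, 0 < ρ c := by
    intro c
    simp only [ρ]
    split_ifs <;> linarith
  have hne : ∀ c ∈ s, c ≠ 0 := fun c hc h => h0 (h ▸ hc)
  have D : Set.Pairwise ((insert 0 s : Finset E) : Set E)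
      (Function.onFun Disjoint fun c => ball (c : E) (ρ c)) := by
    rintro c hc d hd hcd
    apply ball_disjoint_ball
    rw [dist_eq_norm]
    simp only [Finset.coe_insert, Set.mem_insert_iff, Finset.mem_coe] at hc hd
    rcases hc with hc | hc <;> rcases hd with hd | hd
    · exact absurd (hc.trans hd.symm) hcd
    · subst hc
      simp only [ρ, if_neg (hne d hd), if_true, zero_sub, norm_neg, hs d hd]
      linarith
    · subst hd
      simp only [ρ, if_neg (hne c hc), if_true, sub_zero, hs c hc]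
      linarith
    · simp only [ρ, if_neg (hne c hc), if_neg (hne d hd)]
      linarith [h c hc d hd hcd]
  set A := ⋃ c ∈ (insert 0 s : Finset E), ball (c : E) (ρ c) with hA
  have A_subset : A ⊆ ball (0 : E) (1 + r / 2) := by
    refine iUnion₂_subset fun x hx => ?_
    apply ball_subset_ball'
    rw [dist_zero_right]
    rcases Finset.mem_insert.1 hx with hx | hx
    · subst hx
      simp only [ρ, if_true, norm_zero]
      linarith
    · simp only [ρ, if_neg (hne x hx), hs x hx]
      linarith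
  have hμ : μ A = ENNReal.ofReal ((1 - r / 2) ^ finrank ℝ E + s.card * (r / 2) ^ finrank ℝ E)
      * μ (ball 0 1) := by
    rw [hA, measure_biUnion_finset D fun c _ => measurableSet_ball]
    have : ∀ c : E, μ (ball c (ρ c)) = ENNReal.ofReal (ρ c ^ finrank ℝ E) * μ (ball 0 1) :=
      fun c => μ.addHaar_ball_of_pos _ (hρ c)
    simp only [this]
    rw [← Finset.sum_mul, ← ENNReal.ofReal_sum_of_nonneg (fun c _ => (pow_pos (hρ c) _).le),
      Finset.sum_insert h0]
    congr 2
    have e : ∀ c ∈ s, ρ c ^ finrank ℝ E = (r / 2) ^ finrank ℝ E := by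
      intro c hc
      simp only [ρ, if_neg (hne c hc)]
    rw [Finset.sum_congr rfl e, Finset.sum_const, nsmul_eq_mul]
    simp [ρ]
  have hle : μ A ≤ ENNReal.ofReal ((1 + r / 2) ^ finrank ℝ E) * μ (ball 0 1) := by
    calc μ A ≤ μ (ball (0 : E) (1 + r / 2)) := measure_mono A_subset
      _ = _ := μ.addHaar_ball_of_pos _ (by linarith)
  rw [hμ] at hle
  have J := (ENNReal.mul_le_mul_iff_left (measure_ball_pos _ _ zero_lt_one).ne'
    measure_ball_lt_top.ne).1 hle
  have K := (ENNReal.ofReal_le_ofReal_iff (by positivity)).1 J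
  have hr2 : (0 : ℝ) < (r / 2) ^ finrank ℝ E := by positivity
  have e1 : (2 / r + 1) ^ finrank ℝ E * (r / 2) ^ finrank ℝ E = (1 + r / 2) ^ finrank ℝ E := by
    rw [← mul_pow]
    congr 1
    field_simp
  have e2 : (2 / r - 1) ^ finrank ℝ E * (r / 2) ^ finrank ℝ E = (1 - r / 2) ^ finrank ℝ E := by
    rw [← mul_pow]
    congr 1
    field_simp
  refine le_of_mul_le_mul_right ?_ hr2
  rw [sub_mul, e1, e2]
  linarith

/-- A net of the unit sphere given by few points and their negatives. -/
theorem exists_net (E : Type) [NormedAddCommGroup E] [NormedSpace ℝ E] [FiniteDimensional ℝ E]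
    {r : ℝ} (hr : 0 < r) (hr1 : r ≤ 1) :
    ∃ P : Finset E, (∀ p ∈ P, ‖p‖ = 1) ∧
      2 * (P.card : ℝ) ≤ (2 / r + 1) ^ finrank ℝ E - (2 / r - 1) ^ finrank ℝ E ∧
      ∃ ρ < r, ∀ x : E, ‖x‖ = 1 → ∃ p ∈ P, ‖x - p‖ ≤ ρ ∨ ‖x + p‖ ≤ ρ := by
  classical
  set B : ℝ := (2 / r + 1) ^ finrank ℝ E - (2 / r - 1) ^ finrank ℝ E with hB
  let good : Finset E → Prop := fun P => (∀ p ∈ P, ‖p‖ = 1) ∧
    ∀ p ∈ P, ∀ q ∈ P, p ≠ q → r ≤ ‖p - q‖ ∧ r ≤ ‖p + q‖
  have hcard : ∀ P, good P → 2 * (P.card : ℝ) ≤ B := by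
    intro P hP
    have hneg : ∀ p ∈ P, -p ∉ P := by
      intro p hp hnp
      have h1 := hP.1 p hp
      have hne : p ≠ -p := by
        intro h
        have h3 : p + p = 0 := by
          nth_rewrite 2 [h]
          simp
        have h4 : ‖(2 : ℝ) • p‖ = 2 := by
          rw [norm_smul, h1]
          norm_num
        rw [two_smul, h3, norm_zero] at h4
        norm_num at h4
      have := (hP.2 p hp (-p) hnp hne).2
      simp at this
      linarith
    have hdisj : Disjoint P (P.map (Equiv.neg E).toEmbedding) := by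
      rw [Finset.disjoint_left]
      intro p hp hp'
      simp only [Finset.mem_map_equiv, Equiv.neg_symm, Equiv.neg_apply] at hp'
      exact hneg p hp hp'
    have := card_bound hr hr1 (P ∪ P.map (Equiv.neg E).toEmbedding) ?_ ?_
    · rw [Finset.card_union_of_disjoint hdisj, Finset.card_map] at this
      push_cast at this
      linarith
    · intro c hc
      rcases Finset.mem_union.1 hc with hc | hc
      · exact hP.1 c hc
      · simp only [Finset.mem_map_equiv, Equiv.neg_symm, Equiv.neg_apply] at hc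
        rw [← norm_neg]
        exact hP.1 _ hc
    · intro c hc d hd hcd
      rcases Finset.mem_union.1 hc with hc | hc <;> rcases Finset.mem_union.1 hd with hd | hd
      · exact (hP.2 c hc d hd hcd).1
      · simp only [Finset.mem_map_equiv, Equiv.neg_symm, Equiv.neg_apply] at hd
        by_cases h : c = -d
        · rw [h]
          have h2 : ‖-d - d‖ = 2 := by
            rw [show -d - d = (2 : ℝ) • (-d) by rw [two_smul]; abel, norm_smul, hP.1 _ hd]
            norm_num
          rw [h2]
          linarith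
        · have := (hP.2 c hc (-d) hd h).2
          rwa [← sub_eq_add_neg] at this
      · simp only [Finset.mem_map_equiv, Equiv.neg_symm, Equiv.neg_apply] at hc
        by_cases h : -c = d
        · rw [← h]
          have h2 : ‖c - -c‖ = 2 := by
            rw [show c - -c = -((2 : ℝ) • (-c)) by rw [two_smul]; abel, norm_neg, norm_smul,
              hP.1 _ hc]
            norm_num
          rw [h2]
          linarith
        · have := (hP.2 (-c) hc d hd h).2
          rw [show c - d = -(-c + d) by abel, norm_neg]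
          exact this
      · simp only [Finset.mem_map_equiv, Equiv.neg_symm, Equiv.neg_apply] at hc hd
        have := (hP.2 (-c) hc (-d) hd (by simpa using hcd)).1
        rw [show c - d = -(-c - -d) by abel, norm_neg]
        exact this
  obtain ⟨P, hP, hmax⟩ : ∃ P, good P ∧ ∀ Q, good Q → Q.card ≤ P.card := by
    let S : Set ℕ := {n | ∃ P, good P ∧ P.card = n}
    have hne : S.Nonempty := ⟨0, ∅, by simp [good], rfl⟩
    have hbd : BddAbove S := by
      refine ⟨⌊B⌋₊, ?_⟩
      rintro n ⟨P, hP, rfl⟩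
      apply Nat.le_floor
      have := hcard P hP
      have h0 : (0 : ℝ) ≤ P.card := Nat.cast_nonneg _
      linarith
    obtain ⟨P, hP, hPc⟩ := Nat.sSup_mem hne hbd
    exact ⟨P, hP, fun Q hQ => hPc ▸ le_csSup hbd ⟨Q, hQ, rfl⟩⟩
  refine ⟨P, hP.1, hcard P hP, ?_⟩
  have hcov : ∀ x : E, ‖x‖ = 1 → ∃ p ∈ P, ‖x - p‖ < r ∨ ‖x + p‖ < r := by
    intro x hx
    by_contra! hcon
    have hxP : x ∉ P := by
      intro hxP
      have := (hcon x hxP).1
      simp at this
      linarith
    have hQ : good (insert x P) := by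
      refine ⟨?_, ?_⟩
      · intro p hp
        rcases Finset.mem_insert.1 hp with rfl | hp
        · exact hx
        · exact hP.1 p hp
      · intro p hp q hq hpq
        rcases Finset.mem_insert.1 hp with rfl | hp <;> rcases Finset.mem_insert.1 hq with rfl | hq
        · exact absurd rfl hpq
        · exact hcon q hq
        · have h5 := hcon p (by assumption)
          rw [norm_sub_rev p q, add_comm p q]
          exact h5
        · exact hP.2 p hp q hq hpq
    have := hmax _ hQ
    rw [Finset.card_insert_of_notMem hxP] at this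
    omega
  -- compactness
  by_cases hS : (sphere (0 : E) 1).Nonempty
  · have hPne : P.Nonempty := by
      obtain ⟨x, hx⟩ := hS
      obtain ⟨p, hp, -⟩ := hcov x (by simpa using hx)
      exact ⟨p, hp⟩
    let g : E → ℝ := fun x => P.inf' hPne fun p => min ‖x - p‖ ‖x + p‖
    have hg : Continuous g := by
      refine Continuous.finset_inf'_apply hPne fun p _ => ?_
      fun_prop
    obtain ⟨x0, hx0, hmax0⟩ := (isCompact_sphere (0 : E) 1).exists_isMaxOn hS hg.continuousOn
    refine ⟨g x0, ?_, ?_⟩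
    · obtain ⟨p, hp, hp2⟩ := hcov x0 (by simpa using hx0)
      refine (Finset.inf'_le _ hp).trans_lt ?_
      exact min_lt_iff.2 hp2
    · intro x hx
      have h1 : g x ≤ g x0 := hmax0 (by simpa using hx)
      obtain ⟨p, hp, hp2⟩ := Finset.exists_mem_eq_inf' hPne (fun p => min ‖x - p‖ ‖x + p‖)
      refine ⟨p, hp, ?_⟩
      have h2 : min ‖x - p‖ ‖x + p‖ ≤ g x0 := by rw [← hp2]; exact h1
      exact min_le_iff.1 h2
  · refine ⟨0, hr, fun x hx => ?_⟩
    exact absurd ⟨x, by simpa using hx⟩ hS


variable {ι : Type} [Fintype ι] {X : ι → Type} [∀ i, NormedAddCommGroup (X i)]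
  [∀ i, NormedSpace ℝ (X i)]

theorem apply_le_one (T : ContinuousMultilinearMap ℝ X ℝ) (hT : ‖T‖ ≤ 1) (a : ∀ i, X i)
    (ha : ∀ i, ‖a i‖ ≤ 1) : |T a| ≤ 1 := by
  have h1 := T.le_opNorm a
  have h2 : ∏ i, ‖a i‖ ≤ 1 := Finset.prod_le_one (fun i _ => norm_nonneg _) fun i _ => ha i
  have h3 : (0 : ℝ) ≤ ∏ i, ‖a i‖ := Finset.prod_nonneg fun i _ => norm_nonneg _
  calc |T a| = ‖T a‖ := rfl
    _ ≤ ‖T‖ * ∏ i, ‖a i‖ := h1
    _ ≤ 1 * 1 := mul_le_mul hT h2 h3 zero_le_one
    _ = 1 := one_mul 1

theorem norm_eq_one_of (T : ContinuousMultilinearMap ℝ X ℝ) (hT : ‖T‖ ≤ 1) (a : ∀ i, X i)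
    (ha : ∀ i, ‖a i‖ ≤ 1) (h : T a = 1) (i : ι) : ‖a i‖ = 1 := by
  classical
  refine le_antisymm (ha i) ?_
  by_contra! hlt
  have h1 := T.le_opNorm a
  have h2 : ∏ i, ‖a i‖ < 1 := by
    rw [← Finset.mul_prod_erase _ _ (Finset.mem_univ i)]
    have : ∏ j ∈ Finset.univ.erase i, ‖a j‖ ≤ 1 :=
      Finset.prod_le_one (fun i _ => norm_nonneg _) fun i _ => ha i
    have h0 : (0 : ℝ) ≤ ∏ j ∈ Finset.univ.erase i, ‖a j‖ :=
      Finset.prod_nonneg fun i _ => norm_nonneg _
    nlinarith [norm_nonneg (a i)]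
  have h3 : (0 : ℝ) ≤ ∏ i, ‖a i‖ := Finset.prod_nonneg fun i _ => norm_nonneg _
  rw [h] at h1
  simp only [norm_one] at h1
  nlinarith [norm_nonneg T]

/-- a form of norm one attains the value one on the product of the unit balls -/
theorem exists_eq_one [Nonempty ι] [∀ i, FiniteDimensional ℝ (X i)]
    (T : ContinuousMultilinearMap ℝ X ℝ) (hT : ‖T‖ = 1) :
    ∃ a : ∀ i, X i, (∀ i, ‖a i‖ ≤ 1) ∧ T a = 1 := by
  classical
  have hK : IsCompact (Set.pi Set.univ fun i => closedBall (0 : X i) 1) :=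
    isCompact_univ_pi fun i => isCompact_closedBall _ _
  have hne : (Set.pi Set.univ fun i => closedBall (0 : X i) 1).Nonempty :=
    ⟨0, fun i _ => by simp⟩
  obtain ⟨a, ha, hmax⟩ := hK.exists_isMaxOn hne (f := fun a => |T a|)
    (T.cont.abs.continuousOn)
  have ha' : ∀ i, ‖a i‖ ≤ 1 := fun i => by simpa using ha i (Set.mem_univ i)
  have h1 : 1 ≤ |T a| := by
    rw [← hT]
    refine T.opNorm_le_bound (abs_nonneg _) fun m => ?_
    by_cases hm : ∃ i, m i = 0
    · obtain ⟨i, hi⟩ := hm
      rw [T.map_coord_zero i hi, norm_zero]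
      exact mul_nonneg (abs_nonneg _) (Finset.prod_nonneg fun i _ => norm_nonneg _)
    · push Not at hm
      have hn : ∀ i, ‖m i‖ ≠ 0 := fun i => norm_ne_zero_iff.2 (hm i)
      have e : m = fun i => ‖m i‖ • (‖m i‖⁻¹ • m i) := by
        funext i
        rw [smul_smul, mul_inv_cancel₀ (hn i), one_smul]
      have hu : (fun i => ‖m i‖⁻¹ • m i) ∈ Set.pi Set.univ fun i => closedBall (0 : X i) 1 := by
        intro i _
        simp only [mem_closedBall, dist_zero_right, norm_smul, norm_inv, norm_norm]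
        rw [inv_mul_cancel₀ (hn i)]
      have h2 := hmax hu
      simp only [Set.mem_ofPred_eq] at h2
      have h3 : T m = (∏ i, ‖m i‖) • T (fun i => ‖m i‖⁻¹ • m i) := by
        conv_lhs => rw [e]
        exact T.map_smul_univ (fun i => ‖m i‖) (fun i => ‖m i‖⁻¹ • m i)
      rw [h3, norm_smul, Real.norm_of_nonneg (Finset.prod_nonneg fun i _ => norm_nonneg _),
        mul_comm]
      exact mul_le_mul_of_nonneg_right h2 (Finset.prod_nonneg fun i _ => norm_nonneg _)
  have h2 := apply_le_one T hT.le a ha'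
  have h3 : |T a| = 1 := le_antisymm h2 h1
  rcases eq_or_eq_neg_of_abs_eq h3 with h4 | h4
  · exact ⟨a, ha', h4⟩
  · obtain ⟨i⟩ := ‹Nonempty ι›
    refine ⟨Function.update a i (-a i), ?_, ?_⟩
    · intro j
      by_cases hj : j = i
      · subst hj
        simpa using ha' j
      · rw [Function.update_of_ne hj]
        exact ha' j
    · have h5 := T.toMultilinearMap.map_update_neg a i (a i)
      rw [Function.update_eq_self] at h5
      have h6 : T (Function.update a i (-a i)) = -T a := h5
      rw [h6, h4, neg_neg]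

/-- all forms of a convex subset of the unit sphere attain the value one at a common tuple -/
theorem exists_norming [Nonempty ι] [∀ i, FiniteDimensional ℝ (X i)]
    (F : Set (ContinuousMultilinearMap ℝ X ℝ)) (hF : Convex ℝ F) (hs : F ⊆ sphere 0 1) :
    ∃ a : ∀ i, X i, (∀ i, ‖a i‖ ≤ 1) ∧ ∀ T ∈ F, T a = 1 := by
  classical
  have hK : IsCompact (Set.pi Set.univ fun i => closedBall (0 : X i) 1) :=
    isCompact_univ_pi fun i => isCompact_closedBall _ _
  have hn : ∀ T ∈ F, ‖T‖ = 1 := fun T hT => by simpa using hs hT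
  have := hK.inter_iInter_nonempty (fun T : F => {a | (T : ContinuousMultilinearMap ℝ X ℝ) a = 1})
    (fun T => isClosed_eq T.1.cont continuous_const) ?_
  · obtain ⟨a, ha, ha2⟩ := this
    refine ⟨a, fun i => by simpa using ha i (Set.mem_univ i), fun T hT => ?_⟩
    exact Set.mem_iInter.1 ha2 ⟨T, hT⟩
  · intro u
    rcases u.eq_empty_or_nonempty with rfl | hu
    · exact ⟨0, by simp⟩
    · have hc : (0 : ℝ) < u.card := by exact_mod_cast hu.card_pos
      set S : ContinuousMultilinearMap ℝ X ℝ :=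
        ∑ T ∈ u, ((u.card : ℝ)⁻¹) • (T : ContinuousMultilinearMap ℝ X ℝ) with hS
      have hSF : S ∈ F := by
        refine hF.sum_mem (fun _ _ => by positivity) ?_ (fun T _ => T.2)
        rw [Finset.sum_const, nsmul_eq_mul, mul_inv_cancel₀ hc.ne']
      obtain ⟨a, ha, ha2⟩ := exists_eq_one S (hn S hSF)
      refine ⟨a, fun i _ => by simpa using ha i, ?_⟩
      have hle : ∀ T ∈ u, (T : ContinuousMultilinearMap ℝ X ℝ) a ≤ 1 := fun T _ =>
        (le_abs_self _).trans (apply_le_one T.1 (hn T.1 T.2).le a ha)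
      have hsum : ∑ T ∈ u, (T : ContinuousMultilinearMap ℝ X ℝ) a = ∑ T ∈ u, (1 : ℝ) := by
        rw [hS, sum_apply] at ha2
        simp only [smul_apply, smul_eq_mul] at ha2
        rw [← Finset.mul_sum] at ha2
        rw [Finset.sum_const, nsmul_eq_mul, mul_one]
        field_simp at ha2
        exact ha2
      have h := (Finset.sum_eq_sum_iff_of_le hle).1 hsum
      simp only [Set.mem_iInter]
      exact fun T hT => h T hT

/-- Lipschitz estimate on the product of the unit balls -/
theorem lipschitz (T : ContinuousMultilinearMap ℝ X ℝ) (hT : ‖T‖ ≤ 1) (a b : ∀ i, X i)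
    (ha : ∀ i, ‖a i‖ ≤ 1) (hb : ∀ i, ‖b i‖ ≤ 1) : |T a - T b| ≤ ∑ i, ‖a i - b i‖ := by
  classical
  have h1 := T.norm_image_sub_le' a b
  have h2 : ∀ i, (∏ j, if j = i then ‖a i - b i‖ else max ‖a j‖ ‖b j‖) ≤ ‖a i - b i‖ := by
    intro i
    rw [← Finset.mul_prod_erase _ _ (Finset.mem_univ i), if_pos rfl]
    have : ∏ j ∈ Finset.univ.erase i, (if j = i then ‖a i - b i‖ else max ‖a j‖ ‖b j‖) ≤ 1 := by
      refine Finset.prod_le_one ?_ ?_
      · intro j _
        split_ifs
        · exact norm_nonneg _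
        · exact le_max_of_le_left (norm_nonneg _)
      · intro j hj
        rw [if_neg (Finset.ne_of_mem_erase hj)]
        exact max_le (ha j) (hb j)
    exact mul_le_of_le_one_right (norm_nonneg _) this
  have h3 : (0 : ℝ) ≤ ∑ i, ‖a i - b i‖ := Finset.sum_nonneg fun i _ => norm_nonneg _
  calc |T a - T b| = ‖T a - T b‖ := rfl
    _ ≤ ‖T‖ * ∑ i, ∏ j, if j = i then ‖a i - b i‖ else max ‖a j‖ ‖b j‖ := h1
    _ ≤ ‖T‖ * ∑ i, ‖a i - b i‖ :=
      mul_le_mul_of_nonneg_left (Finset.sum_le_sum fun i _ => h2 i) (norm_nonneg _)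
    _ ≤ 1 * ∑ i, ‖a i - b i‖ := mul_le_mul_of_nonneg_right hT h3
    _ = _ := one_mul _


/-- upper bound -/
theorem upper [Nonempty ι] [∀ i, FiniteDimensional ℝ (X i)] (r : ι → ℝ) (hr : ∀ i, 0 < r i)
    (hsum : ∑ i, r i ≤ 1) :
    ∃ (A : Finset (∀ i, X i)) (c : ℝ), 0 < c ∧
      2 ^ (Fintype.card ι - 1) * (A.card : ℝ) ≤
        ∏ i, ((2 / r i + 1) ^ finrank ℝ (X i) - (2 / r i - 1) ^ finrank ℝ (X i)) ∧
      ∀ F : Set (ContinuousMultilinearMap ℝ X ℝ), Convex ℝ F → F.Nonempty → F ⊆ sphere 0 1 →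
        ∃ a ∈ A, ∀ T ∈ F, c < T a := by
  classical
  have hr1 : ∀ i, r i ≤ 1 := fun i =>
    (Finset.single_le_sum (fun j _ => (hr j).le) (Finset.mem_univ i)).trans hsum
  choose P hP1 hP2 ρ hρ hP3 using fun i => exists_net (X i) (hr i) (hr1 i)
  obtain ⟨i0⟩ := ‹Nonempty ι›
  let N : ∀ i, Finset (X i) := fun i =>
    if i = i0 then P i ∪ (P i).map (Equiv.neg (X i)).toEmbedding else P i
  have hcpos : 0 < (1 - ∑ i, ρ i) / 2 := by
    have : ∑ i, ρ i < ∑ i, r i :=
      Finset.sum_lt_sum_of_nonempty ⟨i0, Finset.mem_univ _⟩ fun i _ => hρ i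
    linarith
  refine ⟨Fintype.piFinset N, (1 - ∑ i, ρ i) / 2, hcpos, ?_, ?_⟩
  · rw [Fintype.card_piFinset]
    have h1 : ((N i0).card : ℝ) ≤ 2 * ((P i0).card : ℝ) := by
      have : (N i0).card ≤ (P i0).card + (P i0).card := by
        simp only [N, if_true]
        refine (Finset.card_union_le _ _).trans ?_
        rw [Finset.card_map]
      have h2 : ((N i0).card : ℝ) ≤ ((P i0).card : ℝ) + ((P i0).card : ℝ) := by exact_mod_cast this
      linarith
    have h2 : (2 : ℝ) ^ (Fintype.card ι - 1) = ∏ _i ∈ Finset.univ.erase i0, (2 : ℝ) := by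
      rw [Finset.prod_const, Finset.card_erase_of_mem (Finset.mem_univ _), Finset.card_univ]
    push_cast
    rw [h2, ← Finset.mul_prod_erase _ (fun i => ((N i).card : ℝ)) (Finset.mem_univ i0),
      ← Finset.mul_prod_erase _ (fun i => ((2 / r i + 1) ^ finrank ℝ (X i)
        - (2 / r i - 1) ^ finrank ℝ (X i))) (Finset.mem_univ i0)]
    have h3 : ∏ i ∈ Finset.univ.erase i0, ((N i).card : ℝ) =
        ∏ i ∈ Finset.univ.erase i0, ((P i).card : ℝ) := by
      refine Finset.prod_congr rfl fun i hi => ?_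
      simp only [N, if_neg (Finset.ne_of_mem_erase hi)]
    rw [h3]
    calc (∏ _i ∈ Finset.univ.erase i0, (2 : ℝ)) *
          (((N i0).card : ℝ) * ∏ i ∈ Finset.univ.erase i0, ((P i).card : ℝ))
        = ((N i0).card : ℝ) * ∏ i ∈ Finset.univ.erase i0, (2 * ((P i).card : ℝ)) := by
          rw [Finset.prod_mul_distrib]
          ring
      _ ≤ (2 * ((P i0).card : ℝ)) * ∏ i ∈ Finset.univ.erase i0, (2 * ((P i).card : ℝ)) := by
          refine mul_le_mul_of_nonneg_right h1 (Finset.prod_nonneg fun i _ => by positivity)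
      _ ≤ _ := by
          refine mul_le_mul (hP2 i0) (Finset.prod_le_prod (fun i _ => by positivity)
            fun i _ => hP2 i) (Finset.prod_nonneg fun i _ => by positivity) ?_
          exact le_trans (by positivity) (hP2 i0)
  · intro F hF hne hs
    obtain ⟨T1, hT1⟩ := hne
    have : Nonempty ι := ⟨i0⟩
    obtain ⟨a, ha, haF⟩ := exists_norming F hF hs
    have hn : ∀ T ∈ F, ‖T‖ = 1 := fun T hT => by simpa using hs hT
    have ha1 : ∀ i, ‖a i‖ = 1 := norm_eq_one_of T1 (hn T1 hT1).le a ha (haF T1 hT1)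
    choose p hp hp2 using fun i => hP3 i (a i) (ha1 i)
    have hs' : ∀ i, ∃ s : ℝ, (s = 1 ∨ s = -1) ∧ ‖a i - s • p i‖ ≤ ρ i := by
      intro i
      rcases hp2 i with h | h
      · exact ⟨1, Or.inl rfl, by simpa using h⟩
      · exact ⟨-1, Or.inr rfl, by simpa using h⟩
    choose s hs1 hs2 using hs'
    have hS : (∏ i, s i) = 1 ∨ (∏ i, s i) = -1 := by
      have : |∏ i, s i| = 1 := by
        rw [Finset.abs_prod]
        refine Finset.prod_eq_one fun i _ => ?_
        rcases hs1 i with h | h <;> rw [h] <;> simp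
      exact eq_or_eq_neg_of_abs_eq this
    refine ⟨Function.update p i0 ((∏ i, s i) • p i0), ?_, ?_⟩
    · rw [Fintype.mem_piFinset]
      intro i
      by_cases hi : i = i0
      · subst hi
        rw [Function.update_self]
        simp only [N, if_true, Finset.mem_union, Finset.mem_map_equiv, Equiv.neg_symm,
          Equiv.neg_apply]
        rcases hS with h | h
        · left
          rw [h, one_smul]
          exact hp i
        · right
          rw [h, neg_smul, one_smul, neg_neg]
          exact hp i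
      · rw [Function.update_of_ne hi]
        simp only [N, if_neg hi]
        exact hp i
    · intro T hT
      have e1 : T (Function.update p i0 ((∏ i, s i) • p i0)) = (∏ i, s i) * T p := by
        have h5 := T.toMultilinearMap.map_update_smul p i0 (∏ i, s i) (p i0)
        rw [Function.update_eq_self] at h5
        exact h5
      have e2 : T (fun i => s i • p i) = (∏ i, s i) * T p := T.map_smul_univ s p
      rw [e1, ← e2]
      have h6 := lipschitz T (hn T hT).le a (fun i => s i • p i) ha (fun i => by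
        rw [norm_smul, hP1 i (p i) (hp i), mul_one]
        rcases hs1 i with h | h <;> rw [h] <;> simp)
      have h7 : ∑ i, ‖a i - s i • p i‖ ≤ ∑ i, ρ i := Finset.sum_le_sum fun i _ => hs2 i
      have h8 := (abs_le.1 h6).2
      rw [haF T hT] at h8
      linarith

section Faces

variable {V : Type} [NormedAddCommGroup V] [NormedSpace ℝ V]

/-- `F` is a face of `K`: the intersection of `K` with a supporting hyperplane. -/
def IsFace (K F : Set V) : Prop :=
  ∃ (f : V →L[ℝ] ℝ) (c : ℝ), f ≠ 0 ∧ (∀ x ∈ K, f x ≤ c) ∧ F = {x | x ∈ K ∧ f x = c} ∧ F.Nonempty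

/-- The hyperplane `{x | h.1 x = h.2}` strictly separates `F` from `o`. -/
def Separates (h : (V →L[ℝ] ℝ) × ℝ) (F : Set V) (o : V) : Prop :=
  h.1 ≠ 0 ∧ (((∀ x ∈ F, h.2 < h.1 x) ∧ h.1 o < h.2) ∨ ((∀ x ∈ F, h.1 x < h.2) ∧ h.2 < h.1 o))

/-- `s(K, o) ≤ n`: there are at most `n` hyperplanes such that every face of `K` is strictly
separated from `o` by one of them. -/
def SepLE (K : Set V) (o : V) (n : ℕ) : Prop :=
  ∃ H : Finset ((V →L[ℝ] ℝ) × ℝ), H.card ≤ n ∧ ∀ F, IsFace K F → ∃ h ∈ H, Separates h F o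

theorem face_convex {F : Set V} (h : IsFace (closedBall (0 : V) 1) F) : Convex ℝ F := by
  obtain ⟨f, c, hf, hle, rfl, hne⟩ := h
  have : {x | x ∈ closedBall (0 : V) 1 ∧ f x = c} = closedBall (0 : V) 1 ∩ {x | f x = c} := rfl
  rw [this]
  exact (convex_closedBall _ _).inter (convex_hyperplane f.isLinear c)

theorem face_sphere {F : Set V} (h : IsFace (closedBall (0 : V) 1) F) : F ⊆ sphere 0 1 := by
  obtain ⟨f, c, hf, hle, rfl, hne⟩ := h
  rintro x ⟨hx, hxc⟩
  rw [mem_closedBall, dist_zero_right] at hx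
  rw [mem_sphere, dist_zero_right]
  refine le_antisymm hx ?_
  by_contra! hlt
  obtain ⟨u, hu⟩ : ∃ u, f u ≠ 0 := by
    by_contra! hcon
    exact hf (ContinuousLinearMap.ext hcon)
  obtain ⟨v, hv⟩ : ∃ v, 0 < f v := by
    rcases lt_or_gt_of_ne hu with h | h
    · exact ⟨-u, by simpa using h⟩
    · exact ⟨u, h⟩
  have hv0 : v ≠ 0 := by
    rintro rfl
    simp at hv
  have hvn : 0 < ‖v‖ := norm_pos_iff.2 hv0
  have := hle (x + ((1 - ‖x‖) / ‖v‖) • v) ?_
  · rw [map_add, map_smul, hxc, smul_eq_mul] at this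
    have h2 : 0 < (1 - ‖x‖) / ‖v‖ * f v := mul_pos (div_pos (by linarith) hvn) hv
    linarith
  · rw [mem_closedBall, dist_zero_right]
    refine (norm_add_le _ _).trans ?_
    rw [norm_smul, Real.norm_of_nonneg (div_nonneg (by linarith) hvn.le),
      div_mul_cancel₀ _ hvn.ne']
    linarith

end Faces

/-- evaluation at a tuple as a continuous linear functional -/
noncomputable def ev (a : ∀ i, X i) : ContinuousMultilinearMap ℝ X ℝ →L[ℝ] ℝ :=
  ContinuousMultilinearMap.apply ℝ X ℝ a

omit [Fintype ι] in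
theorem ev_apply (a : ∀ i, X i) (T : ContinuousMultilinearMap ℝ X ℝ) : ev a T = T a := rfl

/-- a finite set of tuples gives hyperplanes -/
theorem sepLE_of [∀ i, FiniteDimensional ℝ (X i)] (A : Finset (∀ i, X i)) (c : ℝ) (hc : 0 < c)
    (h : ∀ F : Set (ContinuousMultilinearMap ℝ X ℝ), Convex ℝ F → F.Nonempty → F ⊆ sphere 0 1 →
        ∃ a ∈ A, ∀ T ∈ F, c < T a) :
    SepLE (closedBall (0 : ContinuousMultilinearMap ℝ X ℝ) 1) 0 A.card := by
  classical
  refine ⟨A.image fun a => (ev a, c), Finset.card_image_le, fun F hF => ?_⟩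
  have hne : F.Nonempty := by
    obtain ⟨f, d, hf, hle, hF2, hne⟩ := hF
    exact hne
  obtain ⟨a, ha, haF⟩ := h F (face_convex hF) hne (face_sphere hF)
  refine ⟨(ev a, c), Finset.mem_image_of_mem _ ha, ?_, Or.inl ⟨fun T hT => ?_, ?_⟩⟩
  · obtain ⟨T, hT⟩ := hne
    intro h0
    have := haF T hT
    have h1 : ev a T = 0 := by
      have h2 : ev a = 0 := h0
      rw [h2]
      rfl
    rw [ev_apply] at h1
    linarith
  · exact haF T hT
  · simpa using hc


/-! ### The spaces `ℓ_∞` -/

section Linf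

variable {κ : ι → Type} [∀ i, Fintype (κ i)]

/-- moving one coordinate to `1` -/
theorem move_coord [DecidableEq ι] [∀ i, DecidableEq (κ i)]
    (T : ContinuousMultilinearMap ℝ (fun i => κ i → ℝ) ℝ) (hT : ‖T‖ ≤ 1)
    (a : ∀ i, κ i → ℝ) (ha : ∀ i j, |a i j| ≤ 1) (hTa : T a = 1) (i : ι) (j : κ i)
    (hij : |a i j| < 1) : T (Function.update a i (Function.update (a i) j 1)) = 1 := by
  have key : ∀ t : ℝ, T (Function.update a i (Function.update (a i) j t)) =
      1 + (t - a i j) * T (Function.update a i (Pi.single j 1)) := by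
    intro t
    have e : Function.update (a i) j t = a i + (t - a i j) • (Pi.single j (1 : ℝ) : κ i → ℝ) := by
      funext l
      by_cases hl : l = j
      · subst hl
        simp
      · simp [hl]
    rw [e]
    have h5 := T.toMultilinearMap.map_update_add a i (a i) ((t - a i j) • (Pi.single j (1 : ℝ)))
    have h6 := T.toMultilinearMap.map_update_smul a i (t - a i j) (Pi.single j (1 : ℝ))
    rw [h6, Function.update_eq_self] at h5
    have h7 : T (Function.update a i (a i + (t - a i j) • (Pi.single j (1 : ℝ)))) =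
      T a + (t - a i j) • T (Function.update a i (Pi.single j (1 : ℝ))) := h5
    rw [h7, hTa, smul_eq_mul]
  have hbd : ∀ t : ℝ, |t| ≤ 1 → T (Function.update a i (Function.update (a i) j t)) ≤ 1 := by
    intro t ht
    refine (le_abs_self _).trans (apply_le_one T hT _ fun l => ?_)
    rw [pi_norm_le_iff_of_nonneg zero_le_one]
    intro m
    rw [Real.norm_eq_abs]
    by_cases hl : l = i
    · subst hl
      rw [Function.update_self]
      by_cases hm : m = j
      · subst hm
        rwa [Function.update_self]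
      · rw [Function.update_of_ne hm]
        exact ha _ _
    · rw [Function.update_of_ne hl]
      exact ha _ _
  have h1 := hbd 1 (by simp)
  have h2 := hbd (-1) (by simp)
  rw [key] at h1 h2 ⊢
  have h3 := (abs_lt.1 hij).1
  have h4 := (abs_lt.1 hij).2
  have h5 : T (Function.update a i (Pi.single j 1)) ≤ 0 := by
    by_contra! h
    nlinarith
  have h6 : 0 ≤ T (Function.update a i (Pi.single j 1)) := by
    by_contra! h
    nlinarith
  have h7 : T (Function.update a i (Pi.single j 1)) = 0 := le_antisymm h5 h6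
  rw [h7]
  ring

/-- a common norming tuple of sign vectors -/
theorem exists_signs [Nonempty ι]
    (F : Set (ContinuousMultilinearMap ℝ (fun i => κ i → ℝ) ℝ)) (hF : Convex ℝ F)
    (hs : F ⊆ sphere 0 1) :
    ∃ a : ∀ i, κ i → ℝ, (∀ i j, |a i j| = 1) ∧ ∀ T ∈ F, T a = 1 := by
  classical
  have hn : ∀ T ∈ F, ‖T‖ = 1 := fun T hT => by simpa using hs hT
  obtain ⟨a0, ha0, ha0F⟩ := exists_norming F hF hs
  have key : ∀ S : Finset (Σ i, κ i), ∃ a : ∀ i, κ i → ℝ, (∀ i j, |a i j| ≤ 1) ∧
      (∀ T ∈ F, T a = 1) ∧ ∀ p ∈ S, |a p.1 p.2| = 1 := by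
    intro S
    induction S using Finset.induction_on with
    | empty =>
      refine ⟨a0, fun i j => ?_, ha0F, by simp⟩
      have := norm_le_pi_norm (a0 i) j
      rw [Real.norm_eq_abs] at this
      exact this.trans (ha0 i)
    | insert p S hp ih =>
      obtain ⟨a, h1, h2, h3⟩ := ih
      obtain ⟨i, j⟩ := p
      by_cases hij : |a i j| = 1
      · refine ⟨a, h1, h2, fun q hq => ?_⟩
        rcases Finset.mem_insert.1 hq with rfl | hq
        · exact hij
        · exact h3 q hq
      · have hlt : |a i j| < 1 := lt_of_le_of_ne (h1 i j) hij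
        have hval : ∀ l m, Function.update a i (Function.update (a i) j 1) l m = a l m ∨
            ((⟨l, m⟩ : Σ i, κ i) = ⟨i, j⟩ ∧
              Function.update a i (Function.update (a i) j 1) l m = 1) := by
          intro l m
          by_cases hl : l = i
          · subst hl
            rw [Function.update_self]
            by_cases hm : m = j
            · subst hm
              right
              rw [Function.update_self]
              exact ⟨rfl, rfl⟩
            · left
              rw [Function.update_of_ne hm]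
          · left
            rw [Function.update_of_ne hl]
        refine ⟨Function.update a i (Function.update (a i) j 1), ?_, ?_, ?_⟩
        · intro l m
          rcases hval l m with h | ⟨-, h⟩
          · rw [h]
            exact h1 l m
          · rw [h]
            simp
        · exact fun T hT => move_coord T (hn T hT).le a h1 (h2 T hT) i j hlt
        · intro q hq
          rcases hval q.1 q.2 with h | ⟨-, h⟩
          · rcases Finset.mem_insert.1 hq with rfl | hq
            · simp
            · rw [h]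
              exact h3 q hq
          · rw [h]
            simp
  obtain ⟨a, h1, h2, h3⟩ := key Finset.univ
  exact ⟨a, fun i j => h3 ⟨i, j⟩ (Finset.mem_univ _), h2⟩

/-- normalised sign tuples -/
noncomputable def signs [DecidableEq ι] [∀ i, DecidableEq (κ i)] (i0 : ι) (b : ∀ i, κ i) :
    Finset (∀ i, κ i → ℝ) :=
  Fintype.piFinset fun i => Fintype.piFinset fun j =>
    if i ≠ i0 ∧ j = b i then {1} else {1, -1}

theorem card_signs [DecidableEq ι] [∀ i, DecidableEq (κ i)] (i0 : ι) (b : ∀ i, κ i) :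
    (signs i0 b).card = 2 ^ ((∑ i, Fintype.card (κ i)) - Fintype.card ι + 1) := by
  have hpair : ({1, -1} : Finset ℝ).card = 2 := by
    rw [Finset.card_pair]
    norm_num
  have h1 : ∀ i, ∏ j : κ i, (if i ≠ i0 ∧ j = b i then ({1} : Finset ℝ) else {1, -1}).card =
      2 ^ (if i = i0 then Fintype.card (κ i) else Fintype.card (κ i) - 1) := by
    intro i
    by_cases hi : i = i0
    · simp only [hi, ne_eq, not_true_eq_false, false_and, if_false, if_true, hpair,
        Finset.prod_const, Finset.card_univ]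
    · simp only [ne_eq, hi, not_false_eq_true, true_and, if_false]
      rw [← Finset.mul_prod_erase _ _ (Finset.mem_univ (b i)), if_pos rfl, Finset.card_singleton,
        one_mul]
      have : ∀ j ∈ Finset.univ.erase (b i), (if j = b i then ({1} : Finset ℝ)
          else {1, -1}).card = 2 := by
        intro j hj
        rw [if_neg (Finset.ne_of_mem_erase hj), hpair]
      rw [Finset.prod_congr rfl this, Finset.prod_const,
        Finset.card_erase_of_mem (Finset.mem_univ _), Finset.card_univ]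
  rw [signs, Fintype.card_piFinset]
  simp only [Fintype.card_piFinset]
  rw [Finset.prod_congr rfl fun i _ => h1 i, Finset.prod_pow_eq_pow_sum]
  congr 1
  rw [← Finset.add_sum_erase _ _ (Finset.mem_univ i0), if_pos rfl,
    ← Finset.add_sum_erase _ (fun i => Fintype.card (κ i)) (Finset.mem_univ i0)]
  have h2 : ∀ i ∈ Finset.univ.erase i0, (if i = i0 then Fintype.card (κ i)
      else Fintype.card (κ i) - 1) = Fintype.card (κ i) - 1 := fun i hi =>
    if_neg (Finset.ne_of_mem_erase hi)
  rw [Finset.sum_congr rfl h2]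
  have h3 : ∑ i ∈ Finset.univ.erase i0, (Fintype.card (κ i) - 1) + (Fintype.card ι - 1) =
      ∑ i ∈ Finset.univ.erase i0, Fintype.card (κ i) := by
    have h4 : Fintype.card ι - 1 = ∑ i ∈ Finset.univ.erase i0, 1 := by
      rw [Finset.sum_const, Finset.card_erase_of_mem (Finset.mem_univ _), Finset.card_univ]
      simp
    rw [h4, ← Finset.sum_add_distrib]
    refine Finset.sum_congr rfl fun i _ => ?_
    have : 0 < Fintype.card (κ i) := Fintype.card_pos_iff.2 ⟨b i⟩
    omega
  have h5 : 0 < Fintype.card ι := Fintype.card_pos_iff.2 ⟨i0⟩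
  have h6 : 0 < Fintype.card (κ i0) := Fintype.card_pos_iff.2 ⟨b i0⟩
  omega

/-- coordinate form -/
noncomputable def coordForm (j : ∀ i, κ i) : ContinuousMultilinearMap ℝ (fun i => κ i → ℝ) ℝ :=
  (ContinuousMultilinearMap.mkPiAlgebra ℝ ι ℝ).compContinuousLinearMap
    fun i => ContinuousLinearMap.proj (j i)

omit [∀ i, Fintype (κ i)] in
theorem coordForm_apply (j : ∀ i, κ i) (x : ∀ i, κ i → ℝ) : coordForm j x = ∏ i, x i (j i) := by
  simp [coordForm]

theorem coordForm_norm (j : ∀ i, κ i) : ‖coordForm j‖ ≤ 1 := by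
  refine ContinuousMultilinearMap.opNorm_le_bound zero_le_one fun x => ?_
  rw [coordForm_apply, one_mul, Real.norm_eq_abs, Finset.abs_prod]
  refine Finset.prod_le_prod (fun i _ => abs_nonneg _) fun i _ => ?_
  exact norm_le_pi_norm (x i) (j i)

theorem sign_cases {x : ℝ} (h : x ∈ ({1, -1} : Finset ℝ)) : x = 1 ∨ x = -1 := by
  simpa using h

theorem mem_signs [DecidableEq ι] [∀ i, DecidableEq (κ i)] (i0 : ι) (b : ∀ i, κ i)
    {a : ∀ i, κ i → ℝ} (h : a ∈ signs i0 b) :
    (∀ i j, a i j = 1 ∨ a i j = -1) ∧ ∀ i, i ≠ i0 → a i (b i) = 1 := by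
  simp only [signs, Fintype.mem_piFinset] at h
  refine ⟨fun i j => ?_, fun i hi => ?_⟩
  · have := h i j
    split_ifs at this with hc
    · left
      simpa using this
    · exact sign_cases this
  · have := h i (b i)
    rw [if_pos ⟨hi, rfl⟩] at this
    simpa using this

/-- two normalised sign tuples which give the same tensor are equal -/
theorem signs_inj [DecidableEq ι] [∀ i, DecidableEq (κ i)] (i0 : ι) (b : ∀ i, κ i)
    {x y : ∀ i, κ i → ℝ} (hx : x ∈ signs i0 b) (hy : y ∈ signs i0 b)
    (h : ∀ j : ∀ i, κ i, ∏ i, x i (j i) = ∏ i, y i (j i)) : x = y := by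
  obtain ⟨hx1, hx2⟩ := mem_signs i0 b hx
  obtain ⟨hy1, hy2⟩ := mem_signs i0 b hy
  -- the coordinate `i0`
  have h0 : ∀ l : κ i0, x i0 l = y i0 l := by
    intro l
    have := h (Function.update b i0 l)
    rw [← Finset.mul_prod_erase _ _ (Finset.mem_univ i0),
      ← Finset.mul_prod_erase _ (fun i => y i (Function.update b i0 l i)) (Finset.mem_univ i0),
      Function.update_self] at this
    rw [Finset.prod_eq_one, Finset.prod_eq_one] at this
    · simpa using this
    · intro i hi
      rw [Function.update_of_ne (Finset.ne_of_mem_erase hi)]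
      exact hy2 i (Finset.ne_of_mem_erase hi)
    · intro i hi
      rw [Function.update_of_ne (Finset.ne_of_mem_erase hi)]
      exact hx2 i (Finset.ne_of_mem_erase hi)
  funext i
  by_cases hi : i = i0
  · subst hi
    funext l
    exact h0 l
  · funext l
    have := h (Function.update b i l)
    rw [← Finset.mul_prod_erase _ _ (Finset.mem_univ i),
      ← Finset.mul_prod_erase _ (fun k => y k (Function.update b i l k)) (Finset.mem_univ i),
      Function.update_self] at this
    have e : ∏ k ∈ Finset.univ.erase i, x k (Function.update b i l k) =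
        ∏ k ∈ Finset.univ.erase i, y k (Function.update b i l k) := by
      refine Finset.prod_congr rfl fun k hk => ?_
      rw [Function.update_of_ne (Finset.ne_of_mem_erase hk)]
      by_cases hk0 : k = i0
      · subst hk0
        exact h0 _
      · rw [hx2 k hk0, hy2 k hk0]
    rw [e] at this
    refine mul_right_cancel₀ ?_ this
    refine Finset.prod_ne_zero_iff.2 fun k _ => ?_
    rcases hy1 k (Function.update b i l k) with h | h <;> rw [h] <;> norm_num

/-- the exact value for `ℓ_∞` -/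
theorem exact_linf [Nonempty ι] [∀ i, Nonempty (κ i)] (n : ℕ) :
    SepLE (closedBall (0 : ContinuousMultilinearMap ℝ (fun i => κ i → ℝ) ℝ) 1) 0 n ↔
      2 ^ ((∑ i, Fintype.card (κ i)) - Fintype.card ι + 1) ≤ n := by
  classical
  have i0 : ι := Classical.arbitrary ι
  have b : ∀ i, κ i := fun i => Classical.arbitrary (κ i)
  constructor
  · rintro ⟨H, hHn, hH⟩
    refine le_trans ?_ hHn
    rw [← card_signs i0 b]
    -- faces given by sign tuples
    have hface : ∀ x ∈ signs i0 b, IsFace (closedBall (0 : ContinuousMultilinearMap ℝ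
        (fun i => κ i → ℝ) ℝ) 1) {T | T ∈ closedBall (0 : ContinuousMultilinearMap ℝ
        (fun i => κ i → ℝ) ℝ) 1 ∧ ev x T = 1} ∧
        ∀ j : ∀ i, κ i, (∏ i, x i (j i)) • coordForm j ∈ {T | T ∈ closedBall (0 :
          ContinuousMultilinearMap ℝ (fun i => κ i → ℝ) ℝ) 1 ∧ ev x T = 1} := by
      intro x hx
      obtain ⟨hx1, hx2⟩ := mem_signs i0 b hx
      have hpr : ∀ j : ∀ i, κ i, |∏ i, x i (j i)| = 1 := by
        intro j
        rw [Finset.abs_prod]
        refine Finset.prod_eq_one fun i _ => ?_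
        rcases hx1 i (j i) with h | h <;> rw [h] <;> simp
      have hmem : ∀ j : ∀ i, κ i, (∏ i, x i (j i)) • coordForm j ∈ {T | T ∈ closedBall (0 :
          ContinuousMultilinearMap ℝ (fun i => κ i → ℝ) ℝ) 1 ∧ ev x T = 1} := by
        intro j
        refine ⟨?_, ?_⟩
        · rw [mem_closedBall, dist_zero_right, norm_smul, Real.norm_eq_abs, hpr j, one_mul]
          exact coordForm_norm j
        · rw [map_smul, ev_apply, coordForm_apply, smul_eq_mul, ← abs_mul_abs_self, hpr j, one_mul]
      refine ⟨⟨ev x, 1, ?_, ?_, rfl, _, hmem b⟩, hmem⟩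
      · intro h0
        have := (hmem b).2
        rw [h0] at this
        simp at this
      · intro T hT
        rw [mem_closedBall, dist_zero_right] at hT
        refine (le_abs_self _).trans (apply_le_one T hT x fun i => ?_)
        rw [pi_norm_le_iff_of_nonneg zero_le_one]
        intro j
        rw [Real.norm_eq_abs]
        rcases hx1 i j with h | h <;> rw [h] <;> simp
    have hch : ∀ x ∈ signs i0 b, ∃ h ∈ H, Separates h {T | T ∈ closedBall (0 :
        ContinuousMultilinearMap ℝ (fun i => κ i → ℝ) ℝ) 1 ∧ ev x T = 1} 0 :=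
      fun x hx => hH _ (hface x hx).1
    choose! g hg hg2 using hch
    refine Finset.card_le_card_of_injOn g (fun x hx => hg x hx) ?_
    intro x hx y hy hxy
    by_contra hne
    have hx' : x ∈ signs i0 b := hx
    have hy' : y ∈ signs i0 b := hy
    have hj : ∃ j : ∀ i, κ i, ∏ i, x i (j i) ≠ ∏ i, y i (j i) := by
      by_contra! hcon
      exact hne (signs_inj i0 b hx' hy' hcon)
    obtain ⟨j, hj⟩ := hj
    have hsg : ∀ z ∈ signs i0 b, (∏ i, z i (j i)) = 1 ∨ (∏ i, z i (j i)) = -1 := by
      intro z hz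
      refine eq_or_eq_neg_of_abs_eq ?_
      rw [Finset.abs_prod]
      refine Finset.prod_eq_one fun i _ => ?_
      rcases (mem_signs i0 b hz).1 i (j i) with h | h <;> rw [h] <;> simp
    have hopp : (∏ i, y i (j i)) • coordForm j = -((∏ i, x i (j i)) • coordForm j) := by
      suffices hyx : (∏ i, y i (j i)) = -(∏ i, x i (j i)) by
        rw [hyx]
        exact neg_smul (∏ i, x i (j i)) (coordForm j)
      rcases hsg x hx' with h | h <;> rcases hsg y hy' with h' | h'
      · exact absurd (h.trans h'.symm) hj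
      · rw [h, h']
      · rw [h, h', neg_neg]
      · exact absurd (h.trans h'.symm) hj
    have m1 := (hface x hx').2 j
    have m2 := (hface y hy').2 j
    rw [hopp] at m2
    have s1 := hg2 x hx'
    have s2 := hg2 y hy'
    rw [hxy] at s1
    rcases s1.2 with ⟨p1, p2⟩ | ⟨p1, p2⟩ <;> rcases s2.2 with ⟨q1, q2⟩ | ⟨q1, q2⟩
    · have u1 := p1 _ m1
      have u2 := q1 _ m2
      rw [map_neg] at u2
      rw [map_zero] at p2
      linarith
    · rw [map_zero] at p2 q2
      linarith
    · rw [map_zero] at p2 q2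
      linarith
    · have u1 := p1 _ m1
      have u2 := q1 _ m2
      rw [map_neg] at u2
      rw [map_zero] at p2
      linarith
  · intro hn
    have key := sepLE_of (X := fun i => κ i → ℝ) (signs i0 b) (1 / 2) (by norm_num) ?_
    · obtain ⟨H, h1, h2⟩ := key
      rw [card_signs i0 b] at h1
      exact ⟨H, h1.trans hn, h2⟩
    · intro F hF hne hs
      obtain ⟨a, ha, haF⟩ := exists_signs F hF hs
      have hinv : ∀ i j, a i j * a i j = 1 := fun i j => by
        rw [← abs_mul_abs_self, ha i j, one_mul]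
      have hone : ∀ i j, a i j = 1 ∨ a i j = -1 := fun i j => eq_or_eq_neg_of_abs_eq (ha i j)
      -- normalise
      let s : ι → ℝ := fun i => if i = i0 then ∏ k ∈ Finset.univ.erase i0, a k (b k) else a i (b i)
      have hs1 : ∀ i, s i = 1 ∨ s i = -1 := by
        intro i
        simp only [s]
        split_ifs
        · refine eq_or_eq_neg_of_abs_eq ?_
          rw [Finset.abs_prod]
          exact Finset.prod_eq_one fun k _ => ha k _
        · exact hone _ _
      have hsp : ∏ i, s i = 1 := by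
        rw [← Finset.mul_prod_erase _ _ (Finset.mem_univ i0)]
        simp only [s, if_true]
        rw [← Finset.prod_mul_distrib]
        refine Finset.prod_eq_one fun k hk => ?_
        rw [if_neg (Finset.ne_of_mem_erase hk)]
        exact hinv _ _
      refine ⟨fun i => s i • a i, ?_, ?_⟩
      · simp only [signs, Fintype.mem_piFinset]
        intro i j
        split_ifs with hc
        · obtain ⟨hc1, rfl⟩ := hc
          simp only [Pi.smul_apply, smul_eq_mul, Finset.mem_singleton, s, if_neg hc1]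
          exact hinv _ _
        · simp only [Pi.smul_apply, smul_eq_mul, Finset.mem_insert, Finset.mem_singleton]
          rcases hs1 i with h | h <;> rcases hone i j with h' | h' <;> rw [h, h'] <;> norm_num
      · intro T hT
        have e2 : T (fun i => s i • a i) = (∏ i, s i) * T a := T.map_smul_univ s a
        rw [e2, hsp, haF T hT]
        norm_num

end Linf


/-! ### Dimension -/

theorem finrank_forms [∀ i, FiniteDimensional ℝ (X i)] :
    finrank ℝ (ContinuousMultilinearMap ℝ X ℝ) = ∏ i, finrank ℝ (X i) := by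
  classical
  let b : ∀ i, Basis (Fin (finrank ℝ (X i))) ℝ (X i) := fun i => finBasis ℝ (X i)
  let L : ContinuousMultilinearMap ℝ X ℝ →ₗ[ℝ] ((∀ i, Fin (finrank ℝ (X i))) → ℝ) :=
    { toFun := fun T p => T fun i => b i (p i)
      map_add' := fun S T => rfl
      map_smul' := fun c T => rfl }
  have hinj : Function.Injective L := by
    intro S T h
    apply ContinuousMultilinearMap.toMultilinearMap_injective
    exact Basis.ext_multilinear b fun v => congrFun h v
  have hsurj : Function.Surjective L := by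
    intro c
    let E : (∀ i, Fin (finrank ℝ (X i))) → ContinuousMultilinearMap ℝ X ℝ := fun p =>
      (ContinuousMultilinearMap.mkPiAlgebra ℝ ι ℝ).compContinuousLinearMap
        fun i => LinearMap.toContinuousLinearMap ((b i).coord (p i))
    have hE : ∀ p q, L (E p) q = if p = q then 1 else 0 := by
      intro p q
      have : L (E p) q = ∏ i, (b i).coord (p i) (b i (q i)) := by
        simp [L, E]
      rw [this]
      split_ifs with h
      · subst h
        refine Finset.prod_eq_one fun i _ => ?_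
        simp
      · obtain ⟨i, hi⟩ := Function.ne_iff.1 h
        refine Finset.prod_eq_zero (Finset.mem_univ i) ?_
        simp [Ne.symm hi]
    refine ⟨∑ p, c p • E p, ?_⟩
    funext q
    rw [map_sum, Finset.sum_apply]
    simp only [map_smul, Pi.smul_apply, hE, smul_eq_mul]
    simp
  rw [(LinearEquiv.ofBijective L ⟨hinj, hsurj⟩).finrank_eq, finrank_fintype_fun_eq_card,
    Fintype.card_pi]
  simp

/-! ### Numerical part -/

omit [Fintype ι] in
theorem prod_ge (b : ℕ) (s : Finset ι) (t : ι → ℕ) :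
    b ^ (s.card + 1) + b ^ s.card * ∑ i ∈ s, t i ≤ b * ∏ i ∈ s, (b + t i) := by
  classical
  induction s using Finset.induction_on with
  | empty => simp
  | insert i s hi ih =>
    rw [Finset.card_insert_of_notMem hi, Finset.sum_insert hi, Finset.prod_insert hi]
    calc b ^ (s.card + 1 + 1) + b ^ (s.card + 1) * (t i + ∑ i ∈ s, t i)
        ≤ (b + t i) * (b ^ (s.card + 1) + b ^ s.card * ∑ i ∈ s, t i) := by
          have : (b + t i) * (b ^ (s.card + 1) + b ^ s.card * ∑ i ∈ s, t i) =
            b ^ (s.card + 1 + 1) + b ^ (s.card + 1) * (t i + ∑ i ∈ s, t i)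
              + t i * (b ^ s.card * ∑ i ∈ s, t i) := by ring
          rw [this]
          exact Nat.le_add_right _ _
      _ ≤ (b + t i) * (b * ∏ i ∈ s, (b + t i)) := Nat.mul_le_mul_left _ ih
      _ = b * ((b + t i) * ∏ i ∈ s, (b + t i)) := by ring

theorem num_general (b : ℕ) (hb : 0 < b) (S0 : ℕ) (m : ι → ℕ) (hm : ∀ i, b ≤ m i)
    (hk : 1 ≤ Fintype.card ι)
    (h1 : 2 * Fintype.card ι + 1 ≤ 2 ^ b ^ (Fintype.card ι - 1))
    (h2 : (2 * Fintype.card ι + 1) ^ (b * Fintype.card ι + S0) <
      2 ^ (b ^ Fintype.card ι + b ^ (Fintype.card ι - 1) * S0 + (Fintype.card ι - 1)))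
    (h3 : b * Fintype.card ι + S0 ≤ ∑ i, m i) :
    (2 * Fintype.card ι + 1) ^ (∑ i, m i) < 2 ^ (∏ i, m i + (Fintype.card ι - 1)) := by
  set k := Fintype.card ι with hkdef
  have e1 : ∀ i, m i = b + (m i - b) := fun i => by have := hm i; omega
  have hsum : ∑ i, m i = b * k + ∑ i, (m i - b) := by
    rw [Finset.sum_congr rfl fun i _ => e1 i, Finset.sum_add_distrib, Finset.sum_const,
      Finset.card_univ, smul_eq_mul, mul_comm]
  have hprod : b ^ k + b ^ (k - 1) * ∑ i, (m i - b) ≤ ∏ i, m i := by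
    have := prod_ge b (Finset.univ : Finset ι) (fun i => m i - b)
    rw [Finset.card_univ, ← hkdef] at this
    have e2 : ∏ i, (b + (m i - b)) = ∏ i, m i := Finset.prod_congr rfl fun i _ => (e1 i).symm
    rw [e2] at this
    obtain ⟨k', hk'⟩ : ∃ k', k = k' + 1 := ⟨k - 1, by omega⟩
    rw [hk'] at this ⊢
    simp only [Nat.add_sub_cancel]
    have e3 : b ^ (k' + 1 + 1) + b ^ (k' + 1) * ∑ i, (m i - b) =
        b * (b ^ (k' + 1) + b ^ k' * ∑ i, (m i - b)) := by ring
    rw [e3] at this
    exact Nat.le_of_mul_le_mul_left this hb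
  obtain ⟨R, hR⟩ : ∃ R, ∑ i, (m i - b) = S0 + R := ⟨∑ i, (m i - b) - S0, by omega⟩
  rw [hR] at hsum hprod
  rw [hsum]
  calc (2 * k + 1) ^ (b * k + (S0 + R)) = (2 * k + 1) ^ (b * k + S0) * (2 * k + 1) ^ R := by
        rw [← pow_add]; ring_nf
    _ ≤ (2 * k + 1) ^ (b * k + S0) * (2 ^ b ^ (k - 1)) ^ R :=
        Nat.mul_le_mul_left _ (Nat.pow_le_pow_left h1 R)
    _ < 2 ^ (b ^ k + b ^ (k - 1) * S0 + (k - 1)) * (2 ^ b ^ (k - 1)) ^ R :=
        Nat.mul_lt_mul_of_pos_right h2 (by positivity)
    _ = 2 ^ (b ^ k + b ^ (k - 1) * (S0 + R) + (k - 1)) := by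
        rw [← pow_mul, ← pow_add]; ring_nf
    _ ≤ 2 ^ (∏ i, m i + (k - 1)) := Nat.pow_le_pow_right (by norm_num) (by omega)

theorem two_mul_add_one_le (k : ℕ) (hk : 3 ≤ k) : 2 * k + 1 ≤ 2 ^ k := by
  induction k, hk using Nat.le_induction with
  | base => norm_num
  | succ n hn ih => rw [pow_succ]; omega

theorem le_pow_pred (b k : ℕ) (hb : 2 ≤ b) (hk : 1 ≤ k) : k ≤ b ^ (k - 1) := by
  obtain ⟨n, rfl⟩ : ∃ n, k = n + 1 := ⟨k - 1, by omega⟩
  simp only [Nat.add_sub_cancel]
  calc n + 1 ≤ 2 ^ n := Nat.lt_two_pow_self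
    _ ≤ b ^ n := Nat.pow_le_pow_left hb n

theorem slope (b k : ℕ) (hb : 2 ≤ b) (hk : 3 ≤ k) : 2 * k + 1 ≤ 2 ^ b ^ (k - 1) :=
  (two_mul_add_one_le k hk).trans
    (Nat.pow_le_pow_right (by norm_num) (le_pow_pred b k hb (by omega)))

theorem start3 (k : ℕ) (hk : 3 ≤ k) :
    (2 * k + 1) ^ (3 * k + 0) < 2 ^ (3 ^ k + 3 ^ (k - 1) * 0 + (k - 1)) := by
  have h : 3 * k * k < 3 ^ k + (k - 1) := by
    induction k, hk using Nat.le_induction with
    | base => norm_num
    | succ n hn ih =>
      obtain ⟨p, rfl⟩ : ∃ p, n = p + 3 := ⟨n - 3, by omega⟩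
      simp only [Nat.add_sub_cancel, Nat.add_succ_sub_one] at ih ⊢
      rw [pow_succ]
      nlinarith
  calc (2 * k + 1) ^ (3 * k + 0) ≤ (2 ^ k) ^ (3 * k + 0) :=
        Nat.pow_le_pow_left (two_mul_add_one_le k hk) _
    _ = 2 ^ (3 * k * k) := by rw [← pow_mul]; ring_nf
    _ < 2 ^ (3 ^ k + 3 ^ (k - 1) * 0 + (k - 1)) :=
        Nat.pow_lt_pow_right (by norm_num) (by omega)

theorem start2 (k : ℕ) (hk : 5 ≤ k) :
    (2 * k + 1) ^ (2 * k + 0) < 2 ^ (2 ^ k + 2 ^ (k - 1) * 0 + (k - 1)) := by
  rcases hk.eq_or_lt with rfl | hk6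
  · norm_num
  have h : 2 * k * (k - 1) < 2 ^ k + (k - 1) := by
    have hk6' : 6 ≤ k := hk6
    clear hk hk6
    induction k, hk6' using Nat.le_induction with
    | base => norm_num
    | succ n hn ih =>
      obtain ⟨p, rfl⟩ : ∃ p, n = p + 6 := ⟨n - 6, by omega⟩
      simp only [Nat.add_sub_cancel, Nat.add_succ_sub_one] at ih ⊢
      rw [pow_succ]
      nlinarith
  have h2 : 2 * k + 1 ≤ 2 ^ (k - 1) := by
    clear h
    induction k, hk using Nat.le_induction with
    | base => norm_num
    | succ n hn ih =>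
      by_cases h5 : 5 < n
      · have := ih h5
        obtain ⟨p, rfl⟩ : ∃ p, n = p + 1 := ⟨n - 1, by omega⟩
        simp only [Nat.add_sub_cancel] at this ⊢
        rw [pow_succ]
        omega
      · have : n = 5 := by omega
        subst this
        norm_num
  calc (2 * k + 1) ^ (2 * k + 0) ≤ (2 ^ (k - 1)) ^ (2 * k + 0) := Nat.pow_le_pow_left h2 _
    _ = 2 ^ (2 * k * (k - 1)) := by rw [← pow_mul]; ring_nf
    _ < 2 ^ (2 ^ k + 2 ^ (k - 1) * 0 + (k - 1)) :=
        Nat.pow_lt_pow_right (by norm_num) (by omega)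

/-- the equal radii `1 / k` -/
theorem card_equal [Nonempty ι] [∀ i, FiniteDimensional ℝ (X i)]
    (h : (2 * Fintype.card ι + 1) ^ (∑ i, finrank ℝ (X i)) <
      2 ^ (∏ i, finrank ℝ (X i) + (Fintype.card ι - 1))) :
    SepLE (closedBall (0 : ContinuousMultilinearMap ℝ X ℝ) 1) 0
      (2 ^ finrank ℝ (ContinuousMultilinearMap ℝ X ℝ) - 1) := by
  have hk : (0 : ℝ) < Fintype.card ι := by exact_mod_cast Fintype.card_pos
  obtain ⟨A, c, hc, hA, hF⟩ := upper (X := X) (fun _ => 1 / (Fintype.card ι : ℝ))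
    (fun _ => by positivity) (by
      rw [Finset.sum_const, Finset.card_univ, nsmul_eq_mul]
      field_simp
      exact le_rfl)
  obtain ⟨H, h1, h2⟩ := sepLE_of A c hc hF
  refine ⟨H, h1.trans ?_, h2⟩
  have h3 : (2 : ℝ) ^ (Fintype.card ι - 1) * (A.card : ℝ) ≤
      (2 * Fintype.card ι + 1) ^ (∑ i, finrank ℝ (X i)) := by
    refine hA.trans ?_
    rw [← Finset.prod_pow_eq_pow_sum]
    have hk1 : (1 : ℝ) ≤ Fintype.card ι := by exact_mod_cast Fintype.card_pos
    refine Finset.prod_le_prod (fun i _ => ?_) fun i _ => ?_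
    · rw [sub_nonneg]
      refine pow_le_pow_left₀ ?_ (by linarith) _
      rw [div_div_eq_mul_div]
      linarith
    · rw [show 2 / (1 / (Fintype.card ι : ℝ)) = 2 * Fintype.card ι by field_simp]
      have : (0 : ℝ) ≤ (2 * Fintype.card ι - 1) ^ finrank ℝ (X i) := pow_nonneg (by linarith) _
      linarith
  have h4 : 2 ^ (Fintype.card ι - 1) * A.card ≤
      (2 * Fintype.card ι + 1) ^ (∑ i, finrank ℝ (X i)) := by exact_mod_cast h3
  have h5 := h4.trans_lt h
  rw [pow_add, mul_comm] at h5
  have h6 : A.card < 2 ^ ∏ i, finrank ℝ (X i) := lt_of_mul_lt_mul_right h5 (Nat.zero_le _)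
  rw [finrank_forms]
  omega

/-- two factors -/
theorem card_two [DecidableEq ι] [∀ i, FiniteDimensional ℝ (X i)] (hk : Fintype.card ι = 2)
    (i j : ι) (hij : i ≠ j)
    (h : (4 ≤ finrank ℝ (X i) ∧ 5 ≤ finrank ℝ (X j)) ∨ (3 ≤ finrank ℝ (X i) ∧
      9 ≤ finrank ℝ (X j)) ∨ (2 ≤ finrank ℝ (X i) ∧ 17 ≤ finrank ℝ (X j))) :
    SepLE (closedBall (0 : ContinuousMultilinearMap ℝ X ℝ) 1) 0
      (2 ^ finrank ℝ (ContinuousMultilinearMap ℝ X ℝ) - 1) := by
  have : Nonempty ι := ⟨i⟩
  have huniv : (Finset.univ : Finset ι) = {i, j} := by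
    symm
    apply Finset.eq_univ_of_card
    rw [Finset.card_pair hij, hk]
  set m := finrank ℝ (X i) with hm
  set n := finrank ℝ (X j) with hn
  by_cases hmain : (4 ≤ m ∧ 5 ≤ n) ∨ (3 ≤ m ∧ 9 ≤ n)
  · apply card_equal
    rw [hk, huniv, Finset.sum_pair hij, Finset.prod_pair hij, ← hm, ← hn]
    norm_num
    rcases hmain with ⟨h1, h2⟩ | ⟨h1, h2⟩
    · obtain ⟨s, hs⟩ : ∃ s, m = 4 + s := ⟨m - 4, by omega⟩
      obtain ⟨t, ht⟩ : ∃ t, n = 5 + t := ⟨n - 5, by omega⟩
      rw [hs, ht]
      calc 5 ^ (4 + s + (5 + t)) = 5 ^ 9 * (5 ^ s * 5 ^ t) := by rw [← pow_add, ← pow_add]; ring_nf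
        _ < 2 ^ 21 * (5 ^ s * 5 ^ t) := Nat.mul_lt_mul_of_pos_right (by norm_num) (by positivity)
        _ ≤ 2 ^ 21 * ((2 ^ 5) ^ s * (2 ^ 4) ^ t) := by
          refine Nat.mul_le_mul_left _ (Nat.mul_le_mul ?_ ?_) <;>
            exact Nat.pow_le_pow_left (by norm_num) _
        _ = 2 ^ (21 + 5 * s + 4 * t) := by rw [← pow_mul, ← pow_mul, ← pow_add, ← pow_add]; ring_nf
        _ ≤ 2 ^ ((4 + s) * (5 + t) + 1) := Nat.pow_le_pow_right (by norm_num) (by nlinarith)
    · obtain ⟨s, hs⟩ : ∃ s, m = 3 + s := ⟨m - 3, by omega⟩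
      obtain ⟨t, ht⟩ : ∃ t, n = 9 + t := ⟨n - 9, by omega⟩
      rw [hs, ht]
      calc 5 ^ (3 + s + (9 + t)) = 5 ^ 12 * (5 ^ s * 5 ^ t) := by
            rw [← pow_add, ← pow_add]; ring_nf
        _ < 2 ^ 28 * (5 ^ s * 5 ^ t) := Nat.mul_lt_mul_of_pos_right (by norm_num) (by positivity)
        _ ≤ 2 ^ 28 * ((2 ^ 9) ^ s * (2 ^ 3) ^ t) := by
          refine Nat.mul_le_mul_left _ (Nat.mul_le_mul ?_ ?_) <;>
            exact Nat.pow_le_pow_left (by norm_num) _
        _ = 2 ^ (28 + 9 * s + 3 * t) := by rw [← pow_mul, ← pow_mul, ← pow_add, ← pow_add]; ring_nf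
        _ ≤ 2 ^ ((3 + s) * (9 + t) + 1) := Nat.pow_le_pow_right (by norm_num) (by nlinarith)
  · have hm2 : m = 2 ∧ 17 ≤ n := by omega
    obtain ⟨A, c, hc, hA, hF⟩ := upper (X := X) (fun l => if l = i then 1 / 12 else 11 / 12)
      (fun l => by split_ifs <;> norm_num) (by
        rw [huniv, Finset.sum_pair hij, if_pos rfl, if_neg hij.symm]
        norm_num)
    obtain ⟨H, h1, h2⟩ := sepLE_of A c hc hF
    refine ⟨H, h1.trans ?_, h2⟩
    rw [huniv, Finset.prod_pair hij, if_pos rfl, if_neg hij.symm, hk, ← hm, ← hn, hm2.1] at hA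
    norm_num at hA
    have h3 : (0 : ℝ) ≤ (13 / 11) ^ n := by positivity
    have h4 : (A.card : ℝ) ≤ 48 * (35 / 11) ^ n := by nlinarith
    have h5 : (48 : ℝ) * (35 / 11) ^ n < 4 ^ n := by
      obtain ⟨t, ht⟩ : ∃ t, n = 17 + t := ⟨n - 17, by omega⟩
      rw [ht, pow_add, pow_add, ← mul_assoc]
      have h6 : (48 : ℝ) * (35 / 11) ^ 17 < 4 ^ 17 := by norm_num
      have h7 : ((35 : ℝ) / 11) ^ t ≤ 4 ^ t := pow_le_pow_left₀ (by norm_num) (by norm_num) t
      have h8 : (0 : ℝ) < (35 / 11) ^ t := by positivity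
      calc (48 : ℝ) * (35 / 11) ^ 17 * (35 / 11) ^ t < 4 ^ 17 * (35 / 11) ^ t :=
            mul_lt_mul_of_pos_right h6 h8
        _ ≤ 4 ^ 17 * 4 ^ t := mul_le_mul_of_nonneg_left h7 (by positivity)
    have h6 : A.card < 4 ^ n := by exact_mod_cast h4.trans_lt h5
    rw [finrank_forms, huniv, Finset.prod_pair hij, ← hm, ← hn, hm2.1, pow_mul]
    norm_num
    omega


/-- **Main theorem.** Separation of the faces of the unit ball of the space of `k`-linear forms on
arbitrary finite-dimensional normed spaces from the origin. See the head of the file. -/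
theorem result :
    -- (1) the upper bound, for arbitrary finite-dimensional normed spaces
    (∀ (ι : Type) [Fintype ι] [Nonempty ι] (X : ι → Type) [∀ i, NormedAddCommGroup (X i)]
      [∀ i, NormedSpace ℝ (X i)] [∀ i, FiniteDimensional ℝ (X i)] (r : ι → ℝ),
      (∀ i, 0 < r i) → ∑ i, r i ≤ 1 →
      ∃ (A : Finset (∀ i, X i)) (c : ℝ), 0 < c ∧
        2 ^ (Fintype.card ι - 1) * (A.card : ℝ) ≤
          ∏ i, ((2 / r i + 1) ^ finrank ℝ (X i) - (2 / r i - 1) ^ finrank ℝ (X i)) ∧
        SepLE (closedBall (0 : ContinuousMultilinearMap ℝ X ℝ) 1) 0 A.card ∧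
        ∀ F : Set (ContinuousMultilinearMap ℝ X ℝ), Convex ℝ F → F.Nonempty → F ⊆ sphere 0 1 →
          ∃ a ∈ A, ∀ T ∈ F, c < T a) ∧
    -- (2) the exact value for the spaces `ℓ_∞^κ`
    (∀ (ι : Type) [Fintype ι] [Nonempty ι] (κ : ι → Type) [∀ i, Fintype (κ i)]
      [∀ i, Nonempty (κ i)],
      IsLeast {n | SepLE (closedBall (0 : ContinuousMultilinearMap ℝ (fun i => κ i → ℝ) ℝ) 1) 0 n}
        (2 ^ ((∑ i, Fintype.card (κ i)) - Fintype.card ι + 1))) ∧
    -- (3) the inequality of the problem, strictly, with finitely many exceptional dimensions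
    (∀ (ι : Type) [Fintype ι] [Nonempty ι] (X : ι → Type) [∀ i, NormedAddCommGroup (X i)]
      [∀ i, NormedSpace ℝ (X i)] [∀ i, FiniteDimensional ℝ (X i)],
      finrank ℝ (ContinuousMultilinearMap ℝ X ℝ) = ∏ i, finrank ℝ (X i) ∧
      ((∀ i, 2 ≤ finrank ℝ (X i)) →
        (5 ≤ Fintype.card ι ∨
          (Fintype.card ι = 4 ∧ 10 ≤ ∑ i, finrank ℝ (X i)) ∨
          (Fintype.card ι = 3 ∧ 12 ≤ ∑ i, finrank ℝ (X i)) ∨
          (Fintype.card ι = 3 ∧ ∀ i, 3 ≤ finrank ℝ (X i)) ∨
          (Fintype.card ι = 2 ∧ ∃ i j, i ≠ j ∧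
            ((4 ≤ finrank ℝ (X i) ∧ 5 ≤ finrank ℝ (X j)) ∨
              (3 ≤ finrank ℝ (X i) ∧ 9 ≤ finrank ℝ (X j)) ∨ 17 ≤ finrank ℝ (X j)))) →
        ∃ n < 2 ^ finrank ℝ (ContinuousMultilinearMap ℝ X ℝ),
          SepLE (closedBall (0 : ContinuousMultilinearMap ℝ X ℝ) 1) 0 n)) := by
  classical
  refine ⟨?_, ?_, ?_⟩
  · intro ι _ _ X _ _ _ r hr hsum
    obtain ⟨A, c, hc, hA, hF⟩ := upper (X := X) r hr hsum
    exact ⟨A, c, hc, hA, sepLE_of A c hc hF, hF⟩
  · intro ι _ _ κ _ _
    exact ⟨(exact_linf _).2 le_rfl, fun n hn => (exact_linf n).1 hn⟩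
  · intro ι _ _ X _ _ _
    refine ⟨finrank_forms, fun h2 h => ?_⟩
    refine ⟨2 ^ finrank ℝ (ContinuousMultilinearMap ℝ X ℝ) - 1, ?_, ?_⟩
    · have : 0 < 2 ^ finrank ℝ (ContinuousMultilinearMap ℝ X ℝ) := by positivity
      omega
    · rcases h with h | ⟨h, hs⟩ | ⟨h, hs⟩ | ⟨h, hs⟩ | ⟨h, i, j, hij, hs⟩
      · refine card_equal (num_general 2 (by norm_num) 0 _ h2 (by omega)
          (slope 2 _ le_rfl (by omega)) (start2 _ h) ?_)
        have := Finset.sum_le_sum fun i (_ : i ∈ Finset.univ) => h2 i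
        rw [Finset.sum_const, Finset.card_univ, smul_eq_mul, mul_comm] at this
        exact this
      · refine card_equal (num_general 2 (by norm_num) 2 _ h2 (by omega)
          (slope 2 _ le_rfl (by omega)) ?_ ?_)
        · rw [h]
          norm_num
        · rw [h]
          exact hs
      · refine card_equal (num_general 2 (by norm_num) 6 _ h2 (by omega)
          (slope 2 _ le_rfl (by omega)) ?_ ?_)
        · rw [h]
          norm_num
        · rw [h]
          exact hs
      · refine card_equal (num_general 3 (by norm_num) 0 _ hs (by omega)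
          (slope 3 _ (by norm_num) (by omega)) (start3 _ (by omega)) ?_)
        have := Finset.sum_le_sum fun i (_ : i ∈ Finset.univ) => hs i
        rw [Finset.sum_const, Finset.card_univ, smul_eq_mul, mul_comm] at this
        exact this
      · exact card_two h i j hij (by
          rcases hs with hs | hs | hs
          · exact Or.inl hs
          · exact Or.inr (Or.inl hs)
          · exact Or.inr (Or.inr ⟨h2 i, hs⟩))

end Pool.Agent.Results.MP_5e7226_co.MultilinearForms
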