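import Mathlib

/-!
# MP_5e7226_co: the unit balls of spaces of polynomials with the sup norm

Let `n ≥ 1`, let `u_1, …, u_d` be linearly independent trigonometric polynomials of degree at most
`n`, or linearly independent algebraic polynomials of degree at most `n`, and let `K ⊂ 𝔼^d` be the
convex body of the `c` with `|∑ c_i u_i| ≤ 1` on `ℝ`, or on `[-1, 1]`: the unit ball of the span of
the `u_i` in the sup norm. Its polar is the convex hull of `± u(t)`, a curve and its opposite.

1. Trigonometric polynomials: `s(K, 0) ≤ 4 n + 2`; if `u_1, …, u_d` is a basis of the space of all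
   trigonometric polynomials of degree at most `n`, so `d = 2 n + 1`, then `s(K, 0) = 2 d` exactly.
2. Algebraic polynomials on `[-1, 1]`: `s(K, 0) ≤ 2 n + 2`; if `u_1, …, u_d` is a basis of the space
   of all polynomials of degree at most `n`, so `d = n + 1`, then `s(K, 0) = 2 d` exactly.

So the assertion of the problem holds for all these `(K, 0)` with `d ≥ 3` for the full spaces
(`2 d < 2^d`), and for all subspaces of dimension `d` with `2^d > 4 n + 2`, or `2^d > 2 n + 2`.

The proof. The functions of a face have a common point `x` with the common value `± 1`. By the lemma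
of M. Riesz (proved here by counting zeros) a trigonometric polynomial `f` of degree `n` with
`f(x) = 1 = ‖f‖` is `≥ cos n (t - x)` for `|t - x| ≤ π / n`. So `2 n + 1` equidistant points `t` and
the functionals `± f(t)` suffice; for algebraic polynomials put `x = cos θ`, and `n + 1` points suffice
for `[0, π]`. Lower bounds: if some `f` in the space has `‖f‖ = 1`, `f(x) = 1`, `f(y) = -1` then no
hyperplane separates the faces of both `x` and `y`. This happens if `y - x = j π / n`, `0 < j < 2 n`: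
take `cos n (t - x)` for odd `j` and `1 - 2 F(t - y)`, `F` the Fejér kernel, for even `j`. So
`2 n` hyperplanes could suffice for the sign `+` only if their domains, which are open, partitioned
the line. In the algebraic case the extremal points of the Chebyshev polynomial are pairwise related
in this way, by Chebyshev's polynomial and symmetrised Fejér kernels (Bessel's inequality).
-/

open Metric Module Set Polynomial
open scoped BoundedContinuousFunction


namespace Pool.Agent.Results.MP_5e7226_co.SupNormPolynomials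

/-! ### Real functions which are trigonometric polynomials of degree at most `n` -/

/-- `h` is a trigonometric polynomial of degree at most `n`. -/
def IsTrig (n : ℕ) (h : ℝ → ℝ) : Prop :=
  ∃ P : ℂ[X], P.natDegree ≤ 2 * n ∧
    ∀ t : ℝ, P.eval (Complex.exp (t * Complex.I)) = Complex.exp (n * t * Complex.I) * (h t : ℂ)

theorem IsTrig.zero (n : ℕ) : IsTrig n fun _ => 0 := ⟨0, by simp, by simp⟩

theorem IsTrig.add {n : ℕ} {f g : ℝ → ℝ} (hf : IsTrig n f) (hg : IsTrig n g) :
    IsTrig n fun t => f t + g t := by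
  obtain ⟨P, hP, hP2⟩ := hf
  obtain ⟨Q, hQ, hQ2⟩ := hg
  refine ⟨P + Q, (natDegree_add_le _ _).trans (max_le hP hQ), fun t => ?_⟩
  rw [eval_add, hP2, hQ2]
  push_cast
  ring

theorem IsTrig.smul {n : ℕ} {f : ℝ → ℝ} (hf : IsTrig n f) (c : ℝ) :
    IsTrig n fun t => c * f t := by
  obtain ⟨P, hP, hP2⟩ := hf
  refine ⟨C (c : ℂ) * P, (natDegree_C_mul_le _ _).trans hP, fun t => ?_⟩
  rw [eval_mul, eval_C, hP2]
  push_cast
  ring

theorem IsTrig.sum {n : ℕ} {ι : Type} (s : Finset ι) (f : ι → ℝ → ℝ)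
    (h : ∀ i ∈ s, IsTrig n (f i)) : IsTrig n fun t => ∑ i ∈ s, f i t := by
  classical
  induction s using Finset.induction_on with
  | empty => simpa using IsTrig.zero n
  | insert i s hi ih =>
    simp only [Finset.sum_insert hi]
    exact (h i (Finset.mem_insert_self _ _)).add
      (ih fun j hj => h j (Finset.mem_insert_of_mem hj))

theorem isTrig_cos {n k : ℕ} (hk : k ≤ n) (a : ℝ) : IsTrig n fun t => Real.cos (k * t - a) := by
  refine ⟨C (Complex.exp (-(a * Complex.I)) / 2) * X ^ (n + k) +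
    C (Complex.exp (a * Complex.I) / 2) * X ^ (n - k), ?_, fun t => ?_⟩
  · refine (natDegree_add_le _ _).trans (max_le ?_ ?_)
    · exact (natDegree_C_mul_X_pow_le _ _).trans (by omega)
    · exact (natDegree_C_mul_X_pow_le _ _).trans (by omega)
  · have e1 : Complex.exp (t * Complex.I) ^ (n + k) =
        Complex.exp (n * t * Complex.I) * Complex.exp (k * t * Complex.I) := by
      rw [← Complex.exp_nat_mul, ← Complex.exp_add]
      congr 1
      push_cast
      ring
    have e2 : Complex.exp (t * Complex.I) ^ (n - k) =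
        Complex.exp (n * t * Complex.I) * Complex.exp (-(k * t * Complex.I)) := by
      rw [← Complex.exp_nat_mul, ← Complex.exp_add, Nat.cast_sub hk]
      congr 1
      ring
    have e3 : Complex.exp ((k * t - a) * Complex.I) =
        Complex.exp (-(a * Complex.I)) * Complex.exp (k * t * Complex.I) := by
      rw [← Complex.exp_add]
      congr 1
      ring
    have e4 : Complex.exp (-(k * t - a) * Complex.I) =
        Complex.exp (a * Complex.I) * Complex.exp (-(k * t * Complex.I)) := by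
      rw [← Complex.exp_add]
      congr 1
      ring
    simp only [eval_add, eval_mul, eval_C, eval_pow, eval_X, e1, e2]
    rw [Complex.ofReal_cos]
    push_cast
    rw [Complex.cos, e3, e4]
    ring

theorem IsTrig.translate {n : ℕ} {f : ℝ → ℝ} (hf : IsTrig n f) (a : ℝ) :
    IsTrig n fun t => f (a + t) := by
  obtain ⟨P, hP, hP2⟩ := hf
  refine ⟨C (Complex.exp (-(n * a * Complex.I))) *
    P.comp (C (Complex.exp (a * Complex.I)) * X), ?_, fun t => ?_⟩
  · refine (natDegree_C_mul_le _ _).trans ?_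
    refine natDegree_comp_le.trans ?_
    calc P.natDegree * (C (Complex.exp (a * Complex.I)) * X : ℂ[X]).natDegree
        ≤ P.natDegree * 1 := Nat.mul_le_mul_left _ (by
          exact (natDegree_C_mul_le _ _).trans natDegree_X_le)
      _ ≤ 2 * n := by omega
  · rw [eval_mul, eval_C, eval_comp, eval_mul, eval_C, eval_X, ← Complex.exp_add,
      show (a : ℂ) * Complex.I + t * Complex.I = ((a + t : ℝ) : ℂ) * Complex.I by push_cast; ring,
      hP2, ← mul_assoc, ← Complex.exp_add]
    congr 2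
    push_cast
    ring

theorem IsTrig.reflect {n : ℕ} {f : ℝ → ℝ} (hf : IsTrig n f) : IsTrig n fun t => f (-t) := by
  obtain ⟨P, hP, hP2⟩ := hf
  refine ⟨Polynomial.reflect (2 * n) P, natDegree_reflect_le.trans (by omega), fun t => ?_⟩
  have hx : Complex.exp (-t * Complex.I) ≠ 0 := Complex.exp_ne_zero _
  let _ : Invertible (Complex.exp (-t * Complex.I)) := invertibleOfNonzero hx
  have key := eval₂_reflect_mul_pow (RingHom.id ℂ) (Complex.exp (-t * Complex.I)) (2 * n) P hP
  rw [invOf_eq_inv, ← Complex.exp_neg] at key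
  have e1 : -(-(t : ℂ) * Complex.I) = t * Complex.I := by ring
  rw [e1] at key
  have h2 := hP2 (-t)
  push_cast at h2
  rw [← eval₂_id, ← key] at h2
  have h3 : eval (Complex.exp (t * Complex.I)) (Polynomial.reflect (2 * n) P) *
      Complex.exp (-t * Complex.I) ^ (2 * n) =
      Complex.exp (n * -t * Complex.I) * (f (-t) : ℂ) := h2
  have e2 : Complex.exp (-t * Complex.I) ^ (2 * n) =
      Complex.exp (n * -t * Complex.I) * Complex.exp (n * -t * Complex.I) := by
    rw [← Complex.exp_nat_mul, ← Complex.exp_add]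
    congr 1
    push_cast
    ring
  rw [e2] at h3
  have e3 : Complex.exp (n * t * Complex.I) * Complex.exp (n * -t * Complex.I) = 1 := by
    rw [← Complex.exp_add]
    simp
  have e4 : Complex.exp (n * -t * Complex.I) ≠ 0 := Complex.exp_ne_zero _
  apply mul_right_cancel₀ e4
  apply mul_right_cancel₀ e4
  calc eval (Complex.exp (t * Complex.I)) (Polynomial.reflect (2 * n) P) *
      Complex.exp (n * -t * Complex.I) * Complex.exp (n * -t * Complex.I)
      = Complex.exp (n * -t * Complex.I) * (f (-t) : ℂ) := by rw [mul_assoc]; exact h3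
    _ = (Complex.exp (n * t * Complex.I) * Complex.exp (n * -t * Complex.I)) *
        (Complex.exp (n * -t * Complex.I) * (f (-t) : ℂ)) := by rw [e3, one_mul]
    _ = _ := by ring

/-- A trigonometric polynomial of degree at most `n` with more than `2 n` zeros in a period
vanishes. -/
theorem IsTrig.eq_zero {n : ℕ} {h : ℝ → ℝ} (hh : IsTrig n h) (Z : Finset ℝ)
    (hZ : ∀ z ∈ Z, 0 ≤ z ∧ z < 2 * Real.pi) (hz : ∀ z ∈ Z, h z = 0) (hcard : 2 * n < Z.card)
    (t : ℝ) : h t = 0 := by
  classical
  obtain ⟨P, hP, hP2⟩ := hh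
  have hP0 : P = 0 := by
    by_contra hne
    have hinj : Set.InjOn (fun z : ℝ => Complex.exp (z * Complex.I)) (Z : Set ℝ) := by
      intro z hz' w hw' hzw
      obtain ⟨m, hm⟩ := Complex.exp_eq_exp_iff_exists_int.1 hzw
      have hm2 : (z : ℂ) = ((w + m * (2 * Real.pi) : ℝ) : ℂ) := by
        have hI := Complex.I_ne_zero
        apply mul_right_cancel₀ hI
        rw [hm]
        push_cast
        ring
      have hm3 : z = w + m * (2 * Real.pi) := by exact_mod_cast hm2
      obtain ⟨a1, a2⟩ := hZ z hz'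
      obtain ⟨b1, b2⟩ := hZ w hw'
      have hpi := Real.pi_pos
      have h1 : (m : ℝ) < 1 := by
        by_contra! hge
        nlinarith
      have h2 : (-1 : ℝ) < m := by
        by_contra! hle
        nlinarith
      have h3 : m < 1 := by exact_mod_cast h1
      have h4 : -1 < m := by exact_mod_cast h2
      have h5 : m = 0 := by omega
      rw [h5] at hm3
      simpa using hm3
    have hsub : (Z.image fun z : ℝ => Complex.exp (z * Complex.I)) ⊆ P.roots.toFinset := by
      intro w hw
      obtain ⟨z, hzZ, rfl⟩ := Finset.mem_image.1 hw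
      rw [Multiset.mem_toFinset, mem_roots hne, IsRoot.def, hP2, hz z hzZ]
      simp
    have h1 := Finset.card_le_card hsub
    rw [Finset.card_image_of_injOn hinj] at h1
    have h2 := (Multiset.toFinset_card_le P.roots).trans (card_roots' P)
    omega
  have h1 := hP2 t
  rw [hP0, eval_zero] at h1
  have h2 := (mul_eq_zero.1 h1.symm).resolve_left (Complex.exp_ne_zero _)
  exact_mod_cast h2

/-- zeros between alternating signs -/
theorem exists_zeros (h : ℝ → ℝ) (hc : Continuous h) (p : ℕ → ℝ) (N : ℕ)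
    (hp : ∀ i < N, p i < p (i + 1)) (hs : ∀ i ≤ N, 0 < (-1) ^ i * h (p i)) :
    ∃ Z : Finset ℝ, Z.card = N ∧ ∀ z ∈ Z, h z = 0 ∧ p 0 < z ∧ z < p N := by
  classical
  have hz : ∀ i, ∃ z, i < N → (p i < z ∧ z < p (i + 1) ∧ h z = 0) := by
    intro i
    by_cases hi : i < N
    · have h1 := hs i hi.le
      have h2 := hs (i + 1) hi
      rw [pow_succ] at h2
      have hcont := hc.continuousOn (s := Set.Icc (p i) (p (i + 1)))
      obtain ⟨z, hz1, hz2⟩ : (0 : ℝ) ∈ h '' Set.Ioo (p i) (p (i + 1)) := by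
        rcases Nat.even_or_odd i with he | ho
        · rw [he.neg_one_pow] at h1 h2
          exact intermediate_value_Ioo' (hp i hi).le hcont ⟨by linarith, by linarith⟩
        · rw [ho.neg_one_pow] at h1 h2
          exact intermediate_value_Ioo (hp i hi).le hcont ⟨by linarith, by linarith⟩
      exact ⟨z, fun _ => ⟨hz1.1, hz1.2, hz2⟩⟩
    · exact ⟨0, fun h => absurd h hi⟩
  choose z hz using hz
  have hmono : ∀ i j, i ≤ j → j ≤ N → p i ≤ p j := by
    intro i j hij
    induction j, hij using Nat.le_induction with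
    | base => intro _; exact le_rfl
    | succ j hj ih => intro hjN; exact (ih (by omega)).trans (hp j (by omega)).le
  have hinj : Set.InjOn z (Finset.range N : Set ℕ) := by
    have key : ∀ i j, i < j → j < N → z i < z j := by
      intro i j hij hj
      calc z i < p (i + 1) := (hz i (by omega)).2.1
        _ ≤ p j := hmono _ _ hij hj.le
        _ < z j := (hz j hj).1
    intro i hi j hj hij
    rw [Finset.coe_range, Set.mem_Iio] at hi hj
    rcases lt_trichotomy i j with h1 | h1 | h1
    · exact absurd hij (key i j h1 hj).ne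
    · exact h1
    · exact absurd hij (key j i h1 hi).ne'
  refine ⟨(Finset.range N).image z, ?_, ?_⟩
  · rw [Finset.card_image_of_injOn hinj, Finset.card_range]
  · intro w hw
    obtain ⟨i, hi, rfl⟩ := Finset.mem_image.1 hw
    have hi' := Finset.mem_range.1 hi
    obtain ⟨h1, h2, h3⟩ := hz i hi'
    exact ⟨h3, (hmono 0 i (Nat.zero_le _) hi'.le).trans_lt h1,
      h2.trans_le (hmono (i + 1) N hi' le_rfl)⟩

/-- M. Riesz: comparison with the cosine next to a maximum, right of the maximum. -/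
theorem riesz_aux {n : ℕ} (hn : 0 < n) {f : ℝ → ℝ} (hf : IsTrig n f) (hc : Continuous f)
    (hb : ∀ t, |f t| ≤ 1) (h0 : f 0 = 1) {τ : ℝ} (h1 : 0 < τ) (h2 : τ < Real.pi / n) :
    Real.cos (n * τ) ≤ f τ := by
  by_contra! hlt
  have hn' : (0 : ℝ) < n := by exact_mod_cast hn
  have hpi := Real.pi_pos
  obtain ⟨δ, hδ0, hδ1, hδ2, hδ3⟩ : ∃ δ : ℝ, 0 < δ ∧ n * δ < Real.pi ∧ τ < Real.pi / n - δ ∧
      (1 + Real.cos (n * δ)) / 2 * f τ < Real.cos (n * (τ + δ)) := by
    have e1 : ∀ᶠ δ : ℝ in nhdsWithin 0 (Set.Ioi 0), n * δ < Real.pi := by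
      refine Filter.Tendsto.eventually_lt_const (u := Real.pi) (v := n * 0) (by simpa using hpi) ?_
      exact ((continuous_const.mul continuous_id).tendsto 0).mono_left nhdsWithin_le_nhds
    have e2 : ∀ᶠ δ : ℝ in nhdsWithin 0 (Set.Ioi 0), τ < Real.pi / n - δ := by
      refine Filter.Tendsto.eventually_const_lt (u := τ) (v := Real.pi / n - 0) (by simpa using h2) ?_
      exact ((continuous_const.sub continuous_id).tendsto 0).mono_left nhdsWithin_le_nhds
    have e3 : ∀ᶠ δ : ℝ in nhdsWithin 0 (Set.Ioi 0),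
        (1 + Real.cos (n * δ)) / 2 * f τ - Real.cos (n * (τ + δ)) < 0 := by
      refine Filter.Tendsto.eventually_lt_const (u := 0)
        (v := (1 + Real.cos (n * 0)) / 2 * f τ - Real.cos (n * (τ + 0))) ?_ ?_
      · simp only [mul_zero, Real.cos_zero, add_zero]
        linarith
      · have : Continuous fun δ : ℝ => (1 + Real.cos (n * δ)) / 2 * f τ
            - Real.cos (n * (τ + δ)) := by fun_prop
        exact (this.tendsto 0).mono_left nhdsWithin_le_nhds
    have e4 : ∀ᶠ δ : ℝ in nhdsWithin 0 (Set.Ioi 0), 0 < δ := self_mem_nhdsWithin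
    obtain ⟨δ, h3, h4, h5, h6⟩ := (e1.and (e2.and (e3.and e4))).exists
    exact ⟨δ, h6, h3, h4, by linarith⟩
  set lam : ℝ := (1 + Real.cos (n * δ)) / 2 with hlam
  have hcos1 : Real.cos (n * δ) < 1 := by
    have := Real.cos_lt_cos_of_nonneg_of_le_pi (le_refl (0 : ℝ)) hδ1.le (mul_pos hn' hδ0)
    rwa [Real.cos_zero] at this
  have hlam0 : 0 ≤ lam := by
    have := Real.neg_one_le_cos (n * δ)
    rw [hlam]
    linarith
  have hlam1 : lam < 1 := by
    rw [hlam]
    linarith
  let h : ℝ → ℝ := fun t => lam * f t + (-1) * Real.cos (n * t - -(n * δ))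
  have hh : IsTrig n h := (hf.smul lam).add ((isTrig_cos le_rfl _).smul (-1))
  have hhc : Continuous h := by fun_prop
  let p : ℕ → ℝ := fun i => match i with
    | 0 => 0
    | 1 => τ
    | (i + 2) => (i + 1) * (Real.pi / n) - δ
  have hstep : 0 < Real.pi / n := div_pos hpi hn'
  obtain ⟨Z, hZc, hZ⟩ := exists_zeros h hhc p (2 * n + 1) (by
      intro i _
      match i with
      | 0 => exact h1
      | 1 =>
        show τ < ((0 : ℕ) + 1 : ℝ) * (Real.pi / n) - δ
        push_cast
        linarith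
      | (i + 2) =>
        show ((i : ℕ) + 1 : ℝ) * (Real.pi / n) - δ < (((i + 1 : ℕ) : ℝ) + 1) * (Real.pi / n) - δ
        push_cast
        linarith) (by
      intro i _
      match i with
      | 0 =>
        show 0 < (-1) ^ 0 * (lam * f 0 + (-1) * Real.cos (n * 0 - -(n * δ)))
        rw [h0]
        simp only [mul_zero, zero_sub, neg_neg]
        rw [hlam]
        linarith
      | 1 =>
        show 0 < (-1) ^ 1 * (lam * f τ + (-1) * Real.cos (n * τ - -(n * δ)))
        rw [show (n : ℝ) * τ - -(n * δ) = n * (τ + δ) by ring]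
        linarith
      | (i + 2) =>
        show 0 < (-1) ^ (i + 2) * (lam * f (((i : ℕ) + 1 : ℝ) * (Real.pi / n) - δ) +
          (-1) * Real.cos (n * (((i : ℕ) + 1 : ℝ) * (Real.pi / n) - δ) - -(n * δ)))
        have e : (n : ℝ) * (((i : ℕ) + 1 : ℝ) * (Real.pi / n) - δ) - -(n * δ) =
            ((i + 1 : ℕ) : ℝ) * Real.pi := by
          field_simp
          push_cast
          ring
        rw [e, Real.cos_nat_mul_pi]
        have h3 := hb (((i : ℕ) + 1 : ℝ) * (Real.pi / n) - δ)
        rw [abs_le] at h3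
        set y := f (((i : ℕ) + 1 : ℝ) * (Real.pi / n) - δ)
        have h5 : -lam ≤ lam * y := by nlinarith [h3.1]
        have h6 : lam * y ≤ lam := by nlinarith [h3.2]
        rcases Nat.even_or_odd i with he | ho
        · rw [pow_succ, pow_succ, he.neg_one_pow]
          linarith
        · rw [pow_succ, pow_succ, ho.neg_one_pow]
          linarith)
  have hpN : p (2 * n + 1) = 2 * Real.pi - δ := by
    obtain ⟨m, rfl⟩ : ∃ m, n = m + 1 := ⟨n - 1, by omega⟩
    show (((2 * m + 1 : ℕ) : ℝ) + 1) * (Real.pi / ((m + 1 : ℕ) : ℝ)) - δ = 2 * Real.pi - δ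
    push_cast
    field_simp
    ring
  have hzero := hh.eq_zero Z (fun z hz => ?_) (fun z hz => (hZ z hz).1) (by omega) 0
  · have h4 : h 0 = lam * f 0 + (-1) * Real.cos (n * 0 - -(n * δ)) := rfl
    rw [h4, h0] at hzero
    simp only [mul_zero, zero_sub, neg_neg] at hzero
    rw [hlam] at hzero
    linarith
  · obtain ⟨-, h4, h5⟩ := hZ z hz
    rw [hpN] at h5
    have h6 : p 0 = 0 := rfl
    rw [h6] at h4
    exact ⟨h4.le, by linarith⟩

/-- M. Riesz: comparison with the cosine next to a maximum. -/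
theorem riesz {n : ℕ} (hn : 0 < n) {f : ℝ → ℝ} (hf : IsTrig n f) (hc : Continuous f)
    (hb : ∀ t, |f t| ≤ 1) {a : ℝ} (h0 : f a = 1) {t : ℝ} (h2 : |t - a| ≤ Real.pi / n) :
    Real.cos (n * (t - a)) ≤ f t := by
  have hn' : (0 : ℝ) < n := by exact_mod_cast hn
  rcases h2.eq_or_lt with h3 | h3
  · have : Real.cos (n * (t - a)) = -1 := by
      rcases eq_or_eq_neg_of_abs_eq h3 with h4 | h4
      · rw [h4, mul_div_cancel₀ _ hn'.ne', Real.cos_pi]
      · rw [h4, mul_neg, mul_div_cancel₀ _ hn'.ne', Real.cos_neg, Real.cos_pi]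
    rw [this]
    exact (abs_le.1 (hb t)).1
  · rcases lt_trichotomy t a with h4 | h4 | h4
    · have key := riesz_aux hn (hf.translate a).reflect (by fun_prop) (fun s => hb _)
        (by simpa using h0) (τ := a - t) (by linarith) (by
          rw [abs_sub_comm, abs_of_pos (by linarith)] at h3
          exact h3)
      have e1 : a + -(a - t) = t := by ring
      rw [e1] at key
      rw [show (n : ℝ) * (t - a) = -(n * (a - t)) by ring, Real.cos_neg]
      exact key
    · rw [h4, h0, sub_self, mul_zero, Real.cos_zero]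
    · have key := riesz_aux hn (hf.translate a) (by fun_prop) (fun s => hb _)
        (by simpa using h0) (τ := t - a) (by linarith) (by
          rw [abs_of_pos (by linarith)] at h3
          exact h3)
      have e1 : a + (t - a) = t := by ring
      rw [e1] at key
      exact key


/-! ### Faces and separation -/

section Faces

variable {V : Type} [NormedAddCommGroup V] [NormedSpace ℝ V]

/-- `F` is a face of `K`: the intersection of `K` with a supporting hyperplane. -/
def IsFace (K F : Set V) : Prop :=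
  ∃ (f : V →L[ℝ] ℝ) (c : ℝ), f ≠ 0 ∧ (∀ x ∈ K, f x ≤ c) ∧ F = {x | x ∈ K ∧ f x = c} ∧ F.Nonempty

/-- The hyperplane `{x | h.1 x = h.2}` strictly separates `F` from `o`. -/
def Separates (h : (V →L[ℝ] ℝ) × ℝ) (F : Set V) (o : V) : Prop :=
  h.1 ≠ 0 ∧ (((∀ x ∈ F, h.2 < h.1 x) ∧ h.1 o < h.2) ∨ ((∀ x ∈ F, h.1 x < h.2) ∧ h.2 < h.1 o))

/-- `s(K, o) ≤ n`: there are at most `n` hyperplanes such that every face of `K` is strictly
separated from `o` by one of them. -/
def SepLE (K : Set V) (o : V) (n : ℕ) : Prop :=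
  ∃ H : Finset ((V →L[ℝ] ℝ) × ℝ), H.card ≤ n ∧ ∀ F, IsFace K F → ∃ h ∈ H, Separates h F o

/-- The positively oriented functional of a hyperplane not through the origin. -/
noncomputable def orient (h : (V →L[ℝ] ℝ) × ℝ) : V →L[ℝ] ℝ := if 0 < h.2 then h.1 else -h.1

theorem orient_pos {h : (V →L[ℝ] ℝ) × ℝ} {F : Set V} (hs : Separates h F 0) :
    ∀ x ∈ F, |h.2| < orient h x := by
  obtain ⟨-, ⟨h1, h2⟩ | ⟨h1, h2⟩⟩ := hs
  · rw [map_zero] at h2
    intro x hx
    rw [orient, if_pos h2, abs_of_pos h2]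
    exact h1 x hx
  · rw [map_zero] at h2
    intro x hx
    rw [orient, if_neg (not_lt.2 h2.le), abs_of_neg h2]
    have := h1 x hx
    rw [neg_apply]
    linarith

end Faces

/-! ### Convex bodies given by functions -/

section General

variable {d : ℕ}

/-- The set of the coefficient vectors `c` with `|∑ c_i u_i| ≤ 1` on `D`. -/
def body (D : Set ℝ) (u : Fin d → ℝ → ℝ) : Set (EuclideanSpace ℝ (Fin d)) :=
  {c | ∀ x ∈ D, |∑ i, c i * u i x| ≤ 1}

/-- the functional `c ↦ ∑ c_i u_i(x)` -/
noncomputable def ev (u : Fin d → ℝ → ℝ) (x : ℝ) : EuclideanSpace ℝ (Fin d) →L[ℝ] ℝ :=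
  ∑ i, u i x • EuclideanSpace.proj i

theorem ev_apply (u : Fin d → ℝ → ℝ) (x : ℝ) (c : EuclideanSpace ℝ (Fin d)) :
    ev u x c = ∑ i, c i * u i x := by
  rw [ev, sum_apply]
  refine Finset.sum_congr rfl fun i _ => ?_
  rw [smul_apply, smul_eq_mul, mul_comm]
  rfl

theorem mem_body {D : Set ℝ} {u : Fin d → ℝ → ℝ} {c : EuclideanSpace ℝ (Fin d)} :
    c ∈ body D u ↔ ∀ x ∈ D, |ev u x c| ≤ 1 := by
  simp only [body, Set.mem_ofPred_eq, ev_apply]

theorem body_convex (D : Set ℝ) (u : Fin d → ℝ → ℝ) : Convex ℝ (body D u) := by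
  intro a ha b hb s t hs ht hst
  rw [mem_body] at *
  intro x hx
  rw [map_add, map_smul, map_smul, smul_eq_mul, smul_eq_mul]
  calc |s * ev u x a + t * ev u x b| ≤ |s * ev u x a| + |t * ev u x b| := abs_add_le _ _
    _ = s * |ev u x a| + t * |ev u x b| := by
      rw [abs_mul, abs_mul, abs_of_nonneg hs, abs_of_nonneg ht]
    _ ≤ s * 1 + t * 1 := by
      gcongr
      · exact ha x hx
      · exact hb x hx
    _ = 1 := by linarith

theorem face_convex {D : Set ℝ} {u : Fin d → ℝ → ℝ} {F : Set (EuclideanSpace ℝ (Fin d))}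
    (h : IsFace (body D u) F) : Convex ℝ F := by
  obtain ⟨f, c, hf, hle, rfl, hne⟩ := h
  have : {x | x ∈ body D u ∧ f x = c} = body D u ∩ {x | f x = c} := rfl
  rw [this]
  exact (body_convex _ _).inter (convex_hyperplane f.isLinear c)

/-- The hypotheses on the domain: `C` is a compact norming set for `D`. -/
structure Dom (D C : Set ℝ) (u : Fin d → ℝ → ℝ) : Prop where
  compact : IsCompact C
  nonempty : C.Nonempty
  sub : C ⊆ D
  cont : ∀ i, Continuous (u i)
  norm : ∀ x ∈ D, ∃ y ∈ C, ∀ i, u i x = u i y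

variable {D C : Set ℝ} {u : Fin d → ℝ → ℝ}

theorem Dom.mem_body (hD : Dom D C u) {c : EuclideanSpace ℝ (Fin d)} :
    c ∈ body D u ↔ ∀ x ∈ C, |ev u x c| ≤ 1 := by
  rw [SupNormPolynomials.mem_body]
  refine ⟨fun h x hx => h x (hD.sub hx), fun h x hx => ?_⟩
  obtain ⟨y, hy, hy2⟩ := hD.norm x hx
  have : ev u x c = ev u y c := by
    simp only [ev_apply, hy2]
  rw [this]
  exact h y hy

theorem continuous_ev (hu : ∀ i, Continuous (u i)) :
    Continuous fun p : ℝ × EuclideanSpace ℝ (Fin d) => ev u p.1 p.2 := by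
  simp only [ev_apply]
  refine continuous_finsetSum _ fun i _ => ?_
  refine Continuous.mul ?_ ((hu i).comp continuous_fst)
  exact (EuclideanSpace.proj (𝕜 := ℝ) i).continuous.comp continuous_snd

theorem continuous_ev' (hu : ∀ i, Continuous (u i)) (c : EuclideanSpace ℝ (Fin d)) :
    Continuous fun x : ℝ => ev u x c :=
  (continuous_ev hu).comp (continuous_id.prodMk continuous_const)

/-- elements of a face attain `± 1` -/
theorem attain (hD : Dom D C u) {F : Set (EuclideanSpace ℝ (Fin d))} (h : IsFace (body D u) F)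
    (c : EuclideanSpace ℝ (Fin d)) (hc : c ∈ F) : ∃ x ∈ C, |ev u x c| = 1 := by
  obtain ⟨f, b, hf, hle, rfl, hne⟩ := h
  obtain ⟨hcK, hcb⟩ := hc
  obtain ⟨x, hx, hmax⟩ := hD.compact.exists_isMaxOn hD.nonempty
    (continuous_ev' hD.cont c).abs.continuousOn
  refine ⟨x, hx, le_antisymm (hD.mem_body.1 hcK x hx) ?_⟩
  by_contra! hlt
  -- a vector with positive value
  obtain ⟨w, hw⟩ : ∃ w, 0 < f w := by
    obtain ⟨v, hv⟩ : ∃ v, f v ≠ 0 := by
      by_contra! hcon
      exact hf (ContinuousLinearMap.ext hcon)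
    rcases lt_or_gt_of_ne hv with h | h
    · exact ⟨-v, by simpa using h⟩
    · exact ⟨v, h⟩
  -- bound of `w` on `C`
  obtain ⟨y, hy, hmaxw⟩ := hD.compact.exists_isMaxOn hD.nonempty
    (continuous_ev' hD.cont w).abs.continuousOn
  set m := |ev u x c| with hm
  set B := |ev u y w| with hB
  have hB0 : 0 ≤ B := abs_nonneg _
  have hδ : 0 < (1 - m) / (B + 1) := div_pos (by linarith) (by linarith)
  have hmem : c + ((1 - m) / (B + 1)) • w ∈ body D u := by
    rw [hD.mem_body]
    intro z hz
    rw [map_add, map_smul, smul_eq_mul]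
    have h1 : |ev u z c| ≤ m := hmax hz
    have h2 : |ev u z w| ≤ B := hmaxw hz
    calc |ev u z c + (1 - m) / (B + 1) * ev u z w|
        ≤ |ev u z c| + |(1 - m) / (B + 1) * ev u z w| := abs_add_le _ _
      _ = |ev u z c| + (1 - m) / (B + 1) * |ev u z w| := by rw [abs_mul, abs_of_pos hδ]
      _ ≤ m + (1 - m) / (B + 1) * (B + 1) := by
          gcongr
          linarith
      _ = 1 := by
          rw [div_mul_cancel₀ _ (by linarith : B + 1 ≠ 0)]
          ring
  have h3 := hle _ hmem
  rw [map_add, map_smul, smul_eq_mul, hcb] at h3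
  have := mul_pos hδ hw
  linarith

/-- The functions of a face attain the value `ε = ± 1` at a common point. -/
theorem norming (hD : Dom D C u) {F : Set (EuclideanSpace ℝ (Fin d))} (h : IsFace (body D u) F) :
    ∃ x ∈ C, ∃ ε : ℝ, (ε = 1 ∨ ε = -1) ∧ ∀ c ∈ F, ev u x c = ε := by
  classical
  have hconv := face_convex h
  have hFK : F ⊆ body D u := by
    obtain ⟨f, b, hf, hle, rfl, hne⟩ := h
    exact fun c hc => hc.1
  have hK : IsCompact (C ×ˢ ({1, -1} : Set ℝ)) := hD.compact.prod (Set.toFinite _).isCompact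
  have key := hK.inter_iInter_nonempty (fun c : F => {p : ℝ × ℝ | ev u p.1 c.1 = p.2})
    (fun c => isClosed_eq ((continuous_ev' hD.cont c.1).comp continuous_fst) continuous_snd) ?_
  · obtain ⟨⟨x, ε⟩, ⟨h1, h2⟩, h3⟩ := key
    refine ⟨x, h1, ε, by simpa using h2, fun c hc => ?_⟩
    exact Set.mem_iInter.1 h3 ⟨c, hc⟩
  · intro t
    rcases t.eq_empty_or_nonempty with rfl | ht
    · obtain ⟨x, hx⟩ := hD.nonempty
      exact ⟨(x, 1), ⟨hx, by simp⟩, by simp⟩
    · have hc : (0 : ℝ) < t.card := by exact_mod_cast ht.card_pos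
      set g : EuclideanSpace ℝ (Fin d) := ∑ c ∈ t, ((t.card : ℝ)⁻¹) • c.1 with hg
      have hgF : g ∈ F := by
        refine hconv.sum_mem (fun _ _ => by positivity) ?_ (fun c _ => c.2)
        rw [Finset.sum_const, nsmul_eq_mul, mul_inv_cancel₀ hc.ne']
      obtain ⟨x, hx, hx2⟩ := attain hD h g hgF
      have hεε := eq_or_eq_neg_of_abs_eq hx2
      refine ⟨(x, ev u x g), ⟨hx, by simpa using hεε⟩, ?_⟩
      have hval : ev u x g = (t.card : ℝ)⁻¹ * ∑ c ∈ t, ev u x c.1 := by
        rw [hg, map_sum, Finset.mul_sum]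
        refine Finset.sum_congr rfl fun c _ => ?_
        rw [map_smul, smul_eq_mul]
      have hle : ∀ c ∈ t, ev u x g * ev u x c.1 ≤ 1 := by
        intro c _
        have h1 := hD.mem_body.1 (hFK c.2) x hx
        rw [abs_le] at h1
        rcases hεε with h | h <;> rw [h] <;> linarith
      have hsq : ev u x g * ev u x g = 1 := by
        rcases hεε with h | h <;> rw [h] <;> norm_num
      have hsum : ∑ c ∈ t, ev u x g * ev u x c.1 = ∑ c ∈ t, (1 : ℝ) := by
        rw [← Finset.mul_sum, Finset.sum_const, nsmul_eq_mul, mul_one]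
        have : ∑ c ∈ t, ev u x c.1 = t.card * ev u x g := by
          rw [hval]
          field_simp
        rw [this, mul_left_comm, hsq, mul_one]
      have h := (Finset.sum_eq_sum_iff_of_le hle).1 hsum
      simp only [Set.mem_iInter]
      intro c hc
      have h1 := h c hc
      show ev u x c.1 = ev u x g
      calc ev u x c.1 = ev u x g * ev u x g * ev u x c.1 := by rw [hsq, one_mul]
        _ = ev u x g * (ev u x g * ev u x c.1) := by ring
        _ = ev u x g := by rw [h1, mul_one]

/-- upper bound -/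
theorem sepLE_of (hD : Dom D C u) (N : Finset ℝ) (b : ℝ) (hb : 0 < b)
    (hN : ∀ x ∈ C, ∃ y ∈ N, ∀ c ∈ body D u, ev u x c = 1 → b ≤ ev u y c) :
    SepLE (body D u) 0 (2 * N.card) := by
  classical
  refine ⟨(N.image fun y => (ev u y, b / 2)) ∪ N.image fun y => (-ev u y, b / 2), ?_, ?_⟩
  · refine (Finset.card_union_le _ _).trans ?_
    have h1 := Finset.card_image_le (s := N) (f := fun y => (ev u y, b / 2))
    have h2 := Finset.card_image_le (s := N) (f := fun y => (-ev u y, b / 2))
    omega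
  · intro F hF
    obtain ⟨x, hx, ε, hε, hxF⟩ := norming hD hF
    obtain ⟨f, b', -, -, hF2, ⟨f0, hf0⟩⟩ := hF
    have hFK : ∀ c ∈ F, c ∈ body D u := by
      intro c hc
      rw [hF2] at hc
      exact hc.1
    obtain ⟨y, hy, hy2⟩ := hN x hx
    rcases hε with rfl | rfl
    · refine ⟨(ev u y, b / 2), Finset.mem_union_left _ (Finset.mem_image_of_mem _ hy), ?_,
        Or.inl ⟨fun c hc => ?_, by simpa using hb⟩⟩
      · intro h0
        have h1 := hy2 f0 (hFK f0 hf0) (hxF f0 hf0)
        have h3 : ev u y = 0 := h0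
        rw [h3, zero_apply] at h1
        linarith
      · have := hy2 c (hFK c hc) (hxF c hc)
        show b / 2 < ev u y c
        linarith
    · have key : ∀ c ∈ F, b ≤ -(ev u y c) := by
        intro c hc
        have h4 := hy2 (-c) (by
          rw [mem_body]
          intro z hz
          rw [map_neg, abs_neg]
          exact mem_body.1 (hFK c hc) z hz) (by rw [map_neg, hxF c hc, neg_neg])
        rw [map_neg] at h4
        exact h4
      refine ⟨(-ev u y, b / 2), Finset.mem_union_right _ (Finset.mem_image_of_mem _ hy), ?_,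
        Or.inl ⟨fun c hc => ?_, by simpa using hb⟩⟩
      · intro h0
        have h1 := key f0 hf0
        have h3 : -ev u y = 0 := h0
        rw [neg_eq_zero] at h3
        rw [h3, zero_apply] at h1
        linarith
      · have := key c hc
        show b / 2 < (-ev u y) c
        rw [neg_apply]
        linarith

/-- The face of the functions with value `ε` at `x`. -/
def peak (D : Set ℝ) (u : Fin d → ℝ → ℝ) (x : ℝ) (ε : ℝ) : Set (EuclideanSpace ℝ (Fin d)) :=
  {c | c ∈ body D u ∧ (ε • ev u x) c = 1}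

theorem mem_peak {x : ℝ} {ε : ℝ} {c : EuclideanSpace ℝ (Fin d)} :
    c ∈ peak D u x ε ↔ c ∈ body D u ∧ ε * ev u x c = 1 := by
  rw [peak, Set.mem_ofPred_eq, smul_apply, smul_eq_mul]

theorem isFace_peak {x : ℝ} (hx : x ∈ D) {ε : ℝ} (hε : ε = 1 ∨ ε = -1)
    (c : EuclideanSpace ℝ (Fin d)) (hc : c ∈ peak D u x ε) :
    IsFace (body D u) (peak D u x ε) := by
  refine ⟨ε • ev u x, 1, ?_, ?_, rfl, c, hc⟩
  · intro h0
    have h1 := hc.2
    rw [h0, zero_apply] at h1
    norm_num at h1
  · intro g hg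
    have h1 := mem_body.1 hg x hx
    rw [abs_le] at h1
    rw [smul_apply, smul_eq_mul]
    rcases hε with rfl | rfl <;> linarith

/-- the body is compact if the functions are linearly independent on `C` -/
theorem isCompact_body (hD : Dom D C u)
    (hind : ∀ c : EuclideanSpace ℝ (Fin d), (∀ x ∈ C, ev u x c = 0) → c = 0) :
    IsCompact (body D u) := by
  have : CompactSpace C := isCompact_iff_compactSpace.1 hD.compact
  let L : EuclideanSpace ℝ (Fin d) →ₗ[ℝ] C(C, ℝ) :=
    { toFun := fun c => ⟨fun x => ev u x c, (continuous_ev' hD.cont c).comp continuous_subtype_val⟩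
      map_add' := fun a b => by ext x; simp
      map_smul' := fun r a => by ext x; simp }
  have hker : LinearMap.ker L = ⊥ := by
    rw [LinearMap.ker_eq_bot']
    intro c hc
    refine hind c fun x hx => ?_
    have := congrArg (fun f : C(C, ℝ) => f ⟨x, hx⟩) hc
    exact this
  obtain ⟨K, hK, hanti⟩ := L.exists_antilipschitzWith hker
  have hclosed : IsClosed (body D u) := by
    have : body D u = ⋂ x ∈ D, {c | |ev u x c| ≤ 1} := by
      ext c
      simp only [mem_body, Set.mem_iInter, Set.mem_ofPred_eq]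
    rw [this]
    exact isClosed_biInter fun x _ => isClosed_le (ev u x).continuous.abs continuous_const
  refine Metric.isCompact_of_isClosed_isBounded hclosed ?_
  refine (Metric.isBounded_closedBall (x := (0 : EuclideanSpace ℝ (Fin d))) (r := K)).subset ?_
  intro c hc
  have h1 := hanti.le_mul_dist c 0
  rw [map_zero, dist_zero_right, dist_zero_right] at h1
  have h2 : ‖L c‖ ≤ 1 := by
    rw [ContinuousMap.norm_le _ zero_le_one]
    intro x
    exact hD.mem_body.1 hc x.1 x.2
  rw [mem_closedBall, dist_zero_right]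
  calc ‖c‖ ≤ K * ‖L c‖ := h1
    _ ≤ K * 1 := mul_le_mul_of_nonneg_left h2 K.2
    _ = K := mul_one _

/-- the set of the points whose peak face is separated is open -/
theorem isOpen_separated (hK : IsCompact (body D u)) (hu : ∀ i, Continuous (u i)) (ε : ℝ)
    (h : (EuclideanSpace ℝ (Fin d) →L[ℝ] ℝ) × ℝ) :
    IsOpen {x : ℝ | ∀ c ∈ peak D u x ε, |h.2| < orient h c} := by
  have : CompactSpace (body D u) := isCompact_iff_compactSpace.1 hK
  have hcl : IsClosed {p : ℝ × body D u | ε * ev u p.1 p.2.1 = 1 ∧ orient h p.2.1 ≤ |h.2|} := by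
    have h1 : IsClosed {p : ℝ × body D u | ε * ev u p.1 p.2.1 = 1} := by
      refine isClosed_eq ?_ continuous_const
      refine continuous_const.mul ?_
      exact (continuous_ev hu).comp (continuous_fst.prodMk
        (continuous_subtype_val.comp continuous_snd))
    have h2 : IsClosed {p : ℝ × body D u | orient h p.2.1 ≤ |h.2|} :=
      isClosed_le ((orient h).continuous.comp (continuous_subtype_val.comp continuous_snd))
        continuous_const
    exact h1.inter h2
  have himg := isClosedMap_fst_of_compactSpace _ hcl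
  rw [← isClosed_compl_iff]
  convert himg using 1
  ext x
  simp only [Set.mem_compl_iff, Set.mem_ofPred_eq, not_forall, not_lt, Set.mem_image, Prod.exists,
    exists_and_right, exists_eq_right]
  constructor
  · rintro ⟨f, hf, hle⟩
    have hf' := mem_peak.1 hf
    exact ⟨⟨f, hf.1⟩, hf'.2, hle⟩
  · rintro ⟨⟨f, hf⟩, h1, h2⟩
    exact ⟨f, mem_peak.2 ⟨hf, h1⟩, h2⟩

end General

/-- Open sets which do not contain two of the points `t + j π / n` and cover the line. -/
theorem cover_circle {n : ℕ} (hn : 0 < n) {α : Type} (H : Finset α) (U : α → Set ℝ)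
    (hopen : ∀ h ∈ H, IsOpen (U h)) (hcov : ∀ t, ∃ h ∈ H, t ∈ U h)
    (hsep : ∀ h ∈ H, ∀ t ∈ U h, ∀ j : ℕ, 0 < j → j < 2 * n → t + j * (Real.pi / n) ∉ U h) :
    2 * n + 1 ≤ H.card := by
  classical
  by_contra! hlt
  have huniq : ∀ t, ∀ h ∈ H, ∀ h' ∈ H, t ∈ U h → t ∈ U h' → h = h' := by
    intro t h hh h' hh' ht ht'
    by_contra hne
    choose g hg hg2 using hcov
    let φ : ℕ → α := fun j => if j = 0 then h else g (t + j * (Real.pi / n))
    have hφH : ∀ j, φ j ∈ H := by
      intro j
      simp only [φ]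
      split_ifs
      · exact hh
      · exact hg _
    have hφU : ∀ j : ℕ, t + j * (Real.pi / n) ∈ U (φ j) := by
      intro j
      simp only [φ]
      split_ifs with h0
      · rw [h0]
        simpa using ht
      · exact hg2 _
    have hinj : Set.InjOn φ (Finset.range (2 * n) : Set ℕ) := by
      have key : ∀ i j, i < j → j < 2 * n → φ i ≠ φ j := by
        intro i j hij hj heq
        have h1 := hφU i
        have h2 := hφU j
        rw [← heq] at h2
        refine hsep (φ i) (hφH i) _ h1 (j - i) (by omega) (by omega) ?_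
        have e : t + i * (Real.pi / n) + ((j - i : ℕ) : ℝ) * (Real.pi / n) =
            t + j * (Real.pi / n) := by
          rw [Nat.cast_sub hij.le]
          ring
        rw [e]
        exact h2
      intro i hi j hj hij
      rw [Finset.coe_range, Set.mem_Iio] at hi hj
      rcases lt_trichotomy i j with h1 | h1 | h1
      · exact absurd hij (key i j h1 hj)
      · exact h1
      · exact absurd hij.symm (key j i h1 hi)
    have hnot : h' ∉ (Finset.range (2 * n)).image φ := by
      intro hmem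
      obtain ⟨j, hj, hj2⟩ := Finset.mem_image.1 hmem
      rw [Finset.mem_range] at hj
      rcases Nat.eq_zero_or_pos j with h0 | h0
      · rw [h0] at hj2
        exact hne (by simpa [φ] using hj2)
      · refine hsep h' hh' t ht' j h0 hj ?_
        rw [← hj2]
        exact hφU j
    have hsub : insert h' ((Finset.range (2 * n)).image φ) ⊆ H := by
      intro x hx
      rcases Finset.mem_insert.1 hx with rfl | hx
      · exact hh'
      · obtain ⟨j, -, rfl⟩ := Finset.mem_image.1 hx
        exact hφH j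
    have := Finset.card_le_card hsub
    rw [Finset.card_insert_of_notMem hnot, Finset.card_image_of_injOn hinj,
      Finset.card_range] at this
    omega
  obtain ⟨h, hh, h0⟩ := hcov 0
  have hcompl : (U h)ᶜ = ⋃ h' ∈ H.erase h, U h' := by
    ext t
    simp only [Set.mem_compl_iff, Set.mem_iUnion, Finset.mem_erase, exists_prop]
    constructor
    · intro ht
      obtain ⟨h', hh', ht'⟩ := hcov t
      refine ⟨h', ⟨fun he => ht (he ▸ ht'), hh'⟩, ht'⟩
    · rintro ⟨h', ⟨hne, hh'⟩, ht'⟩ ht
      exact hne (huniq t h' hh' h hh ht' ht)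
  have hclopen : IsClopen (U h) := by
    refine ⟨⟨?_⟩, hopen h hh⟩
    rw [hcompl]
    exact isOpen_biUnion fun h' hh' => hopen h' (Finset.mem_of_mem_erase hh')
  rcases isClopen_iff.1 hclopen with h1 | h1
  · rw [h1] at h0
    exact h0
  · refine hsep h hh 0 h0 1 one_pos (by omega) ?_
    rw [h1]
    trivial


/-! ### Trigonometric and algebraic polynomials: upper bounds -/

/-- The space of the real trigonometric polynomials of degree at most `n`. -/
def trigSpace (n : ℕ) : Submodule ℝ (ℝ → ℝ) :=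
  Submodule.span ℝ {f | ∃ k : ℕ, k ≤ n ∧
    (f = (fun t => Real.cos (k * t)) ∨ f = fun t => Real.sin (k * t))}

/-- The space of the real polynomial functions of degree at most `n`. -/
def polySpace (n : ℕ) : Submodule ℝ (ℝ → ℝ) :=
  Submodule.span ℝ {f | ∃ k : ℕ, k ≤ n ∧ f = fun x => x ^ k}

theorem trigSpace_props {n : ℕ} {f : ℝ → ℝ} (hf : f ∈ trigSpace n) :
    IsTrig n f ∧ Continuous f ∧ Function.Periodic f (2 * Real.pi) := by
  refine Submodule.span_induction (p := fun f _ => IsTrig n f ∧ Continuous f ∧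
    Function.Periodic f (2 * Real.pi)) ?_ ?_ ?_ ?_ hf
  · rintro f ⟨k, hk, rfl | rfl⟩
    · refine ⟨by simpa using isTrig_cos hk 0, by fun_prop, fun t => ?_⟩
      show Real.cos (k * (t + 2 * Real.pi)) = Real.cos (k * t)
      rw [mul_add]
      exact Real.cos_add_nat_mul_two_pi _ k
    · refine ⟨?_, by fun_prop, fun t => ?_⟩
      · have := isTrig_cos hk (Real.pi / 2)
        simpa only [Real.cos_sub_pi_div_two] using this
      · show Real.sin (k * (t + 2 * Real.pi)) = Real.sin (k * t)
        rw [mul_add]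
        exact Real.sin_add_nat_mul_two_pi _ k
  · exact ⟨IsTrig.zero n, continuous_const, fun t => rfl⟩
  · rintro f g - - ⟨h1, h2, h3⟩ ⟨h4, h5, h6⟩
    exact ⟨h1.add h4, h2.add h5, h3.add h6⟩
  · rintro a f - ⟨h1, h2, h3⟩
    exact ⟨h1.smul a, h2.const_smul a, fun t => by
      show a * f (t + 2 * Real.pi) = a * f t
      rw [h3 t]⟩

theorem polySpace_props {n : ℕ} {f : ℝ → ℝ} (hf : f ∈ polySpace n) :
    ∃ p : ℝ[X], p.natDegree ≤ n ∧ ∀ x, f x = p.eval x := by
  refine Submodule.span_induction (p := fun f _ => ∃ p : ℝ[X], p.natDegree ≤ n ∧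
    ∀ x, f x = p.eval x) ?_ ?_ ?_ ?_ hf
  · rintro f ⟨k, hk, rfl⟩
    exact ⟨X ^ k, (natDegree_X_pow_le k).trans hk, fun x => by simp⟩
  · exact ⟨0, by simp, fun x => by simp⟩
  · rintro f g - - ⟨p, hp, hp2⟩ ⟨q, hq, hq2⟩
    exact ⟨p + q, (natDegree_add_le _ _).trans (max_le hp hq), fun x => by
      rw [eval_add, ← hp2, ← hq2]
      rfl⟩
  · rintro a f - ⟨p, hp, hp2⟩
    exact ⟨C a * p, (natDegree_C_mul_le _ _).trans hp, fun x => by
      rw [eval_mul, eval_C, ← hp2]
      rfl⟩

theorem polySpace_cont {n : ℕ} {f : ℝ → ℝ} (hf : f ∈ polySpace n) : Continuous f := by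
  obtain ⟨p, -, hp⟩ := polySpace_props hf
  have : f = fun x => p.eval x := funext hp
  rw [this]
  exact p.continuous

theorem mem_polySpace {n : ℕ} (p : ℝ[X]) (hp : p.natDegree ≤ n) :
    (fun x => p.eval x) ∈ polySpace n := by
  have : (fun x => p.eval x) = ∑ k ∈ Finset.range (n + 1), p.coeff k • fun x : ℝ => x ^ k := by
    funext x
    rw [Finset.sum_apply, eval_eq_sum_range' (Nat.lt_succ_of_le hp)]
    rfl
  rw [this]
  refine Submodule.sum_mem _ fun k hk => Submodule.smul_mem _ _ (Submodule.subset_span ?_)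
  exact ⟨k, by simpa [Nat.lt_succ_iff] using hk, rfl⟩

theorem isTrig_cos_pow {n k : ℕ} (hk : k ≤ n) : IsTrig n fun t => Real.cos t ^ k := by
  refine ⟨X ^ (n - k) * (C (1 / 2) * (X ^ 2 + 1)) ^ k, ?_, fun t => ?_⟩
  · refine natDegree_mul_le.trans ?_
    have h1 : (C (1 / 2 : ℂ) * (X ^ 2 + 1)).natDegree ≤ 2 := by
      refine (natDegree_C_mul_le _ _).trans ?_
      refine (natDegree_add_le _ _).trans (max_le (natDegree_X_pow_le 2) ?_)
      simp
    have h2 := natDegree_pow_le_of_le k h1
    have h3 : (X ^ (n - k) : ℂ[X]).natDegree ≤ n - k := natDegree_X_pow_le _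
    omega
  · have e0 : Complex.exp (t * Complex.I) ≠ 0 := Complex.exp_ne_zero _
    have e1 : Complex.exp (n * t * Complex.I) = Complex.exp (t * Complex.I) ^ n := by
      rw [← Complex.exp_nat_mul]
      congr 1
      ring
    have e2 : ((Real.cos t : ℝ) : ℂ) = (Complex.exp (t * Complex.I) +
        (Complex.exp (t * Complex.I))⁻¹) / 2 := by
      rw [Complex.ofReal_cos, Complex.cos, ← Complex.exp_neg]
      congr 3
      ring
    simp only [eval_mul, eval_pow, eval_X, eval_C, eval_add, eval_one]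
    rw [Complex.ofReal_pow, e2, e1]
    set z := Complex.exp (t * Complex.I)
    have e3 : z ^ n = z ^ (n - k) * z ^ k := by rw [← pow_add, Nat.sub_add_cancel hk]
    rw [e3, mul_assoc, ← mul_pow]
    congr 2
    field_simp

theorem isTrig_poly {n : ℕ} {f : ℝ → ℝ} (hf : f ∈ polySpace n) :
    IsTrig n fun t => f (Real.cos t) := by
  obtain ⟨p, hp, hp2⟩ := polySpace_props hf
  have : (fun t => f (Real.cos t)) =
      fun t => ∑ k ∈ Finset.range (n + 1), p.coeff k * Real.cos t ^ k := by
    funext t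
    rw [hp2, eval_eq_sum_range' (Nat.lt_succ_of_le hp)]
  rw [this]
  refine IsTrig.sum _ (fun k t => p.coeff k * Real.cos t ^ k) fun k hk => ?_
  exact (isTrig_cos_pow (by simpa [Nat.lt_succ_iff] using hk)).smul _

theorem ev_mem {d : ℕ} {u : Fin d → ℝ → ℝ} {S : Submodule ℝ (ℝ → ℝ)} (hu : ∀ i, u i ∈ S)
    (c : EuclideanSpace ℝ (Fin d)) : (fun x => ev u x c) ∈ S := by
  have : (fun x => ev u x c) = ∑ i, c i • u i := by
    funext x
    rw [ev_apply, Finset.sum_apply]
    rfl
  rw [this]
  exact Submodule.sum_mem _ fun i _ => Submodule.smul_mem _ _ (hu i)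

theorem cover_interval {L : ℝ} (hL : 0 < L) {N : ℕ} (hN : 0 < N) {x : ℝ} (h0 : 0 ≤ x)
    (h1 : x ≤ L) : ∃ j < N, |x - (2 * j + 1) * (L / (2 * N))| ≤ L / (2 * N) := by
  have hN' : (0 : ℝ) < N := by exact_mod_cast hN
  set y := x * N / L with hy
  have hxy : x = y * L / N := by
    rw [hy]
    field_simp
  have hy0 : 0 ≤ y := by positivity
  have hyN : y ≤ N := by
    rw [hy, div_le_iff₀ hL, mul_comm]
    exact mul_le_mul_of_nonneg_left h1 hN'.le
  obtain ⟨j, hj, hj1, hj2⟩ : ∃ j : ℕ, j < N ∧ (j : ℝ) ≤ y ∧ y ≤ j + 1 := by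
    rcases hyN.eq_or_lt with h | h
    · refine ⟨N - 1, by omega, ?_, ?_⟩
      · rw [Nat.cast_sub hN, Nat.cast_one]
        linarith
      · rw [Nat.cast_sub hN, Nat.cast_one]
        linarith
    · exact ⟨⌊y⌋₊, (Nat.floor_lt hy0).2 h, Nat.floor_le hy0, (Nat.lt_floor_add_one y).le⟩
  refine ⟨j, hj, ?_⟩
  have e : x - (2 * j + 1) * (L / (2 * N)) = (y - j - 1 / 2) * (L / N) := by
    rw [hxy]
    field_simp
    ring
  rw [e, abs_mul, abs_of_pos (div_pos hL hN')]
  have h2 : |y - j - 1 / 2| ≤ 1 / 2 := by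
    rw [abs_le]
    constructor <;> linarith
  calc |y - j - 1 / 2| * (L / N) ≤ 1 / 2 * (L / N) :=
        mul_le_mul_of_nonneg_right h2 (div_pos hL hN').le
    _ = L / (2 * N) := by field_simp

theorem cos_bound {n : ℕ} {η s : ℝ} (hη : n * η ≤ Real.pi) (hs : |s| ≤ η) :
    Real.cos (n * η) ≤ Real.cos (n * s) := by
  rw [← Real.cos_abs (n * s)]
  refine Real.cos_le_cos_of_nonneg_of_le_pi (abs_nonneg _) hη ?_
  rw [abs_mul, Nat.abs_cast]
  exact mul_le_mul_of_nonneg_left hs (Nat.cast_nonneg n)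

theorem SepLE.mono {V : Type} [NormedAddCommGroup V] [NormedSpace ℝ V] {K : Set V} {o : V}
    {m n : ℕ} (h : SepLE K o m) (hmn : m ≤ n) : SepLE K o n := by
  obtain ⟨H, h1, h2⟩ := h
  exact ⟨H, h1.trans hmn, h2⟩

theorem dom_trig {d n : ℕ} {u : Fin d → ℝ → ℝ} (hu : ∀ i, u i ∈ trigSpace n) :
    Dom Set.univ (Set.Icc 0 (2 * Real.pi)) u where
  compact := isCompact_Icc
  nonempty := ⟨0, le_rfl, Real.two_pi_pos.le⟩
  sub := Set.subset_univ _
  cont := fun i => (trigSpace_props (hu i)).2.1
  norm := by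
    intro x _
    refine ⟨toIcoMod Real.two_pi_pos 0 x, ?_, fun i => ?_⟩
    · have := toIcoMod_mem_Ico Real.two_pi_pos 0 x
      rw [zero_add] at this
      exact ⟨this.1, this.2.le⟩
    · have hper := (trigSpace_props (hu i)).2.2
      rw [toIcoMod]
      exact (hper.sub_zsmul_eq _).symm

theorem dom_poly {d n : ℕ} {u : Fin d → ℝ → ℝ} (hu : ∀ i, u i ∈ polySpace n) :
    Dom (Set.Icc (-1) 1) (Set.Icc (-1) 1) u where
  compact := isCompact_Icc
  nonempty := ⟨0, by norm_num⟩
  sub := le_rfl
  cont := fun i => polySpace_cont (hu i)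
  norm := fun x hx => ⟨x, hx, fun _ => rfl⟩

theorem trig_upper {d n : ℕ} (hn : 0 < n) {u : Fin d → ℝ → ℝ} (hu : ∀ i, u i ∈ trigSpace n) :
    SepLE (body Set.univ u) 0 (4 * n + 2) := by
  classical
  have hpi := Real.pi_pos
  have hn' : (0 : ℝ) < n := by exact_mod_cast hn
  set η : ℝ := 2 * Real.pi / (2 * ((2 * n + 1 : ℕ) : ℝ)) with hη
  have hη2 : n * η < Real.pi / 2 := by
    rw [hη]
    push_cast
    rw [mul_div_assoc', div_lt_div_iff₀ (by positivity) (by norm_num)]
    nlinarith
  have key := sepLE_of (dom_trig hu) ((Finset.range (2 * n + 1)).image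
    fun j : ℕ => (2 * (j : ℝ) + 1) * η) (Real.cos (n * η))
    (Real.cos_pos_of_mem_Ioo ⟨by nlinarith [show 0 < η by positivity], hη2⟩) ?_
  · refine key.mono ?_
    have := Finset.card_image_le (s := Finset.range (2 * n + 1))
      (f := fun j : ℕ => (2 * (j : ℝ) + 1) * η)
    rw [Finset.card_range] at this
    omega
  · intro x hx
    obtain ⟨j, hj, hj2⟩ := cover_interval Real.two_pi_pos (N := 2 * n + 1) (by omega) hx.1 hx.2
    refine ⟨(2 * (j : ℝ) + 1) * η, Finset.mem_image_of_mem _ (Finset.mem_range.2 hj), ?_⟩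
    intro c hc hcx
    have hm := trigSpace_props (ev_mem hu c)
    rw [← hη, abs_sub_comm] at hj2
    refine (cos_bound (by linarith) hj2).trans ?_
    refine riesz hn hm.1 hm.2.1 (fun t => mem_body.1 hc t (Set.mem_univ _)) hcx (hj2.trans ?_)
    rw [hη]
    push_cast
    rw [div_le_div_iff₀ (by positivity) hn']
    nlinarith

theorem poly_upper {d n : ℕ} (hn : 0 < n) {u : Fin d → ℝ → ℝ} (hu : ∀ i, u i ∈ polySpace n) :
    SepLE (body (Set.Icc (-1) 1) u) 0 (2 * n + 2) := by
  classical
  have hpi := Real.pi_pos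
  have hn' : (0 : ℝ) < n := by exact_mod_cast hn
  set η : ℝ := Real.pi / (2 * ((n + 1 : ℕ) : ℝ)) with hη
  have hη2 : n * η < Real.pi / 2 := by
    rw [hη]
    push_cast
    rw [mul_div_assoc', div_lt_div_iff₀ (by positivity) (by norm_num)]
    nlinarith
  have key := sepLE_of (dom_poly hu) ((Finset.range (n + 1)).image
    fun j : ℕ => Real.cos ((2 * (j : ℝ) + 1) * η)) (Real.cos (n * η))
    (Real.cos_pos_of_mem_Ioo ⟨by nlinarith [show 0 < η by positivity], hη2⟩) ?_
  · refine key.mono ?_
    have := Finset.card_image_le (s := Finset.range (n + 1))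
      (f := fun j : ℕ => Real.cos ((2 * (j : ℝ) + 1) * η))
    rw [Finset.card_range] at this
    omega
  · intro x hx
    obtain ⟨j, hj, hj2⟩ := cover_interval Real.pi_pos (N := n + 1) (by omega)
      (Real.arccos_nonneg x) (Real.arccos_le_pi x)
    refine ⟨_, Finset.mem_image_of_mem _ (Finset.mem_range.2 hj), ?_⟩
    intro c hc hcx
    have hm := isTrig_poly (ev_mem hu c)
    have hcont : Continuous fun t => ev u (Real.cos t) c :=
      (polySpace_cont (ev_mem hu c)).comp Real.continuous_cos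
    rw [← hη, abs_sub_comm] at hj2
    refine (cos_bound (by linarith) hj2).trans ?_
    refine riesz hn hm hcont (fun t => mem_body.1 hc _ (Real.cos_mem_Icc t)) ?_ (hj2.trans ?_)
    · show ev u (Real.cos (Real.arccos x)) c = 1
      rw [Real.cos_arccos hx.1 hx.2]
      exact hcx
    · rw [hη]
      push_cast
      rw [div_le_div_iff₀ (by positivity) hn']
      nlinarith


/-! ### The Fejér kernel -/

/-- Fejér kernel, normalised by `fejer n 0 = 1`. -/
noncomputable def fejer (n : ℕ) (t : ℝ) : ℝ :=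
  (1 / (n : ℝ) ^ 2) * ∑ k ∈ Finset.range n, ∑ l ∈ Finset.range n, Real.cos (((k : ℝ) - l) * t)

theorem fejer_eq (n : ℕ) (t : ℝ) : fejer n t = (1 / (n : ℝ) ^ 2) *
    ((∑ k ∈ Finset.range n, Real.cos (k * t)) ^ 2 +
      (∑ k ∈ Finset.range n, Real.sin (k * t)) ^ 2) := by
  rw [fejer]
  congr 1
  rw [sq, sq, Finset.sum_mul_sum, Finset.sum_mul_sum, ← Finset.sum_add_distrib]
  refine Finset.sum_congr rfl fun k _ => ?_
  rw [← Finset.sum_add_distrib]
  refine Finset.sum_congr rfl fun l _ => ?_
  rw [sub_mul, Real.cos_sub]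

theorem fejer_nonneg (n : ℕ) (t : ℝ) : 0 ≤ fejer n t := by
  rw [fejer_eq]
  positivity

/-- exponential sum -/
noncomputable def esum (n : ℕ) (t : ℝ) : ℂ := ∑ k ∈ Finset.range n, Complex.exp (k * t * Complex.I)

theorem esum_re (n : ℕ) (t : ℝ) : (esum n t).re = ∑ k ∈ Finset.range n, Real.cos (k * t) := by
  rw [esum, Complex.re_sum]
  refine Finset.sum_congr rfl fun k _ => ?_
  have := Complex.exp_ofReal_mul_I_re (k * t)
  push_cast at this
  exact this

theorem esum_im (n : ℕ) (t : ℝ) : (esum n t).im = ∑ k ∈ Finset.range n, Real.sin (k * t) := by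
  rw [esum, Complex.im_sum]
  refine Finset.sum_congr rfl fun k _ => ?_
  have := Complex.exp_ofReal_mul_I_im (k * t)
  push_cast at this
  exact this

theorem fejer_esum (n : ℕ) (t : ℝ) : fejer n t = (1 / (n : ℝ) ^ 2) * ‖esum n t‖ ^ 2 := by
  rw [fejer_eq, ← Complex.normSq_eq_norm_sq, Complex.normSq_apply, esum_re, esum_im]
  ring

theorem esum_eq_zero {n : ℕ} (hn : 0 < n) {m : ℤ} (hm : ¬ (n : ℤ) ∣ m) :
    esum n (2 * Real.pi * m / n) = 0 := by
  have hn' : (n : ℂ) ≠ 0 := by exact_mod_cast hn.ne'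
  set z := Complex.exp ((2 * Real.pi * m / n : ℝ) * Complex.I) with hz
  have h1 : esum n (2 * Real.pi * m / n) = ∑ k ∈ Finset.range n, z ^ k := by
    rw [esum]
    refine Finset.sum_congr rfl fun k _ => ?_
    rw [hz, ← Complex.exp_nat_mul]
    congr 1
    push_cast
    ring
  have h2 : z ^ n = 1 := by
    rw [hz, ← Complex.exp_nat_mul, Complex.exp_eq_one_iff]
    refine ⟨m, ?_⟩
    push_cast
    field_simp
  have h3 : z ≠ 1 := by
    intro h
    rw [hz, Complex.exp_eq_one_iff] at h
    obtain ⟨q, hq⟩ := h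
    apply hm
    refine ⟨q, ?_⟩
    have hpi : (Real.pi : ℂ) ≠ 0 := by exact_mod_cast Real.pi_ne_zero
    have h4 : (m : ℂ) = n * q := by
      have hI := Complex.I_ne_zero
      push_cast at hq
      field_simp at hq
      have h5 : (2 * (Real.pi : ℂ)) * m = (2 * Real.pi) * (n * q) := by
        first
          | exact hq
          | linear_combination hq
          | linear_combination (2 * (Real.pi : ℂ)) * hq
      exact mul_left_cancel₀ (by simp) h5
    exact_mod_cast h4
  rw [h1]
  have h4 := geom_sum_mul z n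
  rw [h2, sub_self] at h4
  exact (mul_eq_zero.1 h4).resolve_right (sub_ne_zero.2 h3)

theorem fejer_eq_zero {n : ℕ} (hn : 0 < n) {m : ℤ} (hm : ¬ (n : ℤ) ∣ m) :
    fejer n (2 * Real.pi * m / n) = 0 := by
  rw [fejer_esum, esum_eq_zero hn hm]
  simp

theorem fejer_zero {n : ℕ} (hn : 0 < n) : fejer n 0 = 1 := by
  have hn' : (n : ℝ) ≠ 0 := by exact_mod_cast hn.ne'
  rw [fejer]
  simp only [mul_zero, Real.cos_zero, Finset.sum_const, Finset.card_range, nsmul_eq_mul, mul_one]
  field_simp

theorem fejer_neg (n : ℕ) (t : ℝ) : fejer n (-t) = fejer n t := by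
  rw [fejer, fejer]
  congr 1
  refine Finset.sum_congr rfl fun k _ => Finset.sum_congr rfl fun l _ => ?_
  rw [mul_neg, Real.cos_neg]

theorem fejer_le_one {n : ℕ} (hn : 0 < n) (t : ℝ) : fejer n t ≤ 1 := by
  have hn' : (0 : ℝ) < n := by exact_mod_cast hn
  rw [fejer]
  have h : ∑ k ∈ Finset.range n, ∑ l ∈ Finset.range n, Real.cos (((k : ℝ) - l) * t) ≤
      ∑ k ∈ Finset.range n, ∑ l ∈ Finset.range n, (1 : ℝ) :=
    Finset.sum_le_sum fun k _ => Finset.sum_le_sum fun l _ => Real.cos_le_one _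
  simp only [Finset.sum_const, Finset.card_range, nsmul_eq_mul, mul_one] at h
  calc 1 / (n : ℝ) ^ 2 * ∑ k ∈ Finset.range n, ∑ l ∈ Finset.range n, Real.cos (((k : ℝ) - l) * t)
      ≤ 1 / (n : ℝ) ^ 2 * (n * n) := mul_le_mul_of_nonneg_left h (by positivity)
    _ = 1 := by field_simp

/-- the vector `n^(-1/2) (exp (i k s))_k` -/
noncomputable def evec (n : ℕ) (s : ℝ) : EuclideanSpace ℂ (Fin n) :=
  WithLp.toLp 2 fun k : Fin n => ((1 / Real.sqrt n : ℝ) : ℂ) * Complex.exp (k * s * Complex.I)

theorem inner_evec {n : ℕ} (hn : 0 < n) (s t : ℝ) :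
    inner ℂ (evec n s) (evec n t) = (1 / (n : ℂ)) * esum n (t - s) := by
  have hn' : (0 : ℝ) < n := by exact_mod_cast hn
  rw [esum, Finset.mul_sum, PiLp.inner_apply,
    ← Fin.sum_univ_eq_sum_range (fun k => 1 / (n : ℂ) * Complex.exp (k * (t - s : ℝ) * Complex.I)) n]
  refine Finset.sum_congr rfl fun k _ => ?_
  simp only [evec]
  rw [RCLike.inner_apply, map_mul, Complex.conj_ofReal, ← Complex.exp_conj]
  have e1 : (starRingEnd ℂ) ((k : ℕ) * s * Complex.I) = -((k : ℕ) * s * Complex.I) := by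
    simp
  rw [e1]
  have e2 : ((1 / Real.sqrt n : ℝ) : ℂ) * ((1 / Real.sqrt n : ℝ) : ℂ) = 1 / (n : ℂ) := by
    rw [← Complex.ofReal_mul]
    have : 1 / Real.sqrt n * (1 / Real.sqrt n) = 1 / (n : ℝ) := by
      rw [div_mul_div_comm, Real.mul_self_sqrt hn'.le, one_mul]
    rw [this]
    push_cast
    rfl
  calc ((1 / Real.sqrt n : ℝ) : ℂ) * Complex.exp ((k : ℕ) * t * Complex.I) *
      (((1 / Real.sqrt n : ℝ) : ℂ) * Complex.exp (-((k : ℕ) * s * Complex.I)))
      = (((1 / Real.sqrt n : ℝ) : ℂ) * ((1 / Real.sqrt n : ℝ) : ℂ)) *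
        (Complex.exp ((k : ℕ) * t * Complex.I) * Complex.exp (-((k : ℕ) * s * Complex.I))) := by
          ring
    _ = 1 / (n : ℂ) * Complex.exp ((k : ℕ) * ((t - s : ℝ) : ℂ) * Complex.I) := by
      rw [e2, ← Complex.exp_add]
      congr 2
      push_cast
      ring

theorem norm_inner_evec {n : ℕ} (hn : 0 < n) (s t : ℝ) :
    ‖inner ℂ (evec n s) (evec n t)‖ ^ 2 = fejer n (t - s) := by
  rw [inner_evec hn, fejer_esum, norm_mul, mul_pow]
  congr 1
  rw [norm_div, norm_one, Complex.norm_natCast, div_pow, one_pow]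

theorem norm_evec {n : ℕ} (hn : 0 < n) (s : ℝ) : ‖evec n s‖ = 1 := by
  have h1 := norm_inner_evec hn s s
  rw [sub_self, fejer_zero hn, inner_self_eq_norm_sq_to_K, norm_pow, ← pow_mul] at h1
  have h2 : ‖((‖evec n s‖ : ℝ) : ℂ)‖ = ‖evec n s‖ := by
    rw [Complex.norm_real, norm_norm]
  have h3 : ‖evec n s‖ ^ (2 * 2) = 1 := by
    rw [← h2]
    exact h1
  exact (pow_eq_one_iff_of_nonneg (norm_nonneg _) (by norm_num)).1 h3

/-- Bessel's inequality -/
theorem fejer_add_le {n : ℕ} (hn : 0 < n) {α : ℝ} (hα : fejer n (2 * α) = 0) (t : ℝ) :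
    fejer n (t - α) + fejer n (t + α) ≤ 1 := by
  have hort : Orthonormal ℂ ![evec n α, evec n (-α)] := by
    rw [orthonormal_iff_ite]
    have h0 : inner ℂ (evec n (-α)) (evec n α) = 0 := by
      have := norm_inner_evec hn (-α) α
      rw [sub_neg_eq_add, ← two_mul, hα] at this
      exact norm_eq_zero.1 (pow_eq_zero_iff (two_ne_zero)|>.1 this)
    have h0' : inner ℂ (evec n α) (evec n (-α)) = 0 := by
      rw [← inner_conj_symm, h0, map_zero]
    intro i j
    fin_cases i <;> fin_cases j <;> simp [h0, h0', norm_evec hn]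
  have h := hort.sum_inner_products_le (x := evec n t) (s := Finset.univ)
  rw [Fin.sum_univ_two, norm_evec hn] at h
  simp only [Matrix.cons_val_zero, Matrix.cons_val_one, one_pow] at h
  rw [norm_inner_evec hn, norm_inner_evec hn, sub_neg_eq_add] at h
  exact h


/-! ### Lower bounds -/

theorem cos_mem_trig {n : ℕ} (m : ℤ) (hm : m.natAbs ≤ n) (a : ℝ) :
    (fun t => Real.cos (m * (t - a))) ∈ trigSpace n := by
  have h1 : ∀ t : ℝ, Real.cos (m * (t - a)) = Real.cos ((m.natAbs : ℝ) * (t - a)) := by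
    intro t
    have e : ((m.natAbs : ℕ) : ℝ) = |(m : ℝ)| := by simp [Nat.cast_natAbs]
    rcases abs_choice (m : ℝ) with h | h
    · rw [e, h]
    · rw [e, h, neg_mul, Real.cos_neg]
  have h2 : (fun t => Real.cos (m * (t - a))) =
      Real.cos (m.natAbs * a) • (fun t : ℝ => Real.cos (m.natAbs * t)) +
      Real.sin (m.natAbs * a) • (fun t : ℝ => Real.sin (m.natAbs * t)) := by
    funext t
    rw [h1, mul_sub, Real.cos_sub]
    show _ = Real.cos (m.natAbs * a) * Real.cos (m.natAbs * t) +
      Real.sin (m.natAbs * a) * Real.sin (m.natAbs * t)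
    ring
  rw [h2]
  refine Submodule.add_mem _ (Submodule.smul_mem _ _ (Submodule.subset_span ?_))
    (Submodule.smul_mem _ _ (Submodule.subset_span ?_))
  · exact ⟨m.natAbs, hm, Or.inl rfl⟩
  · exact ⟨m.natAbs, hm, Or.inr rfl⟩

theorem one_mem_trig (n : ℕ) : (fun _ => (1 : ℝ)) ∈ trigSpace n := by
  have := cos_mem_trig (n := n) 0 (by simp) 0
  simpa using this

theorem fejer_mem (n : ℕ) (a : ℝ) : (fun t => fejer n (t - a)) ∈ trigSpace n := by
  have h : (fun t => fejer n (t - a)) = (1 / (n : ℝ) ^ 2) • ∑ k ∈ Finset.range n,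
      ∑ l ∈ Finset.range n, fun t : ℝ => Real.cos (((k : ℤ) - (l : ℤ) : ℤ) * (t - a)) := by
    funext t
    rw [fejer, Pi.smul_apply, Finset.sum_apply, smul_eq_mul]
    congr 1
    refine Finset.sum_congr rfl fun k _ => ?_
    rw [Finset.sum_apply]
    refine Finset.sum_congr rfl fun l _ => ?_
    push_cast
    rfl
  rw [h]
  refine Submodule.smul_mem _ _ (Submodule.sum_mem _ fun k hk => Submodule.sum_mem _ fun l hl => ?_)
  refine cos_mem_trig _ ?_ a
  rw [Finset.mem_range] at hk hl
  omega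

theorem trig_sep {n : ℕ} (hn : 0 < n) {j : ℕ} (hj0 : 0 < j) (hj : j < 2 * n) (t : ℝ) :
    ∃ g ∈ trigSpace n, (∀ s, |g s| ≤ 1) ∧ g t = 1 ∧ g (t + j * (Real.pi / n)) = -1 := by
  have hn' : (n : ℝ) ≠ 0 := by exact_mod_cast hn.ne'
  rcases Nat.even_or_odd j with ⟨m, hm⟩ | ⟨m, hm⟩
  · refine ⟨(fun _ => 1) - (2 : ℝ) • fun s => fejer n (s - (t + j * (Real.pi / n))),
      Submodule.sub_mem _ (one_mem_trig n) (Submodule.smul_mem _ _ (fejer_mem n _)), ?_, ?_, ?_⟩
    · intro s
      show |1 - 2 * fejer n (s - (t + j * (Real.pi / n)))| ≤ 1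
      have h1 := fejer_nonneg n (s - (t + j * (Real.pi / n)))
      have h2 := fejer_le_one hn (s - (t + j * (Real.pi / n)))
      rw [abs_le]
      constructor <;> linarith
    · show 1 - 2 * fejer n (t - (t + j * (Real.pi / n))) = 1
      have e : t - (t + j * (Real.pi / n)) = -(2 * Real.pi * (m : ℤ) / n) := by
        rw [hm]
        push_cast
        ring
      rw [e, fejer_neg, fejer_eq_zero hn]
      · norm_num
      · intro hd
        have h1 := Int.eq_zero_of_abs_lt_dvd hd (by
          rw [Nat.abs_cast]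
          omega)
        omega
    · show 1 - 2 * fejer n (t + j * (Real.pi / n) - (t + j * (Real.pi / n))) = -1
      rw [sub_self, fejer_zero hn]
      norm_num
  · refine ⟨fun s => Real.cos (((n : ℕ) : ℤ) * (s - t)), cos_mem_trig _ (by simp) t, ?_, ?_, ?_⟩
    · exact fun s => Real.abs_cos_le_one _
    · simp
    · have e : (((n : ℕ) : ℤ) : ℝ) * (t + j * (Real.pi / n) - t) = Real.pi + m * (2 * Real.pi) := by
        rw [hm]
        push_cast
        field_simp
        ring
      show Real.cos ((((n : ℕ) : ℤ) : ℝ) * (t + j * (Real.pi / n) - t)) = -1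
      rw [e, Real.cos_add_nat_mul_two_pi, Real.cos_pi]

section Lower

variable {d : ℕ} {D : Set ℝ} {u : Fin d → ℝ → ℝ}

theorem not_both {h : (EuclideanSpace ℝ (Fin d) →L[ℝ] ℝ) × ℝ} {x x' ε ε' : ℝ}
    (c : EuclideanSpace ℝ (Fin d)) (hc : c ∈ peak D u x ε) (hc' : -c ∈ peak D u x' ε')
    (h1 : ∀ c ∈ peak D u x ε, |h.2| < orient h c)
    (h2 : ∀ c ∈ peak D u x' ε', |h.2| < orient h c) : False := by
  have h3 := h1 c hc
  have h4 := h2 (-c) hc'
  rw [map_neg] at h4
  have h5 := abs_nonneg h.2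
  linarith

/-- coefficient vectors of antipodal functions -/
theorem exists_antipodal {S : Submodule ℝ (ℝ → ℝ)}
    (hspan : ∀ g ∈ S, ∃ c : EuclideanSpace ℝ (Fin d), ∀ x, ev u x c = g x) {g : ℝ → ℝ} (hg : g ∈ S)
    (hb : ∀ s ∈ D, |g s| ≤ 1) {x x' ε ε' : ℝ} (h1 : ε * g x = 1) (h2 : ε' * g x' = -1) :
    ∃ c, c ∈ peak D u x ε ∧ -c ∈ peak D u x' ε' := by
  obtain ⟨c, hc⟩ := hspan g hg
  refine ⟨c, mem_peak.2 ⟨mem_body.2 fun s hs => ?_, ?_⟩,
    mem_peak.2 ⟨mem_body.2 fun s hs => ?_, ?_⟩⟩
  · rw [hc]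
    exact hb s hs
  · rw [hc, h1]
  · rw [map_neg, abs_neg, hc]
    exact hb s hs
  · rw [map_neg, hc, mul_neg, h2, neg_neg]

end Lower

theorem trig_lower {d n : ℕ} (hn : 0 < n) {u : Fin d → ℝ → ℝ} (hu : ∀ i, u i ∈ trigSpace n)
    (hspan : ∀ g ∈ trigSpace n, ∃ c : EuclideanSpace ℝ (Fin d), ∀ x, ev u x c = g x)
    (hK : IsCompact (body Set.univ u)) (m : ℕ) (h : SepLE (body Set.univ u) 0 m) :
    4 * n + 2 ≤ m := by
  classical
  obtain ⟨H, hHm, hH⟩ := h
  refine le_trans ?_ hHm
  have hcont : ∀ i, Continuous (u i) := fun i => (trigSpace_props (hu i)).2.1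
  let U : ℝ → ((EuclideanSpace ℝ (Fin d) →L[ℝ] ℝ) × ℝ) → Set ℝ := fun ε h =>
    {x | ∀ c ∈ peak Set.univ u x ε, |h.2| < orient h c}
  let Hε : ℝ → Finset ((EuclideanSpace ℝ (Fin d) →L[ℝ] ℝ) × ℝ) := fun ε =>
    H.filter fun h => (U ε h).Nonempty
  have hone := one_mem_trig n
  have hdisj : Disjoint (Hε 1) (Hε (-1)) := by
    rw [Finset.disjoint_left]
    intro h h1 h2
    obtain ⟨x, hx⟩ := (Finset.mem_filter.1 h1).2
    obtain ⟨x', hx'⟩ := (Finset.mem_filter.1 h2).2
    obtain ⟨c, hc, hc'⟩ := exists_antipodal (D := Set.univ) (x := x) (x' := x') (ε := 1)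
      (ε' := -1) hspan hone (fun s _ => by simp) (by norm_num) (by norm_num)
    exact not_both c hc hc' hx hx'
  have hcard : ∀ ε : ℝ, (ε = 1 ∨ ε = -1) → 2 * n + 1 ≤ (Hε ε).card := by
    intro ε hε
    have hεε : ε * ε = 1 := by rcases hε with rfl | rfl <;> norm_num
    have habs : |ε| = 1 := by rcases hε with rfl | rfl <;> norm_num
    refine cover_circle hn (Hε ε) (U ε) (fun h _ => isOpen_separated hK hcont ε h) ?_ ?_
    · intro t
      obtain ⟨c, hc, -⟩ := exists_antipodal (D := Set.univ) (x := t) (x' := t) (ε := ε)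
        (ε' := -ε) hspan (g := ε • fun _ => (1 : ℝ)) (Submodule.smul_mem _ _ hone)
        (fun s _ => by simp [habs]) (by simpa using hεε)
        (by
          show -ε * (ε * 1) = -1
          linarith)
      obtain ⟨h, hh, hs⟩ := hH _ (isFace_peak (Set.mem_univ t) hε c hc)
      have h1 : t ∈ U ε h := orient_pos hs
      exact ⟨h, Finset.mem_filter.2 ⟨hh, ⟨t, h1⟩⟩, h1⟩
    · intro h _ t ht j hj0 hj ht'
      obtain ⟨g, hg, hb, h1, h2⟩ := trig_sep hn hj0 hj t
      obtain ⟨c, hc, hc'⟩ := exists_antipodal (D := Set.univ) (x := t)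
        (x' := t + j * (Real.pi / n)) (ε := ε) (ε' := ε) hspan (g := ε • g)
        (Submodule.smul_mem _ _ hg) (fun s _ => by
          show |ε * g s| ≤ 1
          rw [abs_mul, habs, one_mul]
          exact hb s)
        (by
          show ε * (ε * g t) = 1
          rw [h1, mul_one, hεε])
        (by
          show ε * (ε * g (t + j * (Real.pi / n))) = -1
          rw [h2, ← mul_assoc, hεε, one_mul])
      exact not_both c hc hc' ht ht'
  have h1 := hcard 1 (Or.inl rfl)
  have h2 := hcard (-1) (Or.inr rfl)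
  have h3 : Hε 1 ∪ Hε (-1) ⊆ H :=
    Finset.union_subset (Finset.filter_subset _ _) (Finset.filter_subset _ _)
  have h4 := Finset.card_le_card h3
  rw [Finset.card_union_of_disjoint hdisj] at h4
  omega

/-- The symmetrised Fejér kernel as a polynomial in the cosine. -/
noncomputable def gpoly (n : ℕ) (α : ℝ) : ℝ[X] :=
  C (1 / (n : ℝ) ^ 2) * ∑ k ∈ Finset.range n, ∑ l ∈ Finset.range n,
    C (2 * Real.cos (((k : ℝ) - l) * α)) * Chebyshev.T ℝ ((k : ℤ) - l)

theorem gpoly_natDegree (n : ℕ) (α : ℝ) : (gpoly n α).natDegree ≤ n := by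
  refine (natDegree_C_mul_le _ _).trans ?_
  refine natDegree_sum_le_of_forall_le _ _ fun k hk => ?_
  refine natDegree_sum_le_of_forall_le _ _ fun l hl => ?_
  refine (natDegree_C_mul_le _ _).trans ?_
  rw [Chebyshev.natDegree_T]
  rw [Finset.mem_range] at hk hl
  omega

theorem gpoly_eval (n : ℕ) (α t : ℝ) :
    (gpoly n α).eval (Real.cos t) = fejer n (t - α) + fejer n (t + α) := by
  rw [gpoly, eval_mul, eval_C, eval_finsetSum, fejer, fejer, ← mul_add, ← Finset.sum_add_distrib]
  congr 1
  refine Finset.sum_congr rfl fun k _ => ?_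
  rw [eval_finsetSum, ← Finset.sum_add_distrib]
  refine Finset.sum_congr rfl fun l _ => ?_
  rw [eval_mul, eval_C, Chebyshev.T_real_cos]
  push_cast
  rw [mul_sub, mul_add, Real.cos_sub, Real.cos_add]
  ring

theorem poly_sep_center {n : ℕ} (hn : 0 < n) {j l : ℕ} (hj : j ≤ n) (hl0 : 0 < l) (hl : l < n)
    (hjl : j ≠ l) (hpar : (j + l) % 2 = 0) :
    ∃ g ∈ polySpace n, (∀ s ∈ Set.Icc (-1 : ℝ) 1, |g s| ≤ 1) ∧ g (Real.cos (j * Real.pi / n)) = 1 ∧
      g (Real.cos (l * Real.pi / n)) = -1 := by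
  have hn' : (n : ℝ) ≠ 0 := by exact_mod_cast hn.ne'
  set α := l * Real.pi / n with hα
  have h2α : fejer n (2 * α) = 0 := by
    have e : 2 * α = 2 * Real.pi * ((l : ℤ) : ℝ) / n := by
      rw [hα]
      push_cast
      ring
    rw [e]
    refine fejer_eq_zero hn fun hd => ?_
    have h1 := Int.eq_zero_of_abs_lt_dvd hd (by rw [Nat.abs_cast]; omega)
    omega
  obtain ⟨q, hq⟩ : ∃ q : ℤ, (j : ℤ) - l = 2 * q := ⟨((j : ℤ) - l) / 2, by omega⟩
  refine ⟨fun x => (1 - 2 * gpoly n α : ℝ[X]).eval x, mem_polySpace _ ?_, ?_, ?_, ?_⟩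
  · refine (natDegree_sub_le _ _).trans (max_le (by simp) ?_)
    have e : (2 : ℝ[X]) = C 2 := rfl
    rw [e]
    exact (natDegree_C_mul_le _ _).trans (gpoly_natDegree n α)
  · intro s hs
    have e : s = Real.cos (Real.arccos s) := (Real.cos_arccos hs.1 hs.2).symm
    simp only [eval_sub, eval_one, eval_mul, eval_ofNat]
    rw [e, gpoly_eval]
    have h1 := fejer_nonneg n (Real.arccos s - α)
    have h2 := fejer_nonneg n (Real.arccos s + α)
    have h3 := fejer_add_le hn h2α (Real.arccos s)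
    rw [abs_le]
    constructor <;> linarith
  · simp only [eval_sub, eval_one, eval_mul, eval_ofNat]
    rw [gpoly_eval]
    have e1 : j * Real.pi / n - α = 2 * Real.pi * (q : ℝ) / n := by
      have : (j : ℝ) - l = 2 * q := by exact_mod_cast hq
      rw [hα, ← sub_div, ← sub_mul, this]
      ring
    have e2 : j * Real.pi / n + α = 2 * Real.pi * ((q + l : ℤ) : ℝ) / n := by
      have : (j : ℝ) = 2 * q + l := by
        have : (j : ℝ) - l = 2 * q := by exact_mod_cast hq
        linarith
      rw [hα, this]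
      push_cast
      ring
    rw [e1, e2, fejer_eq_zero hn, fejer_eq_zero hn]
    · norm_num
    · intro hd
      have h1 := Int.eq_zero_of_abs_lt_dvd hd (by rw [abs_lt]; omega)
      omega
    · intro hd
      have h1 := Int.eq_zero_of_abs_lt_dvd hd (by rw [abs_lt]; omega)
      omega
  · simp only [eval_sub, eval_one, eval_mul, eval_ofNat]
    rw [gpoly_eval, sub_self, fejer_zero hn, ← two_mul, h2α]
    norm_num

theorem poly_sep {n : ℕ} (hn : 0 < n) {j l : ℕ} (hj : j ≤ n) (hl : l ≤ n) (hjl : j ≠ l) :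
    ∃ g ∈ polySpace n, (∀ s ∈ Set.Icc (-1 : ℝ) 1, |g s| ≤ 1) ∧ g (Real.cos (j * Real.pi / n)) = 1 ∧
      g (Real.cos (l * Real.pi / n)) = -1 := by
  have hn' : (n : ℝ) ≠ 0 := by exact_mod_cast hn.ne'
  by_cases hpar : (j + l) % 2 = 0
  · by_cases hl1 : 0 < l ∧ l < n
    · exact poly_sep_center hn hj hl1.1 hl1.2 hjl hpar
    by_cases hj1 : 0 < j ∧ j < n
    · obtain ⟨g, hg, hb, h1, h2⟩ := poly_sep_center hn hl hj1.1 hj1.2 hjl.symm
        (by rw [add_comm]; exact hpar)
      refine ⟨-g, Submodule.neg_mem _ hg, fun s hs => ?_, ?_, ?_⟩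
      · show |-(g s)| ≤ 1
        rw [abs_neg]
        exact hb s hs
      · show -(g _) = 1
        rw [h2, neg_neg]
      · show -(g _) = -1
        rw [h1]
    · have hX : (fun x : ℝ => x) ∈ polySpace n := by
        have := mem_polySpace (n := n) (X : ℝ[X]) (natDegree_X_le.trans hn)
        simpa using this
      have hcases : (j = 0 ∧ l = n) ∨ (j = n ∧ l = 0) := by omega
      rcases hcases with ⟨rfl, rfl⟩ | ⟨rfl, rfl⟩
      · refine ⟨fun x => x, hX, fun s hs => abs_le.2 hs, ?_, ?_⟩
        · simp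
        · show Real.cos (l * Real.pi / l) = -1
          rw [mul_div_cancel_left₀ _ hn', Real.cos_pi]
      · refine ⟨-fun x => x, Submodule.neg_mem _ hX, fun s hs => ?_, ?_, ?_⟩
        · show |-s| ≤ 1
          rw [abs_neg]
          exact abs_le.2 hs
        · show -Real.cos (j * Real.pi / j) = 1
          rw [mul_div_cancel_left₀ _ hn', Real.cos_pi, neg_neg]
        · simp
  · -- Chebyshev polynomial
    have hval : ∀ i : ℕ, (Chebyshev.T ℝ n).eval (Real.cos (i * Real.pi / n)) = (-1) ^ i := by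
      intro i
      rw [Chebyshev.T_real_cos]
      have e : ((n : ℤ) : ℝ) * (i * Real.pi / n) = i * Real.pi := by
        push_cast
        field_simp
      rw [e, Real.cos_nat_mul_pi]
    have hb : ∀ s ∈ Set.Icc (-1 : ℝ) 1, |(Chebyshev.T ℝ n).eval s| ≤ 1 := by
      intro s hs
      have e : s = Real.cos (Real.arccos s) := (Real.cos_arccos hs.1 hs.2).symm
      rw [e, Chebyshev.T_real_cos]
      exact Real.abs_cos_le_one _
    have hT : (fun x => (Chebyshev.T ℝ n).eval x) ∈ polySpace n := by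
      refine mem_polySpace _ ?_
      rw [Chebyshev.natDegree_T]
      simp
    refine ⟨(-1 : ℝ) ^ j • fun x => (Chebyshev.T ℝ n).eval x, Submodule.smul_mem _ _ hT, ?_, ?_, ?_⟩
    · intro s hs
      show |(-1) ^ j * (Chebyshev.T ℝ n).eval s| ≤ 1
      rw [abs_mul, abs_neg_one_pow, one_mul]
      exact hb s hs
    · show (-1) ^ j * (Chebyshev.T ℝ n).eval (Real.cos (j * Real.pi / n)) = 1
      rw [hval, ← pow_add, ← two_mul, pow_mul]
      norm_num
    · show (-1) ^ j * (Chebyshev.T ℝ n).eval (Real.cos (l * Real.pi / n)) = -1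
      rw [hval, ← pow_add]
      exact (Nat.odd_iff.2 (by omega)).neg_one_pow

theorem poly_lower {d n : ℕ} (hn : 0 < n) {u : Fin d → ℝ → ℝ}
    (hspan : ∀ g ∈ polySpace n, ∃ c : EuclideanSpace ℝ (Fin d), ∀ x, ev u x c = g x)
    (m : ℕ) (h : SepLE (body (Set.Icc (-1) 1) u) 0 m) :
    2 * n + 2 ≤ m := by
  classical
  obtain ⟨H, hHm, hH⟩ := h
  refine le_trans ?_ hHm
  have hone : (fun _ => (1 : ℝ)) ∈ polySpace n := by
    have := mem_polySpace (n := n) (1 : ℝ[X]) (by simp)
    simpa using this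
  let sg : Bool → ℝ := fun b => if b then 1 else -1
  have hsg : ∀ b, sg b = 1 ∨ sg b = -1 := by
    intro b
    cases b
    · exact Or.inr rfl
    · exact Or.inl rfl
  have hsq : ∀ b, sg b * sg b = 1 := by
    intro b
    rcases hsg b with h | h <;> rw [h] <;> norm_num
  have habs : ∀ b, |sg b| = 1 := by
    intro b
    rcases hsg b with h | h <;> rw [h] <;> norm_num
  let X0 : Fin (n + 1) → ℝ := fun j => Real.cos ((j : ℕ) * Real.pi / n)
  have hX0 : ∀ j, X0 j ∈ Set.Icc (-1 : ℝ) 1 := fun j => Real.cos_mem_Icc _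
  have hch : ∀ p : Bool × Fin (n + 1), ∃ h ∈ H,
      ∀ c ∈ peak (Set.Icc (-1) 1) u (X0 p.2) (sg p.1), |h.2| < orient h c := by
    intro p
    obtain ⟨c, hc, -⟩ := exists_antipodal (D := Set.Icc (-1) 1) (x := X0 p.2) (x' := X0 p.2)
      (ε := sg p.1) (ε' := -sg p.1) hspan (g := sg p.1 • fun _ => (1 : ℝ))
      (Submodule.smul_mem _ _ hone) (fun s _ => by simp [habs]) (by simpa using hsq p.1)
      (by
        show -sg p.1 * (sg p.1 * 1) = -1
        have := hsq p.1
        linarith)
    obtain ⟨h, hh, hs⟩ := hH _ (isFace_peak (hX0 p.2) (hsg p.1) c hc)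
    exact ⟨h, hh, orient_pos hs⟩
  choose f hf hf2 using hch
  have hinj : Function.Injective f := by
    intro p q hpq
    by_contra hne
    have h1 := hf2 p
    have h2 := hf2 q
    rw [← hpq] at h2
    by_cases hb : p.1 = q.1
    · have hj : (p.2 : ℕ) ≠ (q.2 : ℕ) := by
        intro hj
        exact hne (Prod.ext hb (Fin.ext hj))
      obtain ⟨g, hg, hgb, g1, g2⟩ := poly_sep hn (Nat.lt_succ_iff.1 p.2.2)
        (Nat.lt_succ_iff.1 q.2.2) hj
      obtain ⟨c, hc, hc'⟩ := exists_antipodal (D := Set.Icc (-1) 1) (x := X0 p.2) (x' := X0 q.2)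
        (ε := sg p.1) (ε' := sg q.1) hspan (g := sg p.1 • g) (Submodule.smul_mem _ _ hg)
        (fun s hs => by
          show |sg p.1 * g s| ≤ 1
          rw [abs_mul, habs, one_mul]
          exact hgb s hs)
        (by
          show sg p.1 * (sg p.1 * g (X0 p.2)) = 1
          rw [g1, mul_one, hsq])
        (by
          show sg q.1 * (sg p.1 * g (X0 q.2)) = -1
          rw [g2, hb, ← mul_assoc, hsq, one_mul])
      exact not_both c hc hc' h1 h2
    · have hneg : sg q.1 = -sg p.1 := by
        revert hb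
        generalize p.1 = a
        generalize q.1 = b
        intro hb
        cases a <;> cases b <;> simp [sg] at hb ⊢
      obtain ⟨c, hc, hc'⟩ := exists_antipodal (D := Set.Icc (-1) 1) (x := X0 p.2) (x' := X0 q.2)
        (ε := sg p.1) (ε' := sg q.1) hspan (g := sg p.1 • fun _ => (1 : ℝ))
        (Submodule.smul_mem _ _ hone) (fun s _ => by simp [habs]) (by simpa using hsq p.1)
        (by
          show sg q.1 * (sg p.1 * 1) = -1
          rw [hneg]
          have := hsq p.1
          linarith)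
      exact not_both c hc hc' h1 h2
  have h1 := Finset.card_le_card_of_injOn (s := (Finset.univ : Finset (Bool × Fin (n + 1)))) f
    (fun p _ => hf p) (hinj.injOn)
  rw [Finset.card_univ, Fintype.card_prod, Fintype.card_bool, Fintype.card_fin] at h1
  omega


/-! ### Dimensions -/

/-- Dirichlet kernel -/
noncomputable def dirichlet (n : ℕ) (t : ℝ) : ℝ :=
  ∑ k ∈ Finset.range (2 * n + 1), Real.cos ((((k : ℤ) - (n : ℤ) : ℤ) : ℝ) * t)

theorem dirichlet_zero (n : ℕ) : dirichlet n 0 = 2 * n + 1 := by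
  simp [dirichlet]

theorem dirichlet_eq_zero (n : ℕ) {m : ℤ} (hm : ¬ ((2 * n + 1 : ℕ) : ℤ) ∣ m) :
    dirichlet n (2 * Real.pi * m / ((2 * n + 1 : ℕ) : ℝ)) = 0 := by
  have h := esum_eq_zero (n := 2 * n + 1) (by omega) hm
  set t := 2 * Real.pi * m / ((2 * n + 1 : ℕ) : ℝ)
  have h1 := esum_re (2 * n + 1) t
  have h2 := esum_im (2 * n + 1) t
  rw [h, Complex.zero_re] at h1
  rw [h, Complex.zero_im] at h2
  have h3 : dirichlet n t = Real.cos (n * t) * (∑ k ∈ Finset.range (2 * n + 1), Real.cos (k * t)) +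
      Real.sin (n * t) * ∑ k ∈ Finset.range (2 * n + 1), Real.sin (k * t) := by
    rw [dirichlet, Finset.mul_sum, Finset.mul_sum, ← Finset.sum_add_distrib]
    refine Finset.sum_congr rfl fun k _ => ?_
    push_cast
    rw [sub_mul, Real.cos_sub]
    ring
  rw [h3, ← h1, ← h2]
  ring

theorem dirichlet_mem (n : ℕ) (a : ℝ) : (fun t => dirichlet n (t - a)) ∈ trigSpace n := by
  have h : (fun t => dirichlet n (t - a)) = ∑ k ∈ Finset.range (2 * n + 1),
      fun t : ℝ => Real.cos ((((k : ℤ) - (n : ℤ) : ℤ) : ℝ) * (t - a)) := by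
    funext t
    rw [dirichlet, Finset.sum_apply]
  rw [h]
  refine Submodule.sum_mem _ fun k hk => cos_mem_trig _ ?_ a
  rw [Finset.mem_range] at hk
  omega

theorem finrank_trig (n : ℕ) : finrank ℝ (trigSpace n) = 2 * n + 1 := by
  classical
  have hN : (0 : ℝ) < ((2 * n + 1 : ℕ) : ℝ) := by positivity
  let s : Fin (2 * n + 1) → ℝ := fun m => 2 * Real.pi * ((m : ℕ) : ℤ) / ((2 * n + 1 : ℕ) : ℝ)
  let L : trigSpace n →ₗ[ℝ] (Fin (2 * n + 1) → ℝ) :=
    { toFun := fun f m => f.1 (s m)
      map_add' := fun f g => rfl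
      map_smul' := fun a f => rfl }
  have hinj : Function.Injective L := by
    rw [← LinearMap.ker_eq_bot, LinearMap.ker_eq_bot']
    intro f hf
    have hsinj : Function.Injective s := by
      intro a b hab
      simp only [s] at hab
      have hpi := Real.pi_pos
      field_simp at hab
      have h2 : ((a : ℕ) : ℤ) = ((b : ℕ) : ℤ) := by exact_mod_cast hab
      exact Fin.ext (by exact_mod_cast h2)
    have h := (trigSpace_props f.2).1.eq_zero (Finset.univ.image s) (fun z hz => ?_)
      (fun z hz => ?_) (by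
        rw [Finset.card_image_of_injective _ hsinj, Finset.card_univ, Fintype.card_fin]
        omega)
    · ext t
      exact h t
    · obtain ⟨m, -, rfl⟩ := Finset.mem_image.1 hz
      have hpi := Real.pi_pos
      refine ⟨by positivity, ?_⟩
      simp only [s]
      rw [div_lt_iff₀ hN]
      have hm : (m : ℕ) < 2 * n + 1 := m.2
      have hm' : (((m : ℕ) : ℤ) : ℝ) < ((2 * n + 1 : ℕ) : ℝ) := by exact_mod_cast hm
      exact mul_lt_mul_of_pos_left hm' (by positivity)
    · obtain ⟨m, -, rfl⟩ := Finset.mem_image.1 hz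
      exact congrFun hf m
  have hsurj : Function.Surjective L := by
    intro c
    let g : Fin (2 * n + 1) → trigSpace n := fun m => ⟨_, dirichlet_mem n (s m)⟩
    refine ⟨∑ m, (c m / (2 * n + 1)) • g m, ?_⟩
    funext j
    rw [map_sum, Finset.sum_apply]
    have hval : ∀ m, L ((c m / (2 * n + 1)) • g m) j = if m = j then c j else 0 := by
      intro m
      rw [map_smul, Pi.smul_apply, smul_eq_mul]
      show c m / (2 * n + 1) * dirichlet n (s j - s m) = _
      split_ifs with h
      · rw [h, sub_self, dirichlet_zero]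
        have : (2 * (n : ℝ) + 1) ≠ 0 := by positivity
        field_simp
      · have e : s j - s m = 2 * Real.pi * (((j : ℕ) : ℤ) - ((m : ℕ) : ℤ) : ℤ) /
            ((2 * n + 1 : ℕ) : ℝ) := by
          simp only [s]
          push_cast
          ring
        rw [e, dirichlet_eq_zero, mul_zero]
        intro hd
        have h1 := Int.eq_zero_of_abs_lt_dvd hd (by rw [abs_lt]; omega)
        exact h (Fin.ext (by omega))
    simp only [hval, Finset.sum_ite_eq', Finset.mem_univ, if_true]
  have h := (LinearEquiv.ofBijective L ⟨hinj, hsurj⟩).finrank_eq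
  rw [h, finrank_fintype_fun_eq_card, Fintype.card_fin]

theorem finrank_poly (n : ℕ) : finrank ℝ (polySpace n) = n + 1 := by
  let L : degreeLT ℝ (n + 1) →ₗ[ℝ] (ℝ → ℝ) :=
    { toFun := fun p x => p.1.eval x
      map_add' := fun p q => by funext x; simp
      map_smul' := fun a p => by funext x; simp }
  have hinj : Function.Injective L := by
    intro p q hpq
    exact Subtype.ext (Polynomial.funext fun x => congrFun hpq x)
  have hrange : LinearMap.range L = polySpace n := by
    ext f
    constructor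
    · rintro ⟨p, rfl⟩
      refine mem_polySpace p.1 ?_
      have h1 := mem_degreeLT.1 p.2
      refine natDegree_le_iff_coeff_eq_zero.2 fun N hN => coeff_eq_zero_of_degree_lt ?_
      exact lt_of_lt_of_le h1 (by exact_mod_cast hN)
    · intro hf
      obtain ⟨p, hp, hp2⟩ := polySpace_props hf
      refine ⟨⟨p, mem_degreeLT.2 ?_⟩, funext fun x => (hp2 x).symm⟩
      exact lt_of_le_of_lt degree_le_natDegree (by exact_mod_cast Nat.lt_succ_of_le hp)
  rw [← hrange, LinearMap.finrank_range_of_inj hinj, (degreeLTEquiv ℝ (n + 1)).finrank_eq,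
    finrank_fintype_fun_eq_card, Fintype.card_fin]

/-! ### Assembly -/

section Assembly

variable {d : ℕ} {D C : Set ℝ} {u : Fin d → ℝ → ℝ}

theorem exists_coeff {S : Submodule ℝ (ℝ → ℝ)} (hspan : Submodule.span ℝ (Set.range u) = S)
    {g : ℝ → ℝ} (hg : g ∈ S) : ∃ c : EuclideanSpace ℝ (Fin d), ∀ x, ev u x c = g x := by
  rw [← hspan] at hg
  obtain ⟨c, hc⟩ := (Submodule.mem_span_range_iff_exists_fun ℝ).1 hg
  refine ⟨WithLp.toLp 2 c, fun x => ?_⟩
  rw [ev_apply, ← hc, Finset.sum_apply]
  rfl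

theorem zero_of_independent (hu : LinearIndependent ℝ u) (c : EuclideanSpace ℝ (Fin d))
    (h : ∀ x, ev u x c = 0) : c = 0 := by
  rw [Fintype.linearIndependent_iff] at hu
  have h1 := hu (fun i => c i) (by
    funext x
    rw [Finset.sum_apply]
    have := h x
    rw [ev_apply] at this
    exact this)
  ext i
  exact h1 i

theorem ind_trig {n : ℕ} (hu : LinearIndependent ℝ u) (hu2 : ∀ i, u i ∈ trigSpace n)
    (c : EuclideanSpace ℝ (Fin d)) (h : ∀ x ∈ Set.Icc 0 (2 * Real.pi), ev u x c = 0) : c = 0 := by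
  refine zero_of_independent hu c fun x => ?_
  obtain ⟨y, hy, hy2⟩ := (dom_trig hu2).norm x (Set.mem_univ x)
  have h1 := h y hy
  rw [ev_apply] at h1 ⊢
  simp only [hy2]
  exact h1

theorem ind_poly {n : ℕ} (hu : LinearIndependent ℝ u) (hu2 : ∀ i, u i ∈ polySpace n)
    (c : EuclideanSpace ℝ (Fin d)) (h : ∀ x ∈ Set.Icc (-1 : ℝ) 1, ev u x c = 0) : c = 0 := by
  refine zero_of_independent hu c fun x => ?_
  obtain ⟨p, -, hp⟩ := polySpace_props (ev_mem hu2 c)
  have hp0 : p = 0 := by
    refine p.eq_zero_of_infinite_isRoot ?_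
    refine Set.Infinite.mono (s := Set.Icc (-1 : ℝ) 1) ?_ (Set.Icc_infinite (by norm_num))
    intro y hy
    show p.eval y = 0
    rw [← hp y]
    exact h y hy
  have := hp x
  rw [hp0, eval_zero] at this
  exact this

theorem zero_mem_interior (hD : Dom D C u) : (0 : EuclideanSpace ℝ (Fin d)) ∈ interior (body D u) := by
  have hB : ∀ i, ∃ B : ℝ, ∀ x ∈ C, |u i x| ≤ B := by
    intro i
    obtain ⟨x, -, hx⟩ := hD.compact.exists_isMaxOn hD.nonempty (hD.cont i).abs.continuousOn
    exact ⟨|u i x|, fun y hy => hx hy⟩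
  choose B hB using hB
  have hB0 : ∀ i, 0 ≤ B i := by
    obtain ⟨x, hx⟩ := hD.nonempty
    exact fun i => (abs_nonneg _).trans (hB i x hx)
  have hsum : 0 ≤ ∑ i, B i := Finset.sum_nonneg fun i _ => hB0 i
  rw [mem_interior_iff_mem_nhds]
  refine Filter.mem_of_superset (Metric.ball_mem_nhds _ (ε := 1 / (∑ i, B i + 1)) (by positivity)) ?_
  intro c hc
  rw [mem_ball, dist_zero_right] at hc
  rw [hD.mem_body]
  intro x hx
  rw [ev_apply]
  calc |∑ i, c i * u i x| ≤ ∑ i, |c i * u i x| := Finset.abs_sum_le_sum_abs _ _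
    _ ≤ ∑ i, ‖c‖ * B i := by
      refine Finset.sum_le_sum fun i _ => ?_
      rw [abs_mul]
      refine mul_le_mul ?_ (hB i x hx) (abs_nonneg _) (norm_nonneg _)
      exact PiLp.norm_apply_le c i
    _ = ‖c‖ * ∑ i, B i := by rw [Finset.mul_sum]
    _ ≤ 1 / (∑ i, B i + 1) * (∑ i, B i + 1) := by
      refine mul_le_mul hc.le (by linarith) hsum (by positivity)
    _ = 1 := by
      have : (∑ i, B i + 1) ≠ 0 := by positivity
      field_simp

end Assembly

/-- **Main theorem.** See the head of the file. -/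
theorem result (n : ℕ) (hn : 1 ≤ n) :
    -- (1) spaces of trigonometric polynomials of degree at most `n`
    (∀ (d : ℕ) (u : Fin d → ℝ → ℝ), LinearIndependent ℝ u → (∀ i, u i ∈ trigSpace n) →
      IsCompact (body univ u) ∧ Convex ℝ (body univ u) ∧ 0 ∈ interior (body univ u) ∧
      SepLE (body univ u) 0 (4 * n + 2) ∧
      (Submodule.span ℝ (Set.range u) = trigSpace n →
        d = 2 * n + 1 ∧ IsLeast {m | SepLE (body univ u) 0 m} (2 * d))) ∧
    -- (2) spaces of polynomials of degree at most `n` on `[-1, 1]`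
    (∀ (d : ℕ) (u : Fin d → ℝ → ℝ), LinearIndependent ℝ u → (∀ i, u i ∈ polySpace n) →
      IsCompact (body (Icc (-1) 1) u) ∧ Convex ℝ (body (Icc (-1) 1) u) ∧
      0 ∈ interior (body (Icc (-1) 1) u) ∧
      SepLE (body (Icc (-1) 1) u) 0 (2 * n + 2) ∧
      (Submodule.span ℝ (Set.range u) = polySpace n →
        d = n + 1 ∧ IsLeast {m | SepLE (body (Icc (-1) 1) u) 0 m} (2 * d))) := by
  refine ⟨?_, ?_⟩
  · intro d u hu hu2
    have hD := dom_trig hu2
    have hK := isCompact_body hD (ind_trig hu hu2)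
    refine ⟨hK, body_convex _ _, zero_mem_interior hD, trig_upper hn hu2, fun hspan => ?_⟩
    have hd : d = 2 * n + 1 := by
      have h1 := finrank_span_eq_card hu
      rw [hspan, finrank_trig, Fintype.card_fin] at h1
      exact h1.symm
    refine ⟨hd, (trig_upper hn hu2).mono (by omega), fun m hm => ?_⟩
    have := trig_lower hn hu2 (fun g hg => exists_coeff hspan hg) hK m hm
    omega
  · intro d u hu hu2
    have hD := dom_poly hu2
    have hK := isCompact_body hD (ind_poly hu hu2)
    refine ⟨hK, body_convex _ _, zero_mem_interior hD, poly_upper hn hu2, fun hspan => ?_⟩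
    have hd : d = n + 1 := by
      have h1 := finrank_span_eq_card hu
      rw [hspan, finrank_poly, Fintype.card_fin] at h1
      exact h1.symm
    refine ⟨hd, (poly_upper hn hu2).mono (by omega), fun m hm => ?_⟩
    have := poly_lower hn (fun g hg => exists_coeff hspan hg) m hm
    omega

end Pool.Agent.Results.MP_5e7226_co.SupNormPolynomials
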