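import Mathlib
import Pool.Agent.Results.MP_eba1ef_gt.AlmostSymmetricBodies

set_option autoImplicit false

/-!
# MP_5e7226_co: separating all faces of a symmetric convex body from its centre

Let `K` be a convex body in `ℝ^d` which is symmetric about its interior point `o`. There are at most
`7 d 2^d` hyperplanes such that every face of `K` is strictly separated from `o` by one of them. The
bounds known before have an additional factor of order `log d` (Rogers: `2^d (d log d + ...)`).

The proof: the polar body of `K` with respect to `o` is centrally symmetric and so it is covered by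
at most `7 d 2^d` translates `t + int` (`MP_eba1ef_gt.AlmostSymmetricBodies`); the vectors `t` are
normal vectors of the separating hyperplanes. This last step is that of the starting result
`MP_5e7226_co.AllConvexBodies`.
-/

namespace Pool.Agent.Results.MP_5e7226_co.SymmetricBodies

open scoped InnerProductSpace
open Metric MeasureTheory

/-- **Main theorem.** All faces of a convex body symmetric about its interior point `o` are
strictly separated from `o` by at most `7 d 2^d` hyperplanes `⟪v, x⟫ = s`, given as pairs `(v, s)`. -/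
theorem result (d : ℕ) (hd : 1 ≤ d) (K : Set (EuclideanSpace ℝ (Fin d)))
    (hKc : IsCompact K) (o : EuclideanSpace ℝ (Fin d)) (ho : o ∈ interior K)
    (hsym : ∀ x ∈ K, (2 : ℝ) • o - x ∈ K) :
    ∃ H : Finset (EuclideanSpace ℝ (Fin d) × ℝ),
      (H.card : ℝ) ≤ 7 * d * 2 ^ d ∧
      (∀ h ∈ H, h.1 ≠ 0) ∧
      ∀ u x₀ : EuclideanSpace ℝ (Fin d), u ≠ 0 → x₀ ∈ K → (∀ y ∈ K, ⟪u, y⟫_ℝ ≤ ⟪u, x₀⟫_ℝ) →
        ∃ h ∈ H, ⟪h.1, o⟫_ℝ < h.2 ∧ ∀ x ∈ K, ⟪u, x⟫_ℝ = ⟪u, x₀⟫_ℝ → h.2 < ⟪h.1, x⟫_ℝ := by
  classical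
  -- a ball around `o`
  obtain ⟨r, hr, hrK⟩ : ∃ r > 0, closedBall o r ⊆ K := by
    obtain ⟨r, hr, h⟩ := Metric.isOpen_iff.mp isOpen_interior o ho
    exact ⟨r / 2, by positivity, (closedBall_subset_ball (by linarith)).trans
      (h.trans interior_subset)⟩
  obtain ⟨R, hR⟩ : ∃ R : ℝ, ∀ y ∈ K, ‖y - o‖ ≤ R := by
    obtain ⟨R, hR⟩ := hKc.isBounded.subset_closedBall o
    exact ⟨R, fun y hy => by simpa [dist_eq_norm] using hR hy⟩
  have hR0 : 0 ≤ R := (norm_nonneg _).trans (hR o (interior_subset ho))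
  -- the polar body
  let P : Set (EuclideanSpace ℝ (Fin d)) := {v | ∀ y ∈ K, ⟪v, y - o⟫_ℝ ≤ 1}
  have hPc : Convex ℝ P := by
    intro v hv w hw a b ha hb hab y hy
    rw [inner_add_left, real_inner_smul_left, real_inner_smul_left]
    nlinarith [hv y hy, hw y hy]
  have hPcl : IsClosed P := by
    have : P = ⋂ y ∈ K, {v | ⟪v, y - o⟫_ℝ ≤ 1} := by
      ext v; simp [P]
    rw [this]
    refine isClosed_biInter fun y _ => isClosed_le ?_ continuous_const
    exact continuous_id.inner continuous_const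
  have hPb : ∀ v ∈ P, ‖v‖ ≤ 1 / r := by
    intro v hv
    rcases eq_or_ne v 0 with rfl | hv0
    · simp; positivity
    have hn : 0 < ‖v‖ := norm_pos_iff.mpr hv0
    have hy : o + (r / ‖v‖) • v ∈ K := by
      apply hrK
      rw [mem_closedBall, dist_eq_norm, add_sub_cancel_left, norm_smul, Real.norm_eq_abs,
        abs_of_pos (by positivity), div_mul_cancel₀ _ hn.ne']
    have h := hv _ hy
    rw [add_sub_cancel_left, real_inner_smul_right, real_inner_self_eq_norm_sq] at h
    rw [le_div_iff₀ hr]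
    have e : r / ‖v‖ * ‖v‖ ^ 2 = ‖v‖ * r := by field_simp
    linarith
  have hPk : IsCompact P := by
    refine Metric.isCompact_of_isClosed_isBounded hPcl ?_
    refine (isBounded_iff_subset_closedBall 0).mpr ⟨1 / r, fun v hv => ?_⟩
    simpa using hPb v hv
  have hPi : (interior P).Nonempty := by
    refine ⟨0, ?_⟩
    rw [mem_interior]
    refine ⟨ball 0 (1 / (R + 1)), ?_, isOpen_ball, by simp; positivity⟩
    intro v hv y hy
    rw [mem_ball_zero_iff] at hv
    calc ⟪v, y - o⟫_ℝ ≤ ‖v‖ * ‖y - o‖ := real_inner_le_norm _ _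
      _ ≤ 1 / (R + 1) * R := by
          gcongr
          exact hR y hy
      _ ≤ 1 := by
          rw [div_mul_eq_mul_div, one_mul, div_le_one (by positivity)]
          linarith
  have hPsym : P ∩ {x | (2 : ℝ) • (0 : EuclideanSpace ℝ (Fin d)) - x ∈ P} = P := by
    refine Set.inter_eq_left.2 fun v hv => ?_
    show (2 : ℝ) • (0 : EuclideanSpace ℝ (Fin d)) - v ∈ P
    intro y hy
    have h := hv _ (hsym y hy)
    have e : (2 : ℝ) • o - y - o = -(y - o) := by
      rw [two_smul]
      abel
    rw [e, inner_neg_right] at h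
    rw [smul_zero, zero_sub, inner_neg_left]
    exact h
  obtain ⟨T, hT, hcard⟩ :=
    Pool.Agent.Results.MP_eba1ef_gt.AlmostSymmetricBodies.result d hd P hPc hPk hPi 0 1 one_pos
      (by rw [hPsym, one_mul])
  replace hcard : (T.card : ℝ) ≤ 7 * d * 2 ^ d := by
    refine hcard.trans ?_
    calc (d : ℝ) * 2 ^ d * min (7 / 1) (11 + 3 * Real.log (1 + Real.log (1 / 1)))
        ≤ d * 2 ^ d * (7 / 1) := by
          gcongr
          exact min_le_left _ _
      _ = _ := by ring
  -- a Lebesgue number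
  obtain ⟨δ, hδ, hleb⟩ : ∃ δ > 0, ∀ v ∈ P, ∃ t ∈ T, ball v δ ⊆ (fun x => t + x) '' interior P := by
    have hop : ∀ t : T, IsOpen ((fun x => (t : EuclideanSpace ℝ (Fin d)) + x) '' interior P) :=
      fun t => (Homeomorph.addLeft (t : EuclideanSpace ℝ (Fin d))).isOpenMap _ isOpen_interior
    have hcov : P ⊆ ⋃ t : T, (fun x => (t : EuclideanSpace ℝ (Fin d)) + x) '' interior P := by
      intro v hv
      have h := hT hv
      simp only [Set.mem_iUnion] at h ⊢
      obtain ⟨t, ht, h⟩ := h
      exact ⟨⟨t, ht⟩, h⟩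
    obtain ⟨δ, hδ, h⟩ := lebesgue_number_lemma_of_metric hPk hop hcov
    refine ⟨δ, hδ, fun v hv => ?_⟩
    obtain ⟨t, ht⟩ := h v hv
    exact ⟨t, t.2, ht⟩
  set ε : ℝ := δ / 2 * r with hε
  have hε0 : 0 < ε := by positivity
  refine ⟨(T.filter (fun t => t ≠ 0)).image (fun t => (t, ⟪t, o⟫_ℝ + ε / 2)), ?_, ?_, ?_⟩
  · refine le_trans ?_ hcard
    exact_mod_cast Finset.card_image_le.trans (Finset.card_filter_le _ _)
  · intro h hh
    rw [Finset.mem_image] at hh
    obtain ⟨t, ht, rfl⟩ := hh
    exact (Finset.mem_filter.mp ht).2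
  · intro u x₀ hu hx₀ hmax
    have hun : 0 < ‖u‖ := norm_pos_iff.mpr hu
    -- the support function is positive
    have hpos : 0 < ⟪u, x₀ - o⟫_ℝ := by
      have hy : o + (r / ‖u‖) • u ∈ K := by
        apply hrK
        rw [mem_closedBall, dist_eq_norm, add_sub_cancel_left, norm_smul, Real.norm_eq_abs,
          abs_of_pos (by positivity), div_mul_cancel₀ _ hun.ne']
      have h := hmax _ hy
      rw [inner_add_right, real_inner_smul_right, real_inner_self_eq_norm_sq] at h
      rw [inner_sub_right]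
      have : 0 < r / ‖u‖ * ‖u‖ ^ 2 := by positivity
      linarith
    set c : ℝ := ⟪u, x₀ - o⟫_ℝ with hc
    have hvP : c⁻¹ • u ∈ P := by
      intro y hy
      rw [real_inner_smul_left, inv_mul_le_iff₀ hpos, mul_one, hc, inner_sub_right,
        inner_sub_right]
      linarith [hmax y hy]
    obtain ⟨t, htT, ht⟩ := hleb _ hvP
    -- the key inequality
    have key : ∀ x ∈ K, ⟪u, x⟫_ℝ = ⟪u, x₀⟫_ℝ → ε ≤ ⟪t, x - o⟫_ℝ := by
      intro x hx hxu
      have h1 : ⟪c⁻¹ • u, x - o⟫_ℝ = 1 := by
        rw [real_inner_smul_left, inner_sub_right, hxu, ← inner_sub_right, ← hc,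
          inv_mul_cancel₀ hpos.ne']
      have h2 : r ≤ ‖x - o‖ := by
        have h3 := real_inner_le_norm (c⁻¹ • u) (x - o)
        rw [h1] at h3
        have h4 := hPb _ hvP
        have h5 : 1 ≤ 1 / r * ‖x - o‖ := h3.trans (by gcongr)
        rw [one_div, ← div_eq_inv_mul, le_div_iff₀ hr] at h5
        linarith
      have hxn : 0 < ‖x - o‖ := hr.trans_le h2
      have hz : c⁻¹ • u + (δ / 2 / ‖x - o‖) • (x - o) ∈ ball (c⁻¹ • u) δ := by
        rw [mem_ball, dist_eq_norm, add_sub_cancel_left, norm_smul, Real.norm_eq_abs,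
          abs_of_pos (by positivity), div_mul_cancel₀ _ hxn.ne']
        linarith
      obtain ⟨p, hp, hpe⟩ := ht hz
      have hp' : ⟪p, x - o⟫_ℝ ≤ 1 := interior_subset hp x hx
      have hpe' : p = c⁻¹ • u + (δ / 2 / ‖x - o‖) • (x - o) - t := by
        rw [← hpe]; simp
      rw [hpe', inner_sub_left, inner_add_left, h1, real_inner_smul_left,
        real_inner_self_eq_norm_sq] at hp'
      have e : δ / 2 / ‖x - o‖ * ‖x - o‖ ^ 2 = δ / 2 * ‖x - o‖ := by field_simp
      rw [e] at hp'
      have : ε ≤ δ / 2 * ‖x - o‖ := by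
        rw [hε]; gcongr
      linarith
    have ht0 : t ≠ 0 := by
      rintro rfl
      have h := key x₀ hx₀ rfl
      rw [inner_zero_left] at h
      linarith
    refine ⟨(t, ⟪t, o⟫_ℝ + ε / 2), Finset.mem_image_of_mem _ (Finset.mem_filter.mpr ⟨htT, ht0⟩),
      by simp only; linarith, fun x hx hxu => ?_⟩
    have h := key x hx hxu
    rw [inner_sub_right] at h
    simp only
    linarith

end Pool.Agent.Results.MP_5e7226_co.SymmetricBodies
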